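import Pool.Agent.Helper889_Halv.Quad

/-! Averaging over the deletions from four classes. -/

set_option autoImplicit false

namespace Pool.Agent.Helper889_Halv

open Finset Pool.Agent.Y344.KD Pool.Agent.H189R2.Iid

variable {n : ℕ}

/-- levels within `m / 2` of the middle -/
def Wn (n m : ℕ) : Finset ℕ := (range n).filter (fun k => n ≤ 2 * k + 2 + m ∧ 2 * k + 2 ≤ n + m)

theorem Wn_card (n m : ℕ) : (Wn n m).card ≤ m + 1 := by
  have h : Wn n m ⊆ Icc ((n - m - 1) / 2) ((n - m - 1) / 2 + m) := by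
    intro k hk
    unfold Wn at hk
    rw [mem_filter, mem_range] at hk
    rw [mem_Icc]
    omega
  refine (card_le_card h).trans ?_
  rw [Nat.card_Icc]
  omega

open Classical in
theorem avg {P : Fin n → ℝ × ℝ} (hP : GP P) {u : ℕ} (hn : 16 * u + 7 ≤ n) :
    ∃ D : Finset (Fin n), 8 * u ≤ D.card ∧ D.card ≤ 16 * u ∧ Even D.card ∧
      (BP P D).card * (u + 1) ≤ 2 * ((EW P (Wn n (16 * u))).card + 1) ∧
      (BP P Dᶜ).card * (u + 1) ≤ 2 * ((16 * u) ^ 2 + 1) := by
  obtain ⟨A0, hdis0, hcard0, hq0⟩ := quad hP (τ := 4 * u) (by omega)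
  -- classes of exactly `4 u` points
  have hexA : ∀ j, ∃ S, S ⊆ A0 j ∧ S.card = 4 * u := fun j => exists_subset_card_eq (hcard0 j)
  choose A hAsub hcard using hexA
  have hdis : ∀ i j, i ≠ j → Disjoint (A i) (A j) := fun i j hij =>
    disjoint_of_subset_left (hAsub i) (disjoint_of_subset_right (hAsub j) (hdis0 i j hij))
  have hq : ∀ q ∈ T P, ∃ i, A i ⊆ lowSet P q ∨ A i ⊆ highSet P q := by
    intro q hqT
    obtain ⟨i, hi⟩ := hq0 q hqT
    exact ⟨i, hi.imp (fun h => (hAsub i).trans h) (fun h => (hAsub i).trans h)⟩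
  have hex : ∀ (j : Fin 4) (s : Fin (u + 1)), ∃ S : Finset (Fin n), S ⊆ A j ∧
      S.card = 2 * (u + (s : ℕ)) := by
    intro j s
    have h1 := hcard j
    have h2 := s.2
    exact exists_subset_card_eq (by omega)
  choose Dj hsub hcd using hex
  set D : (Fin 4 → Fin (u + 1)) → Finset (Fin n) := fun s =>
    univ.biUnion (fun j => Dj j (s j)) with hD
  set U : Finset (Fin n) := univ.biUnion A with hU
  have hUc : U.card = 16 * u := by
    rw [hU, card_biUnion (fun i _ j _ hij => hdis i j hij), sum_congr rfl (fun j _ => hcard j)]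
    simp
    ring
  have hDU : ∀ s, D s ⊆ U := fun s => biUnion_mono (fun j _ => hsub j (s j))
  have hdj : ∀ s : Fin 4 → Fin (u + 1), ∀ i j, i ≠ j → Disjoint (Dj i (s i)) (Dj j (s j)) :=
    fun s i j hij => disjoint_of_subset_left (hsub i _)
      (disjoint_of_subset_right (hsub j _) (hdis i j hij))
  have hDc : ∀ s, (D s).card = ∑ j, 2 * (u + (s j : ℕ)) := by
    intro s
    rw [hD]
    simp only
    rw [card_biUnion (fun i _ j _ hij => hdj s i j hij)]
    exact sum_congr rfl (fun j _ => hcd j (s j))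
  have hDle : ∀ s, (D s).card ≤ 16 * u := fun s => (card_le_card (hDU s)).trans hUc.le
  have hDge : ∀ s, 8 * u ≤ (D s).card := by
    intro s
    rw [hDc]
    calc 8 * u = ∑ _j : Fin 4, 2 * u := by simp; ring
      _ ≤ ∑ j, 2 * (u + (s j : ℕ)) := sum_le_sum (fun j _ => by omega)
  have hDev : ∀ s, Even (D s).card := by
    intro s
    rw [hDc, ← mul_sum]
    exact even_two_mul _
  have hint : ∀ (S : Finset (Fin n)) s, (S \ D s).card + ∑ j, (S ∩ Dj j (s j)).card = S.card := by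
    intro S s
    have h1 : (S ∩ D s).card = ∑ j, (S ∩ Dj j (s j)).card := by
      rw [hD]
      simp only
      rw [inter_biUnion, card_biUnion]
      intro i _ j _ hij
      exact disjoint_of_subset_left inter_subset_right
        (disjoint_of_subset_right inter_subset_right (hdj s i j hij))
    rw [← h1]
    exact card_sdiff_add_card_inter S (D s)
  have hcomp : ∀ (S : Finset (Fin n)) s, (S \ (D s)ᶜ).card + (S \ D s).card = S.card := by
    intro S s
    have h1 := card_sdiff_add_card_inter S (D s)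
    have h2 : S \ (D s)ᶜ = S ∩ D s := by
      ext l
      simp
    rw [h2]
    omega
  -- for each pair, the class on one side determines the balanced choices
  have hdet : ∀ q ∈ T P, ∃ i : Fin 4, ∀ s s' : Fin 4 → Fin (u + 1),
      (∀ j : Fin 3, s (i.succAbove j) = s' (i.succAbove j)) → (((lowSet P q \ D s).card = (highSet P q \ D s).card ∧
        (lowSet P q \ D s').card = (highSet P q \ D s').card) ∨
        ((lowSet P q \ (D s)ᶜ).card = (highSet P q \ (D s)ᶜ).card ∧
        (lowSet P q \ (D s')ᶜ).card = (highSet P q \ (D s')ᶜ).card)) → s = s' := by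
    intro q hqT
    have hqlt := mem_T.mp hqT
    obtain ⟨i, hi⟩ := hq q hqT
    refine ⟨i, fun s s' heq' hbal => ?_⟩
    have l1 := hint (lowSet P q) s
    have l2 := hint (lowSet P q) s'
    have h1 := hint (highSet P q) s
    have h2 := hint (highSet P q) s'
    have l3 := hcomp (lowSet P q) s
    have l4 := hcomp (lowSet P q) s'
    have h3 := hcomp (highSet P q) s
    have h4 := hcomp (highSet P q) s'
    rw [Fin.sum_univ_succAbove _ i] at l1 l2 h1 h2
    simp only [heq'] at l1 h1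
    have hsi : s i = s' i := by
      apply Fin.ext
      rcases hi with hi | hi
      · have e1 : ∀ t, (lowSet P q ∩ Dj i t).card = 2 * (u + (t : ℕ)) := by
          intro t
          rw [inter_eq_right.mpr ((hsub i t).trans hi), hcd]
        have e2 : ∀ t, (highSet P q ∩ Dj i t).card = 0 := by
          intro t
          rw [card_eq_zero, ← disjoint_iff_inter_eq_empty]
          exact (disjoint_of_subset_left ((hsub i t).trans hi) (low_high_disjoint hqlt)).symm
        rw [e1] at l1 l2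
        rw [e2] at h1 h2
        omega
      · have e1 : ∀ t, (highSet P q ∩ Dj i t).card = 2 * (u + (t : ℕ)) := by
          intro t
          rw [inter_eq_right.mpr ((hsub i t).trans hi), hcd]
        have e2 : ∀ t, (lowSet P q ∩ Dj i t).card = 0 := by
          intro t
          rw [card_eq_zero, ← disjoint_iff_inter_eq_empty]
          exact disjoint_of_subset_right ((hsub i t).trans hi) (low_high_disjoint hqlt)
        rw [e2] at l1 l2
        rw [e1] at h1 h2
        omega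
    funext j
    exact (Fin.forall_iff_succAbove (P := fun j => s j = s' j) i).mpr ⟨hsi, heq'⟩ j
  have hcu3 : (univ : Finset (Fin 3 → Fin (u + 1))).card = (u + 1) ^ 3 := by simp
  -- for each pair, few choices are balanced
  have hcount : ∀ q ∈ T P, (univ.filter (fun s => (q.1 ∉ D s ∧ q.2 ∉ D s) ∧
      (lowSet P q \ D s).card = (highSet P q \ D s).card)).card ≤ (u + 1) ^ 3 := by
    intro q hqT
    obtain ⟨i, hi⟩ := hdet q hqT
    rw [← hcu3]
    apply card_le_card_of_injOn (fun s j => s (i.succAbove j)) (fun _ _ => mem_coe.mpr (mem_univ _))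
    intro s hs s' hs' heq
    rw [mem_coe, mem_filter] at hs hs'
    exact hi s s' (fun j => congrFun heq j) (Or.inl ⟨hs.2.2, hs'.2.2⟩)
  have hcount' : ∀ q ∈ T P, (univ.filter (fun s => (q.1 ∉ (D s)ᶜ ∧ q.2 ∉ (D s)ᶜ) ∧
      (lowSet P q \ (D s)ᶜ).card = (highSet P q \ (D s)ᶜ).card)).card ≤ (u + 1) ^ 3 := by
    intro q hqT
    obtain ⟨i, hi⟩ := hdet q hqT
    rw [← hcu3]
    apply card_le_card_of_injOn (fun s j => s (i.succAbove j)) (fun _ _ => mem_coe.mpr (mem_univ _))
    intro s hs s' hs' heq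
    rw [mem_coe, mem_filter] at hs hs'
    exact hi s s' (fun j => congrFun heq j) (Or.inr ⟨hs.2.2, hs'.2.2⟩)
  -- pairs far from the middle are never balanced
  have hfar : ∀ q ∈ T P, q ∉ EW P (Wn n (16 * u)) →
      (univ.filter (fun s => (q.1 ∉ D s ∧ q.2 ∉ D s) ∧
        (lowSet P q \ D s).card = (highSet P q \ D s).card)).card = 0 := by
    intro q hqT hqE
    rw [card_eq_zero, filter_eq_empty_iff]
    rintro s _ ⟨-, hbal⟩
    apply hqE
    unfold EW
    rw [mem_filter]
    refine ⟨hqT, ?_⟩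
    have h1 := low_high_card hP (mem_T.mp hqT)
    have h2 := card_sdiff_add_card_inter (lowSet P q) (D s)
    have h3 := card_sdiff_add_card_inter (highSet P q) (D s)
    have h4 := card_le_card (inter_subset_right (s₁ := lowSet P q) (s₂ := D s))
    have h5 := card_le_card (inter_subset_right (s₁ := highSet P q) (s₂ := D s))
    have h6 := hDle s
    rw [lev_eq]
    unfold Wn
    rw [mem_filter, mem_range]
    omega
  have hfar' : ∀ q ∈ T P, q ∉ U ×ˢ U →
      (univ.filter (fun s => (q.1 ∉ (D s)ᶜ ∧ q.2 ∉ (D s)ᶜ) ∧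
        (lowSet P q \ (D s)ᶜ).card = (highSet P q \ (D s)ᶜ).card)).card = 0 := by
    intro q hqT hqE
    rw [card_eq_zero, filter_eq_empty_iff]
    rintro s _ ⟨⟨h1, h2⟩, -⟩
    apply hqE
    rw [mem_compl, not_not] at h1 h2
    rw [mem_product]
    exact ⟨hDU s h1, hDU s h2⟩
  have htot : ∑ s, (BP P (D s)).card ≤ (EW P (Wn n (16 * u))).card * (u + 1) ^ 3 := by
    have e1 : ∀ s, (BP P (D s)).card =
        ∑ q ∈ T P, if ((q.1 ∉ D s ∧ q.2 ∉ D s) ∧
          (lowSet P q \ D s).card = (highSet P q \ D s).card) then 1 else 0 := by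
      intro s
      unfold BP
      rw [card_filter]
    simp only [e1]
    rw [sum_comm]
    have e2 : ∀ q ∈ T P, (∑ s, if ((q.1 ∉ D s ∧ q.2 ∉ D s) ∧
          (lowSet P q \ D s).card = (highSet P q \ D s).card) then 1 else 0)
        ≤ if q ∈ EW P (Wn n (16 * u)) then (u + 1) ^ 3 else 0 := by
      intro q hqT
      rw [← card_filter]
      split_ifs with h
      · exact hcount q hqT
      · exact (hfar q hqT h).le
    refine (sum_le_sum e2).trans ?_
    rw [← sum_filter, sum_const, smul_eq_mul]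
    apply Nat.mul_le_mul_right
    apply card_le_card
    intro q hq'
    exact (mem_filter.mp hq').2
  have htot' : ∑ s, (BP P (D s)ᶜ).card ≤ (16 * u) ^ 2 * (u + 1) ^ 3 := by
    have e1 : ∀ s, (BP P (D s)ᶜ).card =
        ∑ q ∈ T P, if ((q.1 ∉ (D s)ᶜ ∧ q.2 ∉ (D s)ᶜ) ∧
          (lowSet P q \ (D s)ᶜ).card = (highSet P q \ (D s)ᶜ).card) then 1 else 0 := by
      intro s
      unfold BP
      rw [card_filter]
    simp only [e1]
    rw [sum_comm]
    have e2 : ∀ q ∈ T P, (∑ s, if ((q.1 ∉ (D s)ᶜ ∧ q.2 ∉ (D s)ᶜ) ∧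
          (lowSet P q \ (D s)ᶜ).card = (highSet P q \ (D s)ᶜ).card) then 1 else 0)
        ≤ if q ∈ U ×ˢ U then (u + 1) ^ 3 else 0 := by
      intro q hqT
      rw [← card_filter]
      split_ifs with h
      · exact hcount' q hqT
      · exact (hfar' q hqT h).le
    refine (sum_le_sum e2).trans ?_
    rw [← sum_filter, sum_const, smul_eq_mul]
    apply Nat.mul_le_mul_right
    calc ((T P).filter (fun q => q ∈ U ×ˢ U)).card ≤ (U ×ˢ U).card := by
          apply card_le_card
          intro q hq'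
          exact (mem_filter.mp hq').2
      _ = (16 * u) ^ 2 := by rw [card_product, hUc]; ring
  -- choose a tuple good for both
  set a := (EW P (Wn n (16 * u))).card + 1 with ha
  set b := (16 * u) ^ 2 + 1 with hb
  have hcu : (univ : Finset (Fin 4 → Fin (u + 1))).card = (u + 1) ^ 4 := by simp
  have hex2 : ∃ s, ((BP P (D s)).card * b + (BP P (D s)ᶜ).card * a) * (u + 1) ≤ 2 * (a * b) := by
    by_contra hc
    push Not at hc
    have hc' : ∀ s, 2 * (a * b) + 1 ≤ ((BP P (D s)).card * b + (BP P (D s)ᶜ).card * a) * (u + 1) :=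
      fun s => hc s
    have h2 := sum_le_sum (s := (univ : Finset (Fin 4 → Fin (u + 1)))) (fun s _ => hc' s)
    rw [sum_const, ← sum_mul, smul_eq_mul, hcu, sum_add_distrib, ← sum_mul, ← sum_mul] at h2
    have h3 : (∑ s, (BP P (D s)).card) * b ≤ a * (u + 1) ^ 3 * b := by
      apply Nat.mul_le_mul_right
      refine htot.trans (Nat.mul_le_mul_right _ (by omega))
    have h4 : (∑ s, (BP P (D s)ᶜ).card) * a ≤ b * (u + 1) ^ 3 * a := by
      apply Nat.mul_le_mul_right
      refine htot'.trans (Nat.mul_le_mul_right _ (by omega))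
    have h5 : ((∑ s, (BP P (D s)).card) * b + (∑ s, (BP P (D s)ᶜ).card) * a) * (u + 1) ≤
        (u + 1) ^ 4 * (2 * (a * b)) := by
      calc _ ≤ (a * (u + 1) ^ 3 * b + b * (u + 1) ^ 3 * a) * (u + 1) :=
            Nat.mul_le_mul_right _ (by omega)
        _ = _ := by ring
    have h6 : 0 < (u + 1) ^ 4 := by positivity
    have h7 : (u + 1) ^ 4 * (2 * (a * b)) < (u + 1) ^ 4 * (2 * (a * b) + 1) := by
      apply Nat.mul_lt_mul_of_pos_left _ h6
      omega
    omega
  obtain ⟨s, hs⟩ := hex2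
  have ha0 : 0 < a := by omega
  have hb0 : 0 < b := by omega
  refine ⟨D s, hDge s, hDle s, hDev s, ?_, ?_⟩
  · have h1 : ((BP P (D s)).card * (u + 1)) * b ≤ (2 * a) * b := by
      calc ((BP P (D s)).card * (u + 1)) * b ≤
            ((BP P (D s)).card * b + (BP P (D s)ᶜ).card * a) * (u + 1) := by
            rw [add_mul]
            refine le_trans (le_of_eq ?_) (Nat.le_add_right _ _)
            ring
        _ ≤ 2 * (a * b) := hs
        _ = _ := by ring
    exact Nat.le_of_mul_le_mul_right h1 hb0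
  · have h1 : ((BP P (D s)ᶜ).card * (u + 1)) * a ≤ (2 * b) * a := by
      calc ((BP P (D s)ᶜ).card * (u + 1)) * a ≤
            ((BP P (D s)).card * b + (BP P (D s)ᶜ).card * a) * (u + 1) := by
            rw [add_mul]
            refine le_trans (le_of_eq ?_) (Nat.le_add_left _ _)
            ring
        _ ≤ 2 * (a * b) := hs
        _ = _ := by ring
    exact Nat.le_of_mul_le_mul_right h1 ha0

/-- **Careful deletions.** -/
theorem careful {P : Fin n → ℝ × ℝ} (hP : GP P) {u : ℕ} (hn : 16 * u + 7 ≤ n) :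
    ∃ D : Finset (Fin n), 8 * u ≤ D.card ∧ D.card ≤ 16 * u ∧ Even D.card ∧
      ((BP P D).card : ℝ) * ((u : ℝ) + 1) ^ (1 / 3 : ℝ) ≤ 240 * (n : ℝ) ^ (4 / 3 : ℝ) ∧
      (BP P Dᶜ).card ≤ 512 * u + 2 := by
  obtain ⟨D, h0, h1, h2, h3, h4⟩ := avg hP hn
  refine ⟨D, h0, h1, h2, ?_, ?_⟩
  swap
  · by_contra hc
    push Not at hc
    have := Nat.mul_le_mul_right (u + 1) (Nat.succ_le_of_lt hc)
    nlinarith
  have hw := window hP (Wn n (16 * u)) (K := n - 1) (by
    intro k hk
    unfold Wn at hk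
    rw [mem_filter, mem_range] at hk
    omega)
  have hn1 : (((n - 1 : ℕ) : ℝ) + 1) = n := by
    have : n - 1 + 1 = n := by omega
    exact_mod_cast this
  rw [hn1] at hw
  have hn0 : (1 : ℝ) ≤ n := by
    have : 1 ≤ n := by omega
    exact_mod_cast this
  have hu : (0 : ℝ) < (u : ℝ) + 1 := by positivity
  have hu1 : (1 : ℝ) ≤ (u : ℝ) + 1 := by
    have : (0 : ℝ) ≤ u := Nat.cast_nonneg u
    linarith
  have hcard : ((Wn n (16 * u)).card : ℝ) ≤ 16 * ((u : ℝ) + 1) := by
    have := Wn_card n (16 * u)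
    have h : ((Wn n (16 * u)).card : ℝ) ≤ ((16 * u + 1 : ℕ) : ℝ) := by exact_mod_cast this
    push_cast at h
    linarith
  have h16 : (16 : ℝ) ^ (2 / 3 : ℝ) ≤ 6.4 := by
    have : (16 : ℝ) ^ (2 / 3 : ℝ) = (256 : ℝ) ^ (1 / 3 : ℝ) := by
      rw [show (256 : ℝ) = 16 ^ (2 : ℝ) by norm_num, ← Real.rpow_mul (by norm_num)]
      norm_num
    rw [this, show (1 / 3 : ℝ) = (3 : ℝ)⁻¹ by norm_num, Real.rpow_inv_le_iff_of_pos (by norm_num)
      (by norm_num) (by norm_num)]
    norm_num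
  have h8 : (16 * ((u : ℝ) + 1)) ^ (2 / 3 : ℝ) ≤ 6.4 * ((u : ℝ) + 1) ^ (2 / 3 : ℝ) := by
    rw [Real.mul_rpow (by norm_num) hu.le]
    gcongr
  have hw2 : ((EW P (Wn n (16 * u))).card : ℝ) ≤
      18 * n * ((n : ℝ) ^ (1 / 3 : ℝ) * (6.4 * ((u : ℝ) + 1) ^ (2 / 3 : ℝ))) := by
    refine hw.trans ?_
    have : ((Wn n (16 * u)).card : ℝ) ^ (2 / 3 : ℝ) ≤ 6.4 * ((u : ℝ) + 1) ^ (2 / 3 : ℝ) :=
      le_trans (Real.rpow_le_rpow (Nat.cast_nonneg _) hcard (by norm_num)) h8
    gcongr
  have h3' : ((BP P D).card : ℝ) * ((u : ℝ) + 1) ≤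
      2 * (((EW P (Wn n (16 * u))).card : ℝ) + 1) := by
    exact_mod_cast h3
  have e1 : (n : ℝ) * (n : ℝ) ^ (1 / 3 : ℝ) = (n : ℝ) ^ (4 / 3 : ℝ) := by
    nth_rewrite 1 [← Real.rpow_one (n : ℝ)]
    rw [← Real.rpow_add (by linarith)]
    norm_num
  have e2 : ((u : ℝ) + 1) ^ (1 / 3 : ℝ) * ((u : ℝ) + 1) ^ (2 / 3 : ℝ) = (u : ℝ) + 1 := by
    rw [← Real.rpow_add hu]
    norm_num
  have hpos : (1 : ℝ) ≤ ((u : ℝ) + 1) ^ (2 / 3 : ℝ) := Real.one_le_rpow hu1 (by norm_num)
  have hpos2 : (1 : ℝ) ≤ (n : ℝ) ^ (4 / 3 : ℝ) := Real.one_le_rpow hn0 (by norm_num)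
  have h5 : ((BP P D).card : ℝ) * ((u : ℝ) + 1) ^ (1 / 3 : ℝ) * ((u : ℝ) + 1) ^ (2 / 3 : ℝ) ≤
      240 * (n : ℝ) ^ (4 / 3 : ℝ) * ((u : ℝ) + 1) ^ (2 / 3 : ℝ) := by
    rw [mul_assoc, e2]
    have h6 : ((EW P (Wn n (16 * u))).card : ℝ) ≤
        115.2 * ((n : ℝ) ^ (4 / 3 : ℝ) * ((u : ℝ) + 1) ^ (2 / 3 : ℝ)) := by
      rw [← e1]
      refine hw2.trans (le_of_eq ?_)
      ring
    have h7 : (1 : ℝ) ≤ (n : ℝ) ^ (4 / 3 : ℝ) * ((u : ℝ) + 1) ^ (2 / 3 : ℝ) :=
      one_le_mul_of_one_le_of_one_le hpos2 hpos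
    calc _ ≤ 2 * (((EW P (Wn n (16 * u))).card : ℝ) + 1) := h3'
      _ ≤ 2 * (115.2 * ((n : ℝ) ^ (4 / 3 : ℝ) * ((u : ℝ) + 1) ^ (2 / 3 : ℝ)) + 1) := by
          linarith
      _ ≤ 240 * ((n : ℝ) ^ (4 / 3 : ℝ) * ((u : ℝ) + 1) ^ (2 / 3 : ℝ)) := by linarith
      _ = _ := by ring
  exact le_of_mul_le_mul_right h5 (by linarith)

end Pool.Agent.Helper889_Halv
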