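import Pool.Agent.Helper889_Halv.QuadS
import Pool.Agent.Helper889_Halv.Comb

/-! Sixty-four cells; a nearly halving line has a cell on each side. -/

set_option autoImplicit false

namespace Pool.Agent.Helper889_Halv

open Finset Pool.Agent.Y344.KD Pool.Agent.H189R2.Iid

variable {n : ℕ}

theorem sum4 (f : Fin 4 → ℕ) (i0 : Fin 4) (a b : ℕ) (h0 : a ≤ f i0) (h : ∀ i, b ≤ f i) :
    a + 3 * b ≤ ∑ i, f i := by
  rw [Fin.sum_univ_succAbove _ i0]
  have h1 : ∑ _j : Fin 3, b ≤ ∑ j, f (i0.succAbove j) := sum_le_sum (fun j _ => h _)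
  rw [sum_const, card_univ, Fintype.card_fin, smul_eq_mul] at h1
  omega

theorem inter_sum {S H : Finset (Fin n)} {A : Fin 4 → Finset (Fin n)} (hA : ∀ i, A i ⊆ S)
    (hd : ∀ i j, i ≠ j → Disjoint (A i) (A j)) : ∑ i, (A i ∩ H).card ≤ (S ∩ H).card := by
  rw [← card_biUnion]
  · apply card_le_card
    intro x hx
    rw [mem_biUnion] at hx
    obtain ⟨i, -, hi⟩ := hx
    rw [mem_inter] at hi ⊢
    exact ⟨hA i hi.1, hi.2⟩
  · intro i _ j _ hij
    exact disjoint_of_subset_left inter_subset_left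
      (disjoint_of_subset_right inter_subset_left (hd i j hij))

/-- the index set of the cells -/
abbrev K3 := Fin 4 × Fin 4 × Fin 4

theorem cells {P : Fin n → ℝ × ℝ} (hP : GP P) {m t1 t2 t3 : ℕ} (hn : 5000 ≤ n)
    (hm : 16 * m ≤ n) (h1 : t1 = (n - 7) / 4) (h2 : t2 = (t1 - 7) / 4) (h3 : t3 = (t2 - 7) / 4) :
    ∃ C : K3 → Finset (Fin n), (∀ c d, c ≠ d → Disjoint (C c) (C d)) ∧
      (∀ c, (C c).card = t3) ∧
      ∀ q ∈ T P, lev P q ∈ Wn n m → ∃ a b, C a ⊆ lowSet P q ∧ C b ⊆ highSet P q := by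
  obtain ⟨A1, hU1, hd1, hc1, hq1⟩ := quadE hP (U := univ) (τ := t1) (by
    rw [card_univ, Fintype.card_fin]; omega)
  have hex2 : ∀ i, ∃ A : Fin 4 → Finset (Fin n), (∀ j, A j ⊆ A1 i) ∧
      (∀ j j', j ≠ j' → Disjoint (A j) (A j')) ∧ (∀ j, (A j).card = t2) ∧
      ∀ q ∈ T P, ∃ j, A j ⊆ lowSet P q ∨ A j ⊆ highSet P q := fun i =>
    quadE hP (U := A1 i) (τ := t2) (by rw [hc1]; omega)
  choose A2 hU2 hd2 hc2 hq2 using hex2
  have hex3 : ∀ i j, ∃ A : Fin 4 → Finset (Fin n), (∀ k, A k ⊆ A2 i j) ∧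
      (∀ k k', k ≠ k' → Disjoint (A k) (A k')) ∧ (∀ k, (A k).card = t3) ∧
      ∀ q ∈ T P, ∃ k, A k ⊆ lowSet P q ∨ A k ⊆ highSet P q := fun i j =>
    quadE hP (U := A2 i j) (τ := t3) (by rw [hc2]; omega)
  choose A3 hU3 hd3 hc3 hq3 using hex3
  refine ⟨fun c => A3 c.1 c.2.1 c.2.2, ?_, fun c => hc3 _ _ _, ?_⟩
  · rintro ⟨i, j, k⟩ ⟨i', j', k'⟩ hne
    simp only
    by_cases hi : i = i'
    · subst hi
      by_cases hj : j = j'
      · subst hj
        apply hd3
        rintro rfl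
        exact hne rfl
      · exact disjoint_of_subset_left (hU3 i j k)
          (disjoint_of_subset_right (hU3 i j' k') (hd2 i j j' hj))
    · exact disjoint_of_subset_left ((hU3 i j k).trans (hU2 i j))
        (disjoint_of_subset_right ((hU3 i' j' k').trans (hU2 i' j')) (hd1 i i' hi))
  · intro q hqT hlev
    have key : ∀ H H' : Finset (Fin n),
        (∀ A : Finset (Fin n), (A ⊆ lowSet P q ∨ A ⊆ highSet P q) → (A ⊆ H ∨ A ⊆ H')) →
        (∀ c : K3, ¬ A3 c.1 c.2.1 c.2.2 ⊆ H') → t1 + 3 * (t2 + 3 * t3) ≤ H.card := by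
      intro H H' hor hno
      have l3 : ∀ i j, t3 ≤ (A2 i j ∩ H).card := by
        intro i j
        obtain ⟨k, hk⟩ := hq3 i j q hqT
        rcases hor _ hk with h | h
        · rw [← hc3 i j k]
          exact card_le_card (subset_inter (hU3 i j k) h)
        · exact absurd h (hno (i, j, k))
      have l2 : ∀ i, t2 + 3 * t3 ≤ (A1 i ∩ H).card := by
        intro i
        obtain ⟨j, hj⟩ := hq2 i q hqT
        rcases hor _ hj with h | h
        · refine le_trans ?_ (inter_sum (hU2 i) (hd2 i))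
          apply sum4 _ j
          · rw [inter_eq_left.mpr h, hc2]
          · exact l3 i
        · exact absurd ((hU3 i j 0).trans h) (hno (i, j, 0))
      obtain ⟨i, hi⟩ := hq1 q hqT
      rcases hor _ hi with h | h
      · have h5 : (univ ∩ H).card = H.card := by rw [univ_inter]
        rw [← h5]
        refine le_trans ?_ (inter_sum hU1 hd1)
        apply sum4 _ i
        · rw [inter_eq_left.mpr h, hc1]
        · exact l2
      · exact absurd (((hU3 i 0 0).trans (hU2 i 0)).trans h) (hno (i, 0, 0))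
    have hlh := low_high_card hP (mem_T.mp hqT)
    unfold Wn at hlev
    rw [mem_filter, mem_range, lev_eq] at hlev
    have ha : ∃ a : K3, A3 a.1 a.2.1 a.2.2 ⊆ lowSet P q := by
      by_contra hc
      push Not at hc
      have := key (highSet P q) (lowSet P q) (fun A h => h.symm) hc
      omega
    have hb : ∃ b : K3, A3 b.1 b.2.1 b.2.2 ⊆ highSet P q := by
      by_contra hc
      push Not at hc
      have := key (lowSet P q) (highSet P q) (fun A h => h) hc
      omega
    obtain ⟨a, ha⟩ := ha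
    obtain ⟨b, hb⟩ := hb
    exact ⟨a, b, ha, hb⟩

end Pool.Agent.Helper889_Halv
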