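import Pool.Agent.Helper889_Halv.Cells

/-! Sixty-four cells; weighted version. -/

set_option autoImplicit false

namespace Pool.Agent.Helper889_Halv

open Finset Pool.Agent.Y344.KD Pool.Agent.H189R2.Iid

variable {n : ℕ}

theorem sum4' (f : Fin 4 → ℕ) (b : ℕ) (h : ∀ i, b ≤ f i) : 4 * b ≤ ∑ i, f i := by
  have := sum4 f 0 b b (h 0) h
  omega

theorem cells2 {P : Fin n → ℝ × ℝ} (hP : GP P) {t1 t2 t3 : ℕ} (hn : 5000 ≤ n)
    (h1 : t1 = (n - 7) / 4) (h2 : t2 = (t1 - 7) / 4) (h3 : t3 = (t2 - 7) / 4) :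
    ∃ C : K3 → Finset (Fin n), (∀ c d, c ≠ d → Disjoint (C c) (C d)) ∧
      (∀ c, (C c).card = t3) ∧
      ∀ q ∈ T P, ∀ (W : Finset (Fin n)) (α : ℕ), (∀ c, α ≤ (C c ∩ W).card) →
        ((∃ c, C c ⊆ lowSet P q) ∨ 37 * α ≤ (highSet P q ∩ W).card) ∧
        ((∃ c, C c ⊆ highSet P q) ∨ 37 * α ≤ (lowSet P q ∩ W).card) := by
  obtain ⟨A1, hU1, hd1, hc1, hq1⟩ := quadE hP (U := univ) (τ := t1) (by
    rw [card_univ, Fintype.card_fin]; omega)
  have hex2 : ∀ i, ∃ A : Fin 4 → Finset (Fin n), (∀ j, A j ⊆ A1 i) ∧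
      (∀ j j', j ≠ j' → Disjoint (A j) (A j')) ∧ (∀ j, (A j).card = t2) ∧
      ∀ q ∈ T P, ∃ j, A j ⊆ lowSet P q ∨ A j ⊆ highSet P q := fun i =>
    quadE hP (U := A1 i) (τ := t2) (by rw [hc1]; omega)
  choose A2 hU2 hd2 hc2 hq2 using hex2
  have hex3 : ∀ i j, ∃ A : Fin 4 → Finset (Fin n), (∀ k, A k ⊆ A2 i j) ∧
      (∀ k k', k ≠ k' → Disjoint (A k) (A k')) ∧ (∀ k, (A k).card = t3) ∧
      ∀ q ∈ T P, ∃ k, A k ⊆ lowSet P q ∨ A k ⊆ highSet P q := fun i j =>
    quadE hP (U := A2 i j) (τ := t3) (by rw [hc2]; omega)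
  choose A3 hU3 hd3 hc3 hq3 using hex3
  refine ⟨fun c => A3 c.1 c.2.1 c.2.2, ?_, fun c => hc3 _ _ _, ?_⟩
  · rintro ⟨i, j, k⟩ ⟨i', j', k'⟩ hne
    simp only
    by_cases hi : i = i'
    · subst hi
      by_cases hj : j = j'
      · subst hj
        apply hd3
        rintro rfl
        exact hne rfl
      · exact disjoint_of_subset_left (hU3 i j k)
          (disjoint_of_subset_right (hU3 i j' k') (hd2 i j j' hj))
    · exact disjoint_of_subset_left ((hU3 i j k).trans (hU2 i j))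
        (disjoint_of_subset_right ((hU3 i' j' k').trans (hU2 i' j')) (hd1 i i' hi))
  · intro q hqT W α hα
    have key : ∀ H H' : Finset (Fin n),
        (∀ A : Finset (Fin n), (A ⊆ lowSet P q ∨ A ⊆ highSet P q) → (A ⊆ H ∨ A ⊆ H')) →
        (∀ c : K3, ¬ A3 c.1 c.2.1 c.2.2 ⊆ H') → 37 * α ≤ (H ∩ W).card := by
      intro H H' hor hno
      have hin : ∀ A : Finset (Fin n), A ⊆ H → A ∩ W ⊆ H ∩ W := fun A hA =>
        inter_subset_inter_right hA
      have hin2 : ∀ A : Finset (Fin n), A ⊆ H → A ∩ (H ∩ W) = A ∩ W := by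
        intro A hA
        rw [← inter_assoc, inter_eq_left.mpr hA]
      have l3 : ∀ i j, α ≤ (A2 i j ∩ (H ∩ W)).card := by
        intro i j
        obtain ⟨k, hk⟩ := hq3 i j q hqT
        rcases hor _ hk with h | h
        · refine (hα (i, j, k)).trans (card_le_card ?_)
          simp only
          rw [← hin2 _ h]
          exact inter_subset_inter_right (hU3 i j k)
        · exact absurd h (hno (i, j, k))
      have l3' : ∀ i j, A2 i j ⊆ H → 4 * α ≤ (A2 i j ∩ (H ∩ W)).card := by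
        intro i j h
        refine le_trans ?_ (inter_sum (hU3 i j) (hd3 i j))
        apply sum4'
        intro k
        rw [hin2 _ ((hU3 i j k).trans h)]
        exact hα (i, j, k)
      have l2 : ∀ i, 7 * α ≤ (A1 i ∩ (H ∩ W)).card := by
        intro i
        obtain ⟨j, hj⟩ := hq2 i q hqT
        rcases hor _ hj with h | h
        · have e := sum4 (fun j => (A2 i j ∩ (H ∩ W)).card) j (4 * α) α (l3' i j h) (l3 i)
          have e2 := inter_sum (H := H ∩ W) (hU2 i) (hd2 i)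
          omega
        · exact absurd ((hU3 i j 0).trans h) (hno (i, j, 0))
      obtain ⟨i, hi⟩ := hq1 q hqT
      rcases hor _ hi with h | h
      · have h5 : (univ ∩ (H ∩ W)).card = (H ∩ W).card := by rw [univ_inter]
        have l1 : 16 * α ≤ (A1 i ∩ (H ∩ W)).card := by
          have e := sum4' (fun j => (A2 i j ∩ (H ∩ W)).card) (4 * α)
            (fun j => l3' i j ((hU2 i j).trans h))
          have e2 := inter_sum (H := H ∩ W) (hU2 i) (hd2 i)
          omega
        have e := sum4 (fun i => (A1 i ∩ (H ∩ W)).card) i (16 * α) (7 * α) l1 l2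
        have e2 := inter_sum (H := H ∩ W) hU1 hd1
        omega
      · exact absurd (((hU3 i 0 0).trans (hU2 i 0)).trans h) (hno (i, 0, 0))
    constructor
    · by_cases hc : ∃ a : K3, A3 a.1 a.2.1 a.2.2 ⊆ lowSet P q
      · exact Or.inl hc
      · push Not at hc
        exact Or.inr (key (highSet P q) (lowSet P q) (fun A h => h.symm) hc)
    · by_cases hc : ∃ a : K3, A3 a.1 a.2.1 a.2.2 ⊆ highSet P q
      · exact Or.inl hc
      · push Not at hc
        exact Or.inr (key (lowSet P q) (highSet P q) (fun A h => h) hc)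

end Pool.Agent.Helper889_Halv
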