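import Pool.Agent.Helper889_Halv.Cells

/-! Deleting an exact number of points. -/

set_option autoImplicit false

namespace Pool.Agent.Helper889_Halv

open Finset Pool.Agent.Y344.KD Pool.Agent.H189R2.Iid

variable {n : ℕ}

theorem count_det {Y : Type} [Fintype Y] [DecidableEq Y] {σ : ℕ} {p : (Y → Fin (σ + 1)) → Prop}
    [DecidablePred p] (y : Y)
    (h : ∀ s s' : Y → Fin (σ + 1), (∀ z, z ≠ y → s z = s' z) → p s → p s' → s = s') :
    (univ.filter p).card * (σ + 1) ≤ (univ : Finset (Y → Fin (σ + 1))).card := by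
  have hc1 : (univ : Finset (Fin (σ + 1))).card = σ + 1 := by simp
  have h2 : ((univ.filter p) ×ˢ (univ : Finset (Fin (σ + 1)))).card ≤
      (univ : Finset (Y → Fin (σ + 1))).card := by
    apply card_le_card_of_injOn (fun z => Function.update z.1 y z.2)
    · intro z _
      exact mem_coe.mpr (mem_univ _)
    · rintro ⟨s, v⟩ hs ⟨s', v'⟩ hs' heq
      rw [mem_coe, mem_product, mem_filter] at hs hs'
      simp only at heq
      have hv : v = v' := by
        have := congrFun heq y
        rwa [Function.update_self, Function.update_self] at this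
      have hoff : ∀ z, z ≠ y → s z = s' z := by
        intro z hz
        have := congrFun heq z
        rwa [Function.update_of_ne hz, Function.update_of_ne hz] at this
      rw [h s s' hoff hs.1.2 hs'.1.2, hv]
  rw [card_product, hc1] at h2
  exact h2

open Classical in
theorem exact_avg {P : Fin n → ℝ × ℝ} (hP : GP P) {m : ℕ} (hn : 5000 ≤ n) (hm : 16 * m ≤ n) :
    ∃ D : Finset (Fin n), D.card = m ∧
      (BP P D).card * (m / 4096 + 1) ≤ (EW P (Wn n m)).card := by
  obtain ⟨τ, hτ⟩ : ∃ τ, τ = (((n - 7) / 4 - 7) / 4 - 7) / 4 := ⟨_, rfl⟩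
  obtain ⟨C, hdis, hcard, hq⟩ := cells hP hn hm rfl rfl hτ
  obtain ⟨σ, hσ⟩ : ∃ σ, σ = m / 4096 := ⟨_, rfl⟩
  rw [← hσ]
  have hex : ∀ (c : K3) (t : ℕ), ∃ S : Finset (Fin n), S ⊆ C c ∧ S.card = min t τ := by
    intro c t
    exact exists_subset_card_eq (by rw [hcard]; exact min_le_right _ _)
  choose Dc hsub hcd using hex
  have hK : (univ : Finset K3).card = 64 := by
    simp [K3]
  obtain ⟨b, hb⟩ : ∃ b : K3 → ℕ, b = fun c => m / 64 + if c = (0, 0, 0) then m % 64 else 0 :=
    ⟨_, rfl⟩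
  have hbs : ∑ c, b c = m := by
    rw [hb]
    simp only
    rw [sum_add_distrib, sum_const, hK, smul_eq_mul, sum_ite_eq' univ, if_pos (mem_univ _)]
    omega
  have hble : ∀ c, m / 64 ≤ b c ∧ b c ≤ m / 64 + 63 := by
    intro c
    rw [hb]
    simp only
    split_ifs <;> omega
  have hsσ : ∀ (f : K3 → Fin (σ + 1)), ∑ d, (f d : ℕ) ≤ 64 * σ := by
    intro f
    calc ∑ d, (f d : ℕ) ≤ ∑ _d : K3, σ := sum_le_sum (fun d _ => by have := (f d).2; omega)
      _ = 64 * σ := by rw [sum_const, hK, smul_eq_mul]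
  obtain ⟨t, ht0⟩ : ∃ t : (K3 × K3 → Fin (σ + 1)) → K3 → ℕ,
      t = fun s c => b c + ∑ d, (s (c, d) : ℕ) - ∑ d, (s (d, c) : ℕ) := ⟨_, rfl⟩
  have ht : ∀ s c, t s c + ∑ d, (s (d, c) : ℕ) = b c + ∑ d, (s (c, d) : ℕ) := by
    intro s c
    rw [ht0]
    simp only
    have h1 := hsσ (fun d => s (d, c))
    have h2 := (hble c).1
    omega
  have htle : ∀ s c, t s c ≤ τ := by
    intro s c
    have h1 := ht s c
    have h2 := hsσ (fun d => s (c, d))
    have h3 := (hble c).2
    omega
  have hts : ∀ s, ∑ c, t s c = m := by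
    intro s
    have h1 : ∑ c, (t s c + ∑ d, (s (d, c) : ℕ)) = ∑ c, (b c + ∑ d, (s (c, d) : ℕ)) :=
      sum_congr rfl (fun c _ => ht s c)
    rw [sum_add_distrib, sum_add_distrib, hbs, sum_comm] at h1
    omega
  obtain ⟨D, hD⟩ : ∃ D : (K3 × K3 → Fin (σ + 1)) → Finset (Fin n),
      D = fun s => univ.biUnion (fun c => Dc c (t s c)) := ⟨_, rfl⟩
  have hdj : ∀ s : K3 × K3 → Fin (σ + 1), ∀ i j, i ≠ j →
      Disjoint (Dc i (t s i)) (Dc j (t s j)) :=
    fun s i j hij => disjoint_of_subset_left (hsub i _)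
      (disjoint_of_subset_right (hsub j _) (hdis i j hij))
  have hcd' : ∀ s c, (Dc c (t s c)).card = t s c := by
    intro s c
    rw [hcd, min_eq_left (htle s c)]
  have hDc : ∀ s, (D s).card = m := by
    intro s
    rw [hD]
    simp only
    rw [card_biUnion (fun i _ j _ hij => hdj s i j hij), sum_congr rfl (fun c _ => hcd' s c), hts]
  have hint : ∀ (S : Finset (Fin n)) s,
      (S \ D s).card + ∑ c, (S ∩ Dc c (t s c)).card = S.card := by
    intro S s
    have h1 : (S ∩ D s).card = ∑ c, (S ∩ Dc c (t s c)).card := by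
      rw [hD]
      simp only
      rw [inter_biUnion, card_biUnion]
      intro i _ j _ hij
      exact disjoint_of_subset_left inter_subset_right
        (disjoint_of_subset_right inter_subset_right (hdj s i j hij))
    rw [← h1]
    exact card_sdiff_add_card_inter S (D s)
  -- for each nearly halving pair, one parameter is determined by the others
  have hdet : ∀ q ∈ T P, lev P q ∈ Wn n m → ∃ y : K3 × K3, ∀ s s' : K3 × K3 → Fin (σ + 1),
      (∀ z, z ≠ y → s z = s' z) → (lowSet P q \ D s).card = (highSet P q \ D s).card →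
        (lowSet P q \ D s').card = (highSet P q \ D s').card → s = s' := by
    intro q hqT hlev
    have hqlt := mem_T.mp hqT
    obtain ⟨a, c, ha, hc⟩ := hq q hqT hlev
    have hac : a ≠ c := by
      rintro rfl
      have h1 : (C a).Nonempty := by
        rw [← card_pos, hcard]
        omega
      obtain ⟨x, hx⟩ := h1
      exact disjoint_left.mp (low_high_disjoint hqlt) (ha hx) (hc hx)
    refine ⟨(a, c), fun s s' heq hbal hbal' => ?_⟩
    have hne1 : ∀ d, ((d, a) : K3 × K3) ≠ (a, c) := by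
      intro d h
      exact hac (Prod.mk.inj h).2
    have hne2 : ∀ d, ((c, d) : K3 × K3) ≠ (a, c) := by
      intro d h
      exact hac (Prod.mk.inj h).1.symm
    -- sums through `a`
    have A0 : ∑ d, (s (d, a) : ℕ) = ∑ d, (s' (d, a) : ℕ) :=
      sum_congr rfl (fun d _ => by rw [heq _ (hne1 d)])
    have B1 : ∑ d, (s (c, d) : ℕ) = ∑ d, (s' (c, d) : ℕ) :=
      sum_congr rfl (fun d _ => by rw [heq _ (hne2 d)])
    have A1 := add_sum_erase univ (fun d => (s (a, d) : ℕ)) (mem_univ c)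
    have A1' := add_sum_erase univ (fun d => (s' (a, d) : ℕ)) (mem_univ c)
    have A2 : ∑ d ∈ univ.erase c, (s (a, d) : ℕ) = ∑ d ∈ univ.erase c, (s' (a, d) : ℕ) := by
      apply sum_congr rfl
      intro d hd
      rw [heq _ (fun h => (mem_erase.mp hd).1 (Prod.mk.inj h).2)]
    have B0 := add_sum_erase univ (fun d => (s (d, c) : ℕ)) (mem_univ a)
    have B0' := add_sum_erase univ (fun d => (s' (d, c) : ℕ)) (mem_univ a)
    have B2 : ∑ d ∈ univ.erase a, (s (d, c) : ℕ) = ∑ d ∈ univ.erase a, (s' (d, c) : ℕ) := by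
      apply sum_congr rfl
      intro d hd
      rw [heq _ (fun h => (mem_erase.mp hd).1 (Prod.mk.inj h).1)]
    have ta := ht s a
    have ta' := ht s' a
    have tc := ht s c
    have tc' := ht s' c
    -- the other cells
    have hoth : ∀ e, e ≠ a → e ≠ c → t s e = t s' e := by
      intro e hea hec
      have e1 := ht s e
      have e2 := ht s' e
      have e3 : ∑ d, (s (d, e) : ℕ) = ∑ d, (s' (d, e) : ℕ) :=
        sum_congr rfl (fun d _ => by rw [heq _ (fun h => hec (Prod.mk.inj h).2)])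
      have e4 : ∑ d, (s (e, d) : ℕ) = ∑ d, (s' (e, d) : ℕ) :=
        sum_congr rfl (fun d _ => by rw [heq _ (fun h => hea (Prod.mk.inj h).1)])
      omega
    have z1 : ∀ s, (lowSet P q ∩ Dc a (t s a)).card = t s a := by
      intro s
      rw [inter_eq_right.mpr ((hsub a _).trans ha), hcd']
    have z2 : ∀ s, (highSet P q ∩ Dc c (t s c)).card = t s c := by
      intro s
      rw [inter_eq_right.mpr ((hsub c _).trans hc), hcd']
    have z3 : ∀ s, (lowSet P q ∩ Dc c (t s c)).card = 0 := by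
      intro s
      rw [card_eq_zero, ← disjoint_iff_inter_eq_empty]
      exact disjoint_of_subset_right ((hsub c _).trans hc) (low_high_disjoint hqlt)
    have z4 : ∀ s, (highSet P q ∩ Dc a (t s a)).card = 0 := by
      intro s
      rw [card_eq_zero, ← disjoint_iff_inter_eq_empty]
      exact (disjoint_of_subset_left ((hsub a _).trans ha) (low_high_disjoint hqlt)).symm
    have L1 := hint (lowSet P q) s
    have L2 := hint (lowSet P q) s'
    have H1 := hint (highSet P q) s
    have H2 := hint (highSet P q) s'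
    rw [← add_sum_erase univ (fun e => (lowSet P q ∩ Dc e (t s e)).card) (mem_univ a), z1] at L1
    rw [← add_sum_erase univ (fun e => (lowSet P q ∩ Dc e (t s' e)).card) (mem_univ a), z1] at L2
    rw [← add_sum_erase univ (fun e => (highSet P q ∩ Dc e (t s e)).card) (mem_univ c), z2] at H1
    rw [← add_sum_erase univ (fun e => (highSet P q ∩ Dc e (t s' e)).card) (mem_univ c), z2] at H2
    have X : ∑ e ∈ univ.erase a, (lowSet P q ∩ Dc e (t s e)).card =
        ∑ e ∈ univ.erase a, (lowSet P q ∩ Dc e (t s' e)).card := by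
      apply sum_congr rfl
      intro e he
      by_cases hec : e = c
      · subst hec
        rw [z3, z3]
      · rw [hoth e (mem_erase.mp he).1 hec]
    have Y : ∑ e ∈ univ.erase c, (highSet P q ∩ Dc e (t s e)).card =
        ∑ e ∈ univ.erase c, (highSet P q ∩ Dc e (t s' e)).card := by
      apply sum_congr rfl
      intro e he
      by_cases hea : e = a
      · subst hea
        rw [z4, z4]
      · rw [hoth e hea (mem_erase.mp he).1]
    have hy : (s (a, c) : ℕ) = s' (a, c) := by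
      omega
    funext z
    by_cases hz : z = (a, c)
    · rw [hz]
      exact Fin.ext hy
    · exact heq z hz
  -- the number of balanced parameters
  obtain ⟨N, hN⟩ : ∃ N, N = (univ : Finset (K3 × K3 → Fin (σ + 1))).card := ⟨_, rfl⟩
  have hNpos : 0 < N := by
    rw [hN, card_pos]
    exact univ_nonempty
  have hcount : ∀ q ∈ T P, lev P q ∈ Wn n m →
      (univ.filter (fun s => (q.1 ∉ D s ∧ q.2 ∉ D s) ∧
      (lowSet P q \ D s).card = (highSet P q \ D s).card)).card * (σ + 1) ≤ N := by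
    intro q hqT hlev
    obtain ⟨y, hy⟩ := hdet q hqT hlev
    rw [hN]
    exact count_det (p := fun s => (q.1 ∉ D s ∧ q.2 ∉ D s) ∧
        (lowSet P q \ D s).card = (highSet P q \ D s).card) y
      (fun s s' hoff h h' => hy s s' hoff h.2 h'.2)
  have hfar : ∀ q ∈ T P, q ∉ EW P (Wn n m) →
      (univ.filter (fun s => (q.1 ∉ D s ∧ q.2 ∉ D s) ∧
        (lowSet P q \ D s).card = (highSet P q \ D s).card)).card = 0 := by
    intro q hqT hqE
    rw [card_eq_zero, filter_eq_empty_iff]
    rintro s _ ⟨-, hbal⟩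
    apply hqE
    unfold EW
    rw [mem_filter]
    refine ⟨hqT, ?_⟩
    have h1 := low_high_card hP (mem_T.mp hqT)
    have h2 := card_sdiff_add_card_inter (lowSet P q) (D s)
    have h3 := card_sdiff_add_card_inter (highSet P q) (D s)
    have h4 := card_le_card (inter_subset_right (s₁ := lowSet P q) (s₂ := D s))
    have h5 := card_le_card (inter_subset_right (s₁ := highSet P q) (s₂ := D s))
    have h6 := hDc s
    rw [lev_eq]
    unfold Wn
    rw [mem_filter, mem_range]
    omega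
  have htot : (∑ s, (BP P (D s)).card) * (σ + 1) ≤ (EW P (Wn n m)).card * N := by
    have e1 : ∀ s, (BP P (D s)).card =
        ∑ q ∈ T P, if ((q.1 ∉ D s ∧ q.2 ∉ D s) ∧
          (lowSet P q \ D s).card = (highSet P q \ D s).card) then 1 else 0 := by
      intro s
      unfold BP
      rw [card_filter]
    simp only [e1]
    rw [sum_comm, sum_mul]
    have e2 : ∀ q ∈ T P, (∑ s, if ((q.1 ∉ D s ∧ q.2 ∉ D s) ∧
          (lowSet P q \ D s).card = (highSet P q \ D s).card) then 1 else 0) * (σ + 1)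
        ≤ if q ∈ EW P (Wn n m) then N else 0 := by
      intro q hqT
      rw [← card_filter]
      split_ifs with h
      · unfold EW at h
        exact hcount q hqT (mem_filter.mp h).2
      · rw [hfar q hqT h, zero_mul]
    refine (sum_le_sum e2).trans ?_
    rw [← sum_filter, sum_const, smul_eq_mul]
    apply Nat.mul_le_mul_right
    apply card_le_card
    intro q hq'
    exact (mem_filter.mp hq').2
  have hex2 : ∃ s, (BP P (D s)).card * (σ + 1) ≤ (EW P (Wn n m)).card := by
    by_contra hc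
    push Not at hc
    have hc' : ∀ s, (EW P (Wn n m)).card + 1 ≤ (BP P (D s)).card * (σ + 1) := fun s => hc s
    have h2 := sum_le_sum (s := (univ : Finset (K3 × K3 → Fin (σ + 1)))) (fun s _ => hc' s)
    rw [sum_const, ← sum_mul, smul_eq_mul, ← hN] at h2
    have h3 := h2.trans htot
    nlinarith
  obtain ⟨s, hs⟩ := hex2
  exact ⟨D s, hDc s, hs⟩

/-- **Exact deletions.** -/
theorem exact_careful {P : Fin n → ℝ × ℝ} (hP : GP P) {m : ℕ} (hn : 5000 ≤ n)
    (hm : 16 * m ≤ n) :
    ∃ D : Finset (Fin n), D.card = m ∧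
      ((BP P D).card : ℝ) * ((m : ℝ) + 1) ^ (1 / 3 : ℝ) ≤ 73728 * (n : ℝ) ^ (4 / 3 : ℝ) := by
  obtain ⟨D, h1, h3⟩ := exact_avg hP hn hm
  refine ⟨D, h1, ?_⟩
  have hw := window hP (Wn n m) (K := n - 1) (by
    intro k hk
    unfold Wn at hk
    rw [mem_filter, mem_range] at hk
    omega)
  have hn1 : (((n - 1 : ℕ) : ℝ) + 1) = n := by
    have : n - 1 + 1 = n := by omega
    exact_mod_cast this
  rw [hn1] at hw
  have hn0 : (1 : ℝ) ≤ n := by
    have : 1 ≤ n := by omega
    exact_mod_cast this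
  have hu : (0 : ℝ) < (m : ℝ) + 1 := by positivity
  have hcard : ((Wn n m).card : ℝ) ≤ (m : ℝ) + 1 := by
    exact_mod_cast Wn_card n m
  have hw2 : ((EW P (Wn n m)).card : ℝ) ≤
      18 * n * ((n : ℝ) ^ (1 / 3 : ℝ) * ((m : ℝ) + 1) ^ (2 / 3 : ℝ)) := by
    refine hw.trans ?_
    have : ((Wn n m).card : ℝ) ^ (2 / 3 : ℝ) ≤ ((m : ℝ) + 1) ^ (2 / 3 : ℝ) :=
      Real.rpow_le_rpow (Nat.cast_nonneg _) hcard (by norm_num)
    gcongr
  have h3' : ((BP P D).card : ℝ) * (((m / 4096 : ℕ) : ℝ) + 1) ≤ ((EW P (Wn n m)).card : ℝ) := by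
    exact_mod_cast h3
  have hq : (m : ℝ) + 1 ≤ 4096 * (((m / 4096 : ℕ) : ℝ) + 1) := by
    have : m + 1 ≤ 4096 * (m / 4096 + 1) := by omega
    exact_mod_cast this
  have e1 : (n : ℝ) * (n : ℝ) ^ (1 / 3 : ℝ) = (n : ℝ) ^ (4 / 3 : ℝ) := by
    nth_rewrite 1 [← Real.rpow_one (n : ℝ)]
    rw [← Real.rpow_add (by linarith)]
    norm_num
  have e2 : ((m : ℝ) + 1) ^ (1 / 3 : ℝ) * ((m : ℝ) + 1) ^ (2 / 3 : ℝ) = (m : ℝ) + 1 := by
    rw [← Real.rpow_add hu]
    norm_num
  have hpos : (0 : ℝ) < ((m : ℝ) + 1) ^ (2 / 3 : ℝ) := Real.rpow_pos_of_pos hu _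
  have h5 : ((BP P D).card : ℝ) * ((m : ℝ) + 1) ^ (1 / 3 : ℝ) * ((m : ℝ) + 1) ^ (2 / 3 : ℝ) ≤
      73728 * (n : ℝ) ^ (4 / 3 : ℝ) * ((m : ℝ) + 1) ^ (2 / 3 : ℝ) := by
    rw [mul_assoc, e2, ← e1]
    calc ((BP P D).card : ℝ) * ((m : ℝ) + 1) ≤
          ((BP P D).card : ℝ) * (4096 * (((m / 4096 : ℕ) : ℝ) + 1)) := by gcongr
      _ = 4096 * (((BP P D).card : ℝ) * (((m / 4096 : ℕ) : ℝ) + 1)) := by ring
      _ ≤ 4096 * (18 * n * ((n : ℝ) ^ (1 / 3 : ℝ) * ((m : ℝ) + 1) ^ (2 / 3 : ℝ))) := by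
          have := h3'.trans hw2
          linarith
      _ = _ := by ring
  exact le_of_mul_le_mul_right h5 hpos

end Pool.Agent.Helper889_Halv
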