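import Pool.Agent.Y344.KD.Lines
import Pool.Agent.KLev.Halving

/-! Halving lines of the subsets of a planar point set, through an enumeration of the set. -/

set_option autoImplicit false

namespace Pool.Agent.Helper889_Halv

open Finset Filter Topology Pool.Agent.Y344.KD Pool.Agent.H189R2.Iid KLev.Halving

/-- the orientation determinant of three points -/
def ori (p q r : ℝ × ℝ) : ℝ := (q.2 - p.2) * (r.1 - p.1) + (p.1 - q.1) * (r.2 - p.2)

theorem ori_left (p q : ℝ × ℝ) : ori p q p = 0 := by unfold ori; ring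

theorem ori_right (p q : ℝ × ℝ) : ori p q q = 0 := by unfold ori; ring

theorem ori_eq {p q : ℝ × ℝ} (r : ℝ × ℝ) (h : q.1 < p.1) :
    ori p q r = (p.1 - q.1) * ((r.1 * X2 p q + r.2) - Y2 p q) := by
  have hp : p.1 - q.1 ≠ 0 := by linarith
  unfold ori Y2 X2
  field_simp
  ring

theorem low_iff {p q r : ℝ × ℝ} (h : q.1 < p.1) : r ∈ low p q ↔ ori p q r < 0 := by
  have hp : 0 < p.1 - q.1 := by linarith
  rw [ori_eq r h]
  unfold low
  simp only [Set.mem_ofPred_eq]
  constructor
  · intro h'
    exact mul_neg_of_pos_of_neg hp (by linarith)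
  · intro h'
    by_contra hc
    push Not at hc
    have : 0 ≤ (p.1 - q.1) * ((r.1 * X2 p q + r.2) - Y2 p q) := mul_nonneg hp.le (by linarith)
    linarith

open Classical in
/-- the points above the line of the pair `q` -/
noncomputable def highSet {n : ℕ} (P : Fin n → ℝ × ℝ) (q : Fin n × Fin n) : Finset (Fin n) :=
  univ.filter (fun l => 0 < ori (P q.1) (P q.2) (P l))

theorem mem_high {n : ℕ} {P : Fin n → ℝ × ℝ} {q : Fin n × Fin n} {l : Fin n} :
    l ∈ highSet P q ↔ 0 < ori (P q.1) (P q.2) (P l) := by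
  unfold highSet; simp

theorem mem_low {n : ℕ} {P : Fin n → ℝ × ℝ} {q : Fin n × Fin n} (hq : (P q.2).1 < (P q.1).1)
    {l : Fin n} : l ∈ lowSet P q ↔ ori (P q.1) (P q.2) (P l) < 0 := by
  classical
  unfold lowSet
  rw [mem_filter, low_iff hq]
  simp

theorem low_high_disjoint {n : ℕ} {P : Fin n → ℝ × ℝ} {q : Fin n × Fin n}
    (hq : (P q.2).1 < (P q.1).1) : Disjoint (lowSet P q) (highSet P q) := by
  rw [disjoint_left]
  intro l h1 h2
  rw [mem_low hq] at h1
  rw [mem_high] at h2
  linarith

theorem low_high_card {n : ℕ} {P : Fin n → ℝ × ℝ} (hP : GP P) {q : Fin n × Fin n}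
    (hq : (P q.2).1 < (P q.1).1) : (lowSet P q).card + (highSet P q).card + 2 = n := by
  classical
  have h1 : lowSet P q ∪ highSet P q = univ \ {q.1, q.2} := by
    ext l
    simp only [mem_union, mem_low hq, mem_high, Finset.mem_sdiff, mem_univ, true_and, mem_insert,
      mem_singleton]
    constructor
    · rintro h (rfl | rfl)
      · rw [ori_left] at h; simp at h
      · rw [ori_right] at h; simp at h
    · intro h
      have hne : ori (P q.1) (P q.2) (P l) ≠ 0 := by
        intro h0
        rw [ori_eq _ hq] at h0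
        have hp : (P q.1).1 - (P q.2).1 ≠ 0 := by linarith
        have h2 := (mul_eq_zero.mp h0).resolve_left hp
        apply h
        apply E_line hP hq
        unfold E
        linarith
      exact lt_or_gt_of_ne hne
  have hne : q.1 ≠ q.2 := by
    intro h
    rw [h] at hq
    exact lt_irrefl _ hq
  have h2 := card_union_of_disjoint (low_high_disjoint hq)
  rw [h1, card_sdiff_of_subset (subset_univ _), card_pair hne, card_univ, Fintype.card_fin] at h2
  have h3 : ({q.1, q.2} : Finset (Fin n)).card ≤ n := by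
    simpa using card_le_card (subset_univ ({q.1, q.2} : Finset (Fin n)))
  rw [card_pair hne] at h3
  omega

/-- a perturbed copy with distinct abscissae and slopes -/
theorem exists_model (P : Finset (ℝ × ℝ)) (hP : GeneralPosition P) :
    ∃ P0 P1 : Fin P.card → ℝ × ℝ, Function.Injective P0 ∧ univ.image P0 = P ∧ GP P1 ∧
      ∀ i j k, i ≠ j → i ≠ k → j ≠ k →
        0 < ori (P0 i) (P0 j) (P0 k) * ori (P1 i) (P1 j) (P1 k) := by
  classical
  set P0 : Fin P.card → ℝ × ℝ := fun i => (P.equivFin.symm i : ℝ × ℝ) with hP0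
  have hinj : Function.Injective P0 := by
    intro i j h
    exact P.equivFin.symm.injective (Subtype.ext h)
  have him : univ.image P0 = P := by
    ext p
    simp only [mem_image, mem_univ, true_and]
    constructor
    · rintro ⟨i, rfl⟩
      exact (P.equivFin.symm i).2
    · intro hp
      exact ⟨P.equivFin ⟨p, hp⟩, by simp [hP0]⟩
  have hne : ∀ i j k, i ≠ j → i ≠ k → j ≠ k → ori (P0 i) (P0 j) (P0 k) ≠ 0 := by
    intro i j k hij hik hjk h0
    have m : ∀ i, P0 i ∈ P := fun i => (P.equivFin.symm i).2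
    refine hP ((P0 j).2 - (P0 i).2) ((P0 i).1 - (P0 j).1)
      (((P0 j).2 - (P0 i).2) * (P0 i).1 + ((P0 i).1 - (P0 j).1) * (P0 i).2) ?_ (P0 i) (m i) (P0 j)
      (m j) (P0 k) (m k) (hinj.ne hij) (hinj.ne hik) (hinj.ne hjk) ⟨?_, ?_, ?_⟩
    · by_contra hc
      push Not at hc
      exact hij (hinj (Prod.ext (by linarith [hc.2]) (by linarith [hc.1])))
    · simp only [Line, Set.mem_ofPred_eq]
    · simp only [Line, Set.mem_ofPred_eq]; ring
    · unfold ori at h0
      simp only [Line, Set.mem_ofPred_eq]; linarith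
  have hU : {Q : Fin P.card → ℝ × ℝ | ∀ i j k, i ≠ j → i ≠ k → j ≠ k →
      0 < ori (P0 i) (P0 j) (P0 k) * ori (Q i) (Q j) (Q k)} ∈ 𝓝 P0 := by
    change ∀ᶠ Q in 𝓝 P0, ∀ i j k, i ≠ j → i ≠ k → j ≠ k →
      0 < ori (P0 i) (P0 j) (P0 k) * ori (Q i) (Q j) (Q k)
    rw [eventually_all]; intro i
    rw [eventually_all]; intro j
    rw [eventually_all]; intro k
    by_cases h : i ≠ j ∧ i ≠ k ∧ j ≠ k
    · have hc : Continuous (fun Q : Fin P.card → ℝ × ℝ =>
          ori (P0 i) (P0 j) (P0 k) * ori (Q i) (Q j) (Q k)) := by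
        unfold ori
        fun_prop
      have hpos : 0 < ori (P0 i) (P0 j) (P0 k) * ori (P0 i) (P0 j) (P0 k) :=
        mul_self_pos.mpr (hne i j k h.1 h.2.1 h.2.2)
      have := (hc.continuousAt (x := P0)).eventually (lt_mem_nhds hpos)
      filter_upwards [this] with Q hQ _ _ _ using hQ
    · filter_upwards with Q h1 h2 h3
      exact absurd ⟨h1, h2, h3⟩ h
  obtain ⟨P1, hP1, hGP⟩ := exists_near P0 hU
  exact ⟨P0, P1, hinj, him, hGP, hP1⟩

theorem lin_ori {a b c : ℝ} (hab : a ≠ 0 ∨ b ≠ 0) {p q : ℝ × ℝ} (hpq : p ≠ q)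
    (hp : p ∈ Line a b c) (hq : q ∈ Line a b c) :
    ∃ t : ℝ, t ≠ 0 ∧ ∀ r : ℝ × ℝ, a * r.1 + b * r.2 - c = t * ori p q r := by
  simp only [Line, Set.mem_ofPred_eq] at hp hq
  have hdet : a * (p.1 - q.1) = b * (q.2 - p.2) := by linarith
  by_cases h : p.1 - q.1 = 0
  · have h2 : q.2 - p.2 ≠ 0 := by
      intro h2
      exact hpq (Prod.ext (by linarith) (by linarith))
    have hb : b = 0 := by
      rw [h, mul_zero] at hdet
      exact (mul_eq_zero.mp hdet.symm).resolve_right h2
    have ha : a ≠ 0 := by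
      rcases hab with h' | h'
      · exact h'
      · exact absurd hb h'
    refine ⟨a / (q.2 - p.2), div_ne_zero ha h2, fun r => ?_⟩
    unfold ori
    rw [h, zero_mul, add_zero, ← mul_assoc, div_mul_cancel₀ _ h2, ← hp, hb]
    ring
  · have ha : a = b / (p.1 - q.1) * (q.2 - p.2) := by
      field_simp
      linarith
    have hb0 : b ≠ 0 := by
      rintro rfl
      rw [zero_div, zero_mul] at ha
      rcases hab with h' | h'
      · exact h' ha
      · exact h' rfl
    refine ⟨b / (p.1 - q.1), div_ne_zero hb0 h, fun r => ?_⟩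
    have e : b / (p.1 - q.1) * ori p q r = (b / (p.1 - q.1) * (q.2 - p.2)) * (r.1 - p.1) +
        (b / (p.1 - q.1) * (p.1 - q.1)) * (r.2 - p.2) := by
      unfold ori; ring
    rw [e, ← ha, div_mul_cancel₀ _ h, ← hp]
    ring

open Classical in
/-- the surviving pairs balanced after the deletion of `D` -/
noncomputable def BP {n : ℕ} (P : Fin n → ℝ × ℝ) (D : Finset (Fin n)) : Finset (Fin n × Fin n) :=
  (T P).filter (fun q => (q.1 ∉ D ∧ q.2 ∉ D) ∧ (lowSet P q \ D).card = (highSet P q \ D).card)

open Classical in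
theorem bis_le {n : ℕ} {P0 P1 : Fin n → ℝ × ℝ} (hinj : Function.Injective P0) (hGP : GP P1)
    (hs : ∀ i j k, i ≠ j → i ≠ k → j ≠ k →
        0 < ori (P0 i) (P0 j) (P0 k) * ori (P1 i) (P1 j) (P1 k)) (D : Finset (Fin n)) :
    {L | IsBisector (Dᶜ.image P0) L}.ncard ≤ (BP P1 D).card := by
  set Φ : Fin n × Fin n → Set (ℝ × ℝ) := fun q =>
    Line ((P0 q.2).2 - (P0 q.1).2) ((P0 q.1).1 - (P0 q.2).1)
      (((P0 q.2).2 - (P0 q.1).2) * (P0 q.1).1 + ((P0 q.1).1 - (P0 q.2).1) * (P0 q.1).2) with hΦ
  have hsub : {L | IsBisector (Dᶜ.image P0) L} ⊆ Φ '' (BP P1 D : Set (Fin n × Fin n)) := by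
    rintro L ⟨a, b, c, hab, rfl, ⟨p, hp, q, hq, hpq, hpL, hqL⟩, hlt, hgt⟩
    -- the two sides are equal in number
    have hbal : ((Dᶜ.image P0).filter (fun p => a * p.1 + b * p.2 < c)).card =
      ((Dᶜ.image P0).filter (fun p => c < a * p.1 + b * p.2)).card := by rw [hlt, hgt]
    have key : ∀ i j : Fin n, i ∉ D → j ∉ D → P0 i ∈ Line a b c → P0 j ∈ Line a b c →
        (P1 j).1 < (P1 i).1 → Line a b c ∈ Φ '' (BP P1 D : Set (Fin n × Fin n)) := by
      intro i j hiD hjD hi hj hlt'
      have hij : i ≠ j := by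
        rintro rfl
        exact lt_irrefl _ hlt'
      refine ⟨(i, j), ?_, (line_eq hab (hinj.ne hij) hi hj).symm⟩
      obtain ⟨t, ht, hr⟩ := lin_ori hab (hinj.ne hij) hi hj
      have hsgn : ∀ l, (ori (P0 i) (P0 j) (P0 l) < 0 ↔ l ∈ lowSet P1 (i, j)) ∧
          (0 < ori (P0 i) (P0 j) (P0 l) ↔ l ∈ highSet P1 (i, j)) := by
        intro l
        rw [mem_low (q := (i, j)) hlt', mem_high]
        by_cases h1 : i = l
        · subst h1
          simp [ori_left]
        by_cases h2 : j = l
        · subst h2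
          simp [ori_right]
        have := hs i j l hij h1 h2
        rcases pos_and_pos_or_neg_and_neg_of_mul_pos this with ⟨h3, h4⟩ | ⟨h3, h4⟩
        · exact ⟨⟨fun h => absurd h (by linarith), fun h => absurd h (by
            simp only at h ⊢; linarith)⟩, ⟨fun _ => h4, fun _ => h3⟩⟩
        · exact ⟨⟨fun _ => h4, fun _ => h3⟩, ⟨fun h => absurd h (by linarith), fun h =>
            absurd h (by simp only at h ⊢; linarith)⟩⟩
      have e1 : ∀ l, (a * (P0 l).1 + b * (P0 l).2 < c ↔ t * ori (P0 i) (P0 j) (P0 l) < 0) := by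
        intro l
        rw [← hr]
        constructor <;> intro h <;> linarith
      have e2 : ∀ l, (c < a * (P0 l).1 + b * (P0 l).2 ↔ 0 < t * ori (P0 i) (P0 j) (P0 l)) := by
        intro l
        rw [← hr]
        constructor <;> intro h <;> linarith
      rw [filter_image, filter_image, card_image_of_injective _ hinj,
        card_image_of_injective _ hinj] at hbal
      simp only [e1, e2] at hbal
      have f1 : Dᶜ.filter (fun l => ori (P0 i) (P0 j) (P0 l) < 0) = lowSet P1 (i, j) \ D := by
        ext l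
        rw [mem_filter, mem_compl, Finset.mem_sdiff, (hsgn l).1]
        tauto
      have f2 : Dᶜ.filter (fun l => 0 < ori (P0 i) (P0 j) (P0 l)) = highSet P1 (i, j) \ D := by
        ext l
        rw [mem_filter, mem_compl, Finset.mem_sdiff, (hsgn l).2]
        tauto
      rw [mem_coe]
      unfold BP
      rw [mem_filter, mem_T]
      refine ⟨hlt', ⟨hiD, hjD⟩, ?_⟩
      rcases lt_or_gt_of_ne ht with h | h
      · have g1 : ∀ l, (t * ori (P0 i) (P0 j) (P0 l) < 0 ↔ 0 < ori (P0 i) (P0 j) (P0 l)) := by
          intro l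
          constructor
          · intro h'
            by_contra hc
            push Not at hc
            have := mul_nonneg_of_nonpos_of_nonpos h.le hc
            linarith
          · intro h'
            exact mul_neg_of_neg_of_pos h h'
        have g2 : ∀ l, (0 < t * ori (P0 i) (P0 j) (P0 l) ↔ ori (P0 i) (P0 j) (P0 l) < 0) := by
          intro l
          constructor
          · intro h'
            by_contra hc
            push Not at hc
            have := mul_nonpos_of_nonpos_of_nonneg h.le hc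
            linarith
          · intro h'
            exact mul_pos_of_neg_of_neg h h'
        simp only [g1, g2] at hbal
        rw [f1, f2] at hbal
        exact hbal.symm
      · have g1 : ∀ l, (t * ori (P0 i) (P0 j) (P0 l) < 0 ↔ ori (P0 i) (P0 j) (P0 l) < 0) := by
          intro l
          constructor
          · intro h'
            by_contra hc
            push Not at hc
            have := mul_nonneg h.le hc
            linarith
          · intro h'
            exact mul_neg_of_pos_of_neg h h'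
        have g2 : ∀ l, (0 < t * ori (P0 i) (P0 j) (P0 l) ↔ 0 < ori (P0 i) (P0 j) (P0 l)) := by
          intro l
          exact mul_pos_iff_of_pos_left h
        simp only [g1, g2] at hbal
        rw [f1, f2] at hbal
        exact hbal
    rw [mem_image] at hp hq
    obtain ⟨i, hi, rfl⟩ := hp
    obtain ⟨j, hj, rfl⟩ := hq
    rw [mem_compl] at hi hj
    rcases lt_trichotomy (P1 i).1 (P1 j).1 with h | h | h
    · exact key j i hj hi hqL hpL h
    · exact absurd (congrArg P0 (hGP.1 i j h)) hpq
    · exact key i j hi hj hpL hqL h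
  refine (Set.ncard_le_ncard hsub ((Finset.finite_toSet _).image _)).trans ?_
  refine (Set.ncard_image_le (Finset.finite_toSet _)).trans ?_
  rw [Set.ncard_coe_finset]

end Pool.Agent.Helper889_Halv
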