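import Mathlib

/-! Order statistics of a finite family of reals. -/

set_option autoImplicit false

namespace Pool.Agent.Helper889_Halv

open Finset

variable {ι : Type*}

theorem pcne {A : Finset ι} {k : ℕ} (hA : k ≤ A.card) : (A.powersetCard k).attach.Nonempty := by
  rw [attach_nonempty_iff]
  exact powersetCard_nonempty.mpr hA

theorem pcmem {A : Finset ι} {k : ℕ} (hk : 1 ≤ k) (S : {S // S ∈ A.powersetCard k}) :
    S.1.Nonempty := by
  have := (mem_powersetCard.mp S.2).2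
  rw [← card_pos]
  omega

/-- the `k`-th smallest value of `f` on `A` -/
noncomputable def kth (A : Finset ι) (k : ℕ) (hk : 1 ≤ k) (hA : k ≤ A.card) (f : ι → ℝ) : ℝ :=
  (A.powersetCard k).attach.inf' (pcne hA) (fun S => S.1.sup' (pcmem hk S) f)

theorem kth_att (A : Finset ι) (k : ℕ) (hk : 1 ≤ k) (hA : k ≤ A.card) (f : ι → ℝ) :
    ∃ S ∈ A.powersetCard k, (∀ i ∈ S, f i ≤ kth A k hk hA f) ∧ ∃ i ∈ S, kth A k hk hA f = f i := by
  obtain ⟨S, -, hS⟩ := exists_mem_eq_inf' (pcne hA) (fun S : {S // S ∈ A.powersetCard k} =>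
    S.1.sup' (pcmem hk S) f)
  obtain ⟨i, hi, hi'⟩ := exists_mem_eq_sup' (pcmem hk S) f
  refine ⟨S.1, S.2, ?_, i, hi, ?_⟩
  · intro j hj
    unfold kth
    rw [hS]
    exact le_sup' f hj
  · unfold kth
    rw [hS, hi']

theorem kth_mem (A : Finset ι) (k : ℕ) (hk : 1 ≤ k) (hA : k ≤ A.card) (f : ι → ℝ) :
    ∃ i ∈ A, kth A k hk hA f = f i := by
  obtain ⟨S, hS, -, i, hi, h⟩ := kth_att A k hk hA f
  exact ⟨i, (mem_powersetCard.mp hS).1 hi, h⟩

theorem kth_le (A : Finset ι) (k : ℕ) (hk : 1 ≤ k) (hA : k ≤ A.card) (f : ι → ℝ) :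
    k ≤ (A.filter (fun i => f i ≤ kth A k hk hA f)).card := by
  obtain ⟨S, hS, h, -⟩ := kth_att A k hk hA f
  rw [mem_powersetCard] at hS
  refine hS.2.symm.le.trans (card_le_card ?_)
  intro i hi
  rw [mem_filter]
  exact ⟨hS.1 hi, h i hi⟩

theorem kth_lt (A : Finset ι) (k : ℕ) (hk : 1 ≤ k) (hA : k ≤ A.card) (f : ι → ℝ) :
    (A.filter (fun i => f i < kth A k hk hA f)).card < k := by
  by_contra hc
  push Not at hc
  obtain ⟨S, hS, hcard⟩ := exists_subset_card_eq hc
  have hSA : S ∈ A.powersetCard k := by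
    rw [mem_powersetCard]
    exact ⟨hS.trans (filter_subset _ _), hcard⟩
  have h1 : kth A k hk hA f ≤ S.sup' (pcmem hk ⟨S, hSA⟩) f :=
    inf'_le (fun S : {S // S ∈ A.powersetCard k} => S.1.sup' (pcmem hk S) f)
      (mem_attach _ ⟨S, hSA⟩)
  obtain ⟨i, hi, hi'⟩ := exists_mem_eq_sup' (pcmem hk ⟨S, hSA⟩) f
  rw [hi'] at h1
  have := (mem_filter.mp (hS hi)).2
  linarith

theorem kth_cont (A : Finset ι) (k : ℕ) (hk : 1 ≤ k) (hA : k ≤ A.card) (f : ι → ℝ → ℝ)
    (hf : ∀ i, Continuous (f i)) : Continuous (fun s => kth A k hk hA (fun i => f i s)) := by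
  unfold kth
  apply Continuous.finset_inf'_apply
  intro S _
  apply Continuous.finset_sup'_apply
  intro i _
  exact hf i

/-- a common value of two order statistics -/
theorem ham {ι : Type*} (x y : ι → ℝ) {A B : Finset ι} (hAB : ∀ i ∈ A, ∀ j ∈ B, x i < x j)
    (k l : ℕ) (hk : 1 ≤ k) (hA : k ≤ A.card) (hl : 1 ≤ l) (hB : l ≤ B.card) :
    ∃ s : ℝ, kth A k hk hA (fun i => y i - s * x i) = kth B l hl hB (fun i => y i - s * x i) := by
  set g : ℝ → ℝ := fun s => kth A k hk hA (fun i => y i - s * x i) -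
    kth B l hl hB (fun i => y i - s * x i) with hg
  have hgc : Continuous g := by
    apply Continuous.sub
    · exact kth_cont A k hk hA (fun i s => y i - s * x i) (fun i => by fun_prop)
    · exact kth_cont B l hl hB (fun i s => y i - s * x i) (fun i => by fun_prop)
  set M : ℝ := (∑ i ∈ A, ∑ j ∈ B, |y i - y j| / |x j - x i|) + 1 with hM
  have hMb : ∀ i ∈ A, ∀ j ∈ B, |y i - y j| < M * (x j - x i) := by
    intro i hi j hj
    have hpos : 0 < x j - x i := by linarith [hAB i hi j hj]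
    rw [← div_lt_iff₀ hpos]
    have h1 : |y i - y j| / |x j - x i| ≤ ∑ j ∈ B, |y i - y j| / |x j - x i| :=
      single_le_sum (f := fun j => |y i - y j| / |x j - x i|) (fun _ _ => by positivity) hj
    have h2 : ∑ j ∈ B, |y i - y j| / |x j - x i| ≤
        ∑ i ∈ A, ∑ j ∈ B, |y i - y j| / |x j - x i| :=
      single_le_sum (f := fun i => ∑ j ∈ B, |y i - y j| / |x j - x i|)
        (fun _ _ => sum_nonneg fun _ _ => by positivity) hi
    rw [abs_of_pos hpos] at h1
    linarith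
  have hpos : 0 ≤ g M := by
    obtain ⟨i, hi, e1⟩ := kth_mem A k hk hA (fun i => y i - M * x i)
    obtain ⟨j, hj, e2⟩ := kth_mem B l hl hB (fun i => y i - M * x i)
    have := hMb i hi j hj
    have h2 := neg_abs_le (y i - y j)
    simp only [hg]
    rw [e1, e2]
    nlinarith
  have hneg : g (-M) ≤ 0 := by
    obtain ⟨i, hi, e1⟩ := kth_mem A k hk hA (fun i => y i - (-M) * x i)
    obtain ⟨j, hj, e2⟩ := kth_mem B l hl hB (fun i => y i - (-M) * x i)
    have := hMb i hi j hj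
    have h2 := le_abs_self (y i - y j)
    simp only [hg]
    rw [e1, e2]
    nlinarith
  obtain ⟨s, hs⟩ := mem_range_of_exists_le_of_exists_ge hgc ⟨-M, hneg⟩ ⟨M, hpos⟩
  refine ⟨s, ?_⟩
  simp only [hg] at hs
  linarith

end Pool.Agent.Helper889_Halv
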