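import Pool.Agent.Helper889_Halv.Sets3

/-! Partitions into parts of prescribed sizes with few halving lines. -/

set_option autoImplicit false

namespace Pool.Agent.Helper889_Halv

open Finset KLev.Halving

theorem ratio_aux {K x y S : ℝ} (hK : 0 ≤ K) (hy : 0 ≤ y) (hS : y ≤ S) (hx0 : 0 ≤ x)
    (hx : x ≤ K * (y + 1)) : ((x + S) / (S + 1)) ^ (1 / 3 : ℝ) ≤ (1 + K) ^ (1 / 3 : ℝ) := by
  have hS1 : 0 < S + 1 := by linarith
  apply Real.rpow_le_rpow (div_nonneg (by linarith) hS1.le) _ (by norm_num)
  rw [div_le_iff₀ hS1]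
  nlinarith

open Classical in
theorem parts_nat (K : ℝ) (hK : 0 ≤ K) (k : ℕ) (hk : 2 ≤ k) :
    ∀ (f : ℕ → ℕ) (P : Finset (ℝ × ℝ)), GeneralPosition P → P.card = ∑ i ∈ range k, f i →
      (∀ i < k, ∀ j < k, (f i : ℝ) ≤ K * (f j + 1)) →
      ∃ A : ℕ → Finset (ℝ × ℝ), (∀ i < k, A i ⊆ P) ∧
        (∀ i < k, ∀ j < k, i ≠ j → Disjoint (A i) (A j)) ∧
        ∀ i < k, (A i).card = f i ∧
          (({L | IsBisector (A i) L}.ncard : ℕ) : ℝ) ≤
            5000000 * (1 + K) ^ (1 / 3 : ℝ) * f i := by
  induction k, hk using Nat.le_induction with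
  | base =>
    intro f P hP hc hf
    have hc2 : P.card = f 0 + f 1 := by
      rw [hc, sum_range_succ, sum_range_one]
    have hcr : (P.card : ℝ) = f 0 + f 1 := by exact_mod_cast hc2
    obtain ⟨R, hR, hRc, h1, h2⟩ := splits P hP (s := f 1) (by omega)
    refine ⟨fun i => if i = 1 then R else P \ R, ?_, ?_, ?_⟩
    · intro i _
      simp only
      split_ifs
      · exact hR
      · exact sdiff_subset
    · intro i hi j hj hij
      have hd : Disjoint R (P \ R) := disjoint_sdiff
      have hi' : i = 0 ∨ i = 1 := by omega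
      have hj' : j = 0 ∨ j = 1 := by omega
      rcases hi' with rfl | rfl <;> rcases hj' with rfl | rfl
      · exact absurd rfl hij
      · simpa using hd.symm
      · simpa using hd
      · exact absurd rfl hij
    · intro i hi
      have hi' : i = 0 ∨ i = 1 := by omega
      rcases hi' with rfl | rfl
      · simp only [zero_ne_one, if_false]
        refine ⟨?_, ?_⟩
        · rw [card_sdiff_of_subset hR, hRc]
          omega
        · refine h2.trans ?_
          have e1 : (P.card : ℝ) - f 1 = f 0 := by rw [hcr]; ring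
          rw [e1, hcr]
          have := ratio_aux (K := K) (x := f 0) (y := f 1) (S := f 1) hK (Nat.cast_nonneg _) le_rfl
            (Nat.cast_nonneg _) (hf 0 (by omega) 1 (by omega))
          calc 5000000 * (f 0 : ℝ) * (((f 0 : ℝ) + f 1) / (f 1 + 1)) ^ (1 / 3 : ℝ) ≤
                5000000 * (f 0 : ℝ) * (1 + K) ^ (1 / 3 : ℝ) := by gcongr
            _ = _ := by ring
      · simp only [if_true]
        refine ⟨hRc, h1.trans ?_⟩
        have e1 : (P.card : ℝ) - f 1 + 1 = f 0 + 1 := by rw [hcr]; ring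
        have := ratio_aux (K := K) (x := f 1) (y := f 0) (S := f 0) hK (Nat.cast_nonneg _) le_rfl
            (Nat.cast_nonneg _) (hf 1 (by omega) 0 (by omega))
        rw [e1, hcr, add_comm (f 0 : ℝ) (f 1 : ℝ)]
        calc 5000000 * (f 1 : ℝ) * (((f 1 : ℝ) + f 0) / (f 0 + 1)) ^ (1 / 3 : ℝ) ≤
              5000000 * (f 1 : ℝ) * (1 + K) ^ (1 / 3 : ℝ) := by gcongr
          _ = _ := by ring
  | succ k hk ih =>
    intro f P hP hc hf
    rw [sum_range_succ] at hc
    obtain ⟨R, hR, hRc, h1, -⟩ := splits P hP (s := f k) (by omega)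
    have hPR : (P \ R).card = ∑ i ∈ range k, f i := by
      rw [card_sdiff_of_subset hR, hRc]
      omega
    obtain ⟨A, hA1, hA2, hA3⟩ := ih f (P \ R) (gp_mono hP sdiff_subset) hPR
      (fun i hi j hj => hf i (by omega) j (by omega))
    have hAR : ∀ i < k, Disjoint R (A i) := fun i hi =>
      disjoint_of_subset_right (hA1 i hi) disjoint_sdiff
    refine ⟨fun i => if i = k then R else A i, ?_, ?_, ?_⟩
    · intro i hi
      simp only
      split_ifs with h
      · exact hR
      · exact (hA1 i (by omega)).trans sdiff_subset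
    · intro i hi j hj hij
      simp only
      split_ifs with h h' h'
      · exact absurd (h.trans h'.symm) hij
      · exact hAR j (by omega)
      · exact (hAR i (by omega)).symm
      · exact hA2 i (by omega) j (by omega) hij
    · intro i hi
      simp only
      split_ifs with h
      · subst h
        refine ⟨hRc, h1.trans ?_⟩
        have hS : (f 0 : ℝ) ≤ ∑ i ∈ range i, (f i : ℝ) := by
          have : f 0 ≤ ∑ i ∈ range i, f i :=
            single_le_sum (f := f) (fun _ _ => Nat.zero_le _) (mem_range.mpr (by omega))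
          exact_mod_cast this
        have hcr : (P.card : ℝ) = f i + ∑ i ∈ range i, (f i : ℝ) := by
          rw [hc]
          push_cast
          ring
        have := ratio_aux (K := K) (x := f i) (y := f 0) (S := ∑ i ∈ range i, (f i : ℝ)) hK
          (Nat.cast_nonneg _) hS (Nat.cast_nonneg _) (hf i (by omega) 0 (by omega))
        have e1 : (P.card : ℝ) - f i + 1 = ∑ i ∈ range i, (f i : ℝ) + 1 := by rw [hcr]; ring
        rw [e1, hcr]
        calc 5000000 * (f i : ℝ) * (((f i : ℝ) + ∑ i ∈ range i, (f i : ℝ)) /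
              (∑ i ∈ range i, (f i : ℝ) + 1)) ^ (1 / 3 : ℝ) ≤
              5000000 * (f i : ℝ) * (1 + K) ^ (1 / 3 : ℝ) := by gcongr
          _ = _ := by ring
      · exact hA3 i (by omega)

open Classical in
/-- **Partitions.** -/
theorem parts {K : ℝ} (hK : 0 ≤ K) {k : ℕ} (hk : 2 ≤ k) (f : Fin k → ℕ)
    (P : Finset (ℝ × ℝ)) (hP : GeneralPosition P) (hc : P.card = ∑ i, f i)
    (hf : ∀ i j, (f i : ℝ) ≤ K * (f j + 1)) :
    ∃ A : Fin k → Finset (ℝ × ℝ), (∀ i j, i ≠ j → Disjoint (A i) (A j)) ∧
      univ.biUnion A = P ∧ ∀ i, (A i).card = f i ∧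
          (({L | IsBisector (A i) L}.ncard : ℕ) : ℝ) ≤
            5000000 * (1 + K) ^ (1 / 3 : ℝ) * f i := by
  set g : ℕ → ℕ := fun i => if h : i < k then f ⟨i, h⟩ else 0 with hg
  have hgf : ∀ i : Fin k, g i = f i := by
    intro i
    simp only [hg, i.2, dif_pos]
  have hsum : P.card = ∑ i ∈ range k, g i := by
    rw [hc, sum_range]
    exact sum_congr rfl (fun i _ => (hgf i).symm)
  obtain ⟨A, hA1, hA2, hA3⟩ := parts_nat K hK k hk g P hP hsum (by
    intro i hi j hj
    have := hf ⟨i, hi⟩ ⟨j, hj⟩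
    rw [← hgf, ← hgf] at this
    exact this)
  have hd : ∀ i j : Fin k, i ≠ j → Disjoint (A i) (A j) := fun i j hij =>
    hA2 i i.2 j j.2 (fun h => hij (Fin.ext h))
  refine ⟨fun i => A i, hd, ?_, ?_⟩
  · apply eq_of_subset_of_card_le
    · intro x hx
      rw [mem_biUnion] at hx
      obtain ⟨i, -, hi⟩ := hx
      exact hA1 i i.2 hi
    · rw [card_biUnion (fun i _ j _ hij => hd i j hij), hc]
      apply le_of_eq
      apply sum_congr rfl
      intro i _
      rw [(hA3 i i.2).1, hgf]
  · intro i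
    have := hA3 i i.2
    rw [hgf] at this
    exact this

end Pool.Agent.Helper889_Halv
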