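import Pool.Agent.Y344.KD.Prob

/-! Two disjoint sets under random deletion; the probability of balance. -/

set_option autoImplicit false

namespace Pool.Agent.Helper889_Halv

open Finset Polynomial Pool.Agent.Y344.KD

theorem coeff_lin_pow (m k : ℕ) (r : ℝ) :
    (((C (1 - r) * X + C r : ℝ[X])) ^ m).coeff k = bb k m r := by
  rw [add_pow, finsetSum_coeff]
  have h6 : ∀ i ∈ range (m + 1), (((C (1 - r) * X) ^ i * C r ^ (m - i) *
      ((m.choose i : ℕ) : ℝ[X])) : ℝ[X]).coeff k =
      if k = i then (m.choose i : ℝ) * ((1 - r) ^ i * r ^ (m - i)) else 0 := by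
    intro i _
    have : ((C (1 - r) * X) ^ i * C r ^ (m - i) * ((m.choose i : ℕ) : ℝ[X]) : ℝ[X]) =
        C ((m.choose i : ℝ) * ((1 - r) ^ i * r ^ (m - i))) * X ^ i := by
      rw [mul_pow, C_mul, C_mul, C_pow, C_pow]
      simp only [map_natCast]
      ring
    rw [this, coeff_C_mul_X_pow]
  rw [sum_congr rfl h6]
  by_cases hk : k ∈ range (m + 1)
  · rw [sum_ite_eq, if_pos hk]
    rfl
  · rw [sum_ite_eq, if_neg hk, bb_zero (by rw [mem_range] at hk; omega)]

/-- the numbers of survivors in two disjoint sets are independent -/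
theorem marg2 {n : ℕ} {S S' : Finset (Fin n)} (hd : Disjoint S S') (k k' : ℕ) (r : ℝ) :
    ∑ D : Finset (Fin n), (if (S \ D).card = k ∧ (S' \ D).card = k' then wt r D else 0) =
      bb k S.card r * bb k' S'.card r := by
  have h1 := Fintype.prod_add (fun _ : Fin n => (C (C r) : ℝ[X][X]))
    (fun l => C (C (1 - r)) * (if l ∈ S then C X else if l ∈ S' then X else 1))
  have h2 : ∏ l : Fin n, ((C (C r) : ℝ[X][X]) +
      C (C (1 - r)) * (if l ∈ S then C X else if l ∈ S' then X else 1)) =
      C ((C (1 - r) * X + C r) ^ S.card) * ((C (1 - r) * X + C r) ^ S'.card : ℝ[X]).map C := by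
    have e : ∀ l : Fin n, ((C (C r) : ℝ[X][X]) +
        C (C (1 - r)) * (if l ∈ S then C X else if l ∈ S' then X else 1)) =
        (if l ∈ S then C (C (1 - r) * X + C r) else 1) *
          (if l ∈ S' then (C (C (1 - r)) * X + C (C r)) else 1) := by
      intro l
      by_cases h : l ∈ S
      · have h' : l ∉ S' := fun h' => disjoint_left.mp hd h h'
        rw [if_pos h, if_pos h, if_neg h', mul_one, C_add, C_mul]
        ring
      · rw [if_neg h, if_neg h, one_mul]
        by_cases h' : l ∈ S'
        · rw [if_pos h', if_pos h']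
          ring
        · rw [if_neg h', if_neg h', mul_one, ← C_add, ← C_add]
          norm_num
    rw [prod_congr rfl (fun l _ => e l), prod_mul_distrib, prod_ite, prod_ite]
    simp only [prod_const, one_pow, mul_one]
    have f1 : (univ.filter (fun l => l ∈ S)) = S := by ext l; simp
    have f2 : (univ.filter (fun l => l ∈ S')) = S' := by ext l; simp
    rw [f1, f2, C_pow, Polynomial.map_pow]
    congr 2
    simp
  have h3 : ∀ D : Finset (Fin n), (∏ l ∈ D, (C (C r) : ℝ[X][X])) *
      ∏ l ∈ Dᶜ, (C (C (1 - r)) * (if l ∈ S then C X else if l ∈ S' then X else 1)) =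
      C (C (wt r D) * X ^ (S \ D).card) * X ^ (S' \ D).card := by
    intro D
    have e1 : ∀ l : Fin n, (C (C (1 - r)) * (if l ∈ S then C X else if l ∈ S' then X else 1)
        : ℝ[X][X]) = C (C (1 - r)) * ((if l ∈ S then C X else 1) * (if l ∈ S' then X else 1)) := by
      intro l
      by_cases h : l ∈ S
      · have h' : l ∉ S' := fun h' => disjoint_left.mp hd h h'
        rw [if_pos h, if_pos h, if_neg h', mul_one]
      · rw [if_neg h, if_neg h, one_mul]
    rw [prod_congr rfl (fun l _ => e1 l), prod_mul_distrib, prod_mul_distrib, prod_ite, prod_ite]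
    simp only [prod_const, one_pow, mul_one]
    have e2 : Dᶜ.filter (fun l => l ∈ S) = S \ D := by
      ext l
      simp only [mem_filter, mem_compl, mem_sdiff]
      tauto
    have e3 : Dᶜ.filter (fun l => l ∈ S') = S' \ D := by
      ext l
      simp only [mem_filter, mem_compl, mem_sdiff]
      tauto
    rw [e2, e3, card_compl, Fintype.card_fin]
    unfold wt
    rw [C_mul, C_mul, C_mul, C_pow, C_pow, C_pow, C_pow, C_pow]
    ring
  rw [h2] at h1
  simp only [h3] at h1
  have h4 := congrArg (fun p : ℝ[X][X] => (p.coeff k').coeff k) h1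
  have h5 : ∀ D : Finset (Fin n), ((C (C (wt r D) * X ^ (S \ D).card) * X ^ (S' \ D).card :
      ℝ[X][X]).coeff k') = if k' = (S' \ D).card then (C (wt r D) * X ^ (S \ D).card) else 0 :=
    fun D => coeff_C_mul_X_pow _ _ _
  simp only [finsetSum_coeff, h5] at h4
  rw [coeff_C_mul, coeff_map, coeff_mul_C, coeff_lin_pow, coeff_lin_pow] at h4
  rw [h4]
  apply sum_congr rfl
  intro D _
  by_cases a1 : (S' \ D).card = k'
  · by_cases a2 : (S \ D).card = k
    · rw [if_pos ⟨a2, a1⟩, if_pos a1.symm, coeff_C_mul_X_pow, if_pos a2.symm]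
    · rw [if_neg (fun h => a2 h.1), if_pos a1.symm, coeff_C_mul_X_pow,
        if_neg (fun h => a2 h.symm)]
  · rw [if_neg (fun h => a1 h.2), if_neg (fun h => a1 h.symm), coeff_zero]

theorem bb_row (j L : ℕ) {r : ℝ} (h0 : 0 ≤ r) (h1 : r ≤ 1) : ∑ m ∈ range L, bb m j r ≤ 1 := by
  have e : ∑ m ∈ range (j + 1), bb m j r = 1 := by
    have := add_pow (1 - r) r j
    rw [sub_add_cancel, one_pow] at this
    rw [this]
    apply sum_congr rfl
    intro m _
    unfold bb
    ring
  calc ∑ m ∈ range L, bb m j r ≤ ∑ m ∈ range (j + 1 + L), bb m j r :=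
        sum_le_sum_of_subset_of_nonneg (range_subset_range.mpr (by omega))
          (fun m _ _ => bb_nonneg m j h0 h1)
    _ = ∑ m ∈ range (j + 1), bb m j r := by
        rw [sum_range_add]
        simp only [add_eq_left]
        apply sum_eq_zero
        intro m _
        exact bb_zero (by omega) r
    _ = 1 := e

/-- the probability that two sets of sizes `j` and `N - j` have equally many survivors -/
noncomputable def ww (N : ℕ) (r : ℝ) (j : ℕ) : ℝ :=
  if j ≤ N then ∑ k ∈ range (N + 1), bb k j r * bb k (N - j) r else 0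

theorem hockey (N a : ℕ) : ∑ j ∈ range (N + 1), j.choose a = (N + 1).choose (a + 1) := by
  induction N with
  | zero => rcases a with _ | a <;> simp [Nat.choose_eq_zero_of_lt]
  | succ N ih =>
    rw [sum_range_succ, ih, Nat.choose_succ_succ (N + 1) a, add_comm]

theorem choose_conv (N a b : ℕ) :
    ∑ j ∈ range (N + 1), j.choose a * (N - j).choose b = (N + 1).choose (a + b + 1) := by
  induction N generalizing b with
  | zero =>
    rcases a with _ | a <;> rcases b with _ | b <;> simp [Nat.choose_eq_zero_of_lt]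
  | succ N ih =>
    cases b with
    | zero =>
      simp only [Nat.choose_zero_right, mul_one, add_zero]
      exact hockey (N + 1) a
    | succ b =>
      rw [sum_range_succ]
      have e1 : ∑ j ∈ range (N + 1), j.choose a * (N + 1 - j).choose (b + 1) =
          ∑ j ∈ range (N + 1), (j.choose a * (N - j).choose b +
            j.choose a * (N - j).choose (b + 1)) := by
        apply sum_congr rfl
        intro j hj
        rw [mem_range] at hj
        have : N + 1 - j = (N - j) + 1 := by omega
        rw [this, Nat.choose_succ_succ]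
        ring
      rw [e1, sum_add_distrib, ih, ih]
      simp only [tsub_self, Nat.choose_zero_succ, mul_zero, add_zero]
      have e2 : a + (b + 1) + 1 = (a + b + 1) + 1 := by ring
      rw [e2, Nat.choose_succ_succ (N + 1) (a + b + 1)]

theorem ww_nonneg (N j : ℕ) {r : ℝ} (h0 : 0 ≤ r) (h1 : r ≤ 1) : 0 ≤ ww N r j := by
  unfold ww
  split_ifs
  · exact sum_nonneg (fun k _ => mul_nonneg (bb_nonneg _ _ h0 h1) (bb_nonneg _ _ h0 h1))
  · exact le_rfl

theorem ww_le_one (N j : ℕ) {r : ℝ} (h0 : 0 ≤ r) (h1 : r ≤ 1) : ww N r j ≤ 1 := by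
  unfold ww
  split_ifs
  · calc ∑ k ∈ range (N + 1), bb k j r * bb k (N - j) r ≤ ∑ k ∈ range (N + 1), bb k j r := by
          apply sum_le_sum
          intro k _
          exact mul_le_of_le_one_right (bb_nonneg _ _ h0 h1) (bb_le_one _ _ h0 h1)
      _ ≤ 1 := bb_row j (N + 1) h0 h1
  · norm_num

theorem ww_sup {N j : ℕ} {r : ℝ} (hr : 0 < r) (hr2 : r ≤ 1 / 2) (hN : 1 ≤ N) :
    ww N r j ≤ 4 / Real.sqrt (r * N / 2) := by
  have hr1 : r ≤ 1 := by linarith
  have hNr : (0 : ℝ) < N := by exact_mod_cast hN
  unfold ww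
  split_ifs with hj
  swap
  · positivity
  have key : ∀ i : ℕ, N ≤ 2 * i → ∀ k, bb k i r ≤ 4 / Real.sqrt (r * N / 2) := by
    intro i hi k
    refine (bb_sup hr hr2 (by omega)).trans ?_
    have hi' : (N : ℝ) ≤ 2 * i := by exact_mod_cast hi
    apply div_le_div_of_nonneg_left (by norm_num) (Real.sqrt_pos.mpr (by positivity))
    apply Real.sqrt_le_sqrt
    nlinarith
  rcases Nat.lt_or_ge (2 * j) N with h | h
  · calc ∑ k ∈ range (N + 1), bb k j r * bb k (N - j) r ≤
          ∑ k ∈ range (N + 1), bb k j r * (4 / Real.sqrt (r * N / 2)) := by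
          apply sum_le_sum
          intro k _
          exact mul_le_mul_of_nonneg_left (key (N - j) (by omega) k) (bb_nonneg _ _ hr.le hr1)
      _ = (∑ k ∈ range (N + 1), bb k j r) * (4 / Real.sqrt (r * N / 2)) := by rw [sum_mul]
      _ ≤ 1 * (4 / Real.sqrt (r * N / 2)) :=
          mul_le_mul_of_nonneg_right (bb_row _ _ hr.le hr1) (by positivity)
      _ = _ := one_mul _
  · calc ∑ k ∈ range (N + 1), bb k j r * bb k (N - j) r ≤
          ∑ k ∈ range (N + 1), (4 / Real.sqrt (r * N / 2)) * bb k (N - j) r := by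
          apply sum_le_sum
          intro k _
          exact mul_le_mul_of_nonneg_right (key j h k) (bb_nonneg _ _ hr.le hr1)
      _ = (4 / Real.sqrt (r * N / 2)) * ∑ k ∈ range (N + 1), bb k (N - j) r := by rw [mul_sum]
      _ ≤ (4 / Real.sqrt (r * N / 2)) * 1 :=
          mul_le_mul_of_nonneg_left (bb_row _ _ hr.le hr1) (by positivity)
      _ = _ := mul_one _

theorem ww_sum (N J : ℕ) {r : ℝ} (hr : 0 ≤ r) (hr2 : r ≤ 1 / 2) : ∑ j ∈ range J, ww N r j ≤ 2 := by
  have hr1 : r ≤ 1 := by linarith
  have hs : 0 < 1 - r := by linarith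
  have h1 : ∑ j ∈ range J, ww N r j ≤ ∑ j ∈ range (N + 1 + J), ww N r j :=
    sum_le_sum_of_subset_of_nonneg (range_subset_range.mpr (by omega))
      (fun j _ _ => ww_nonneg N j hr hr1)
  have h2 : ∑ j ∈ range (N + 1 + J), ww N r j =
      ∑ j ∈ range (N + 1), ∑ k ∈ range (N + 1), bb k j r * bb k (N - j) r := by
    rw [sum_range_add]
    have : ∑ i ∈ range J, ww N r (N + 1 + i) = 0 := by
      apply sum_eq_zero
      intro i _
      unfold ww
      rw [if_neg (by omega)]
    rw [this, add_zero]
    apply sum_congr rfl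
    intro j hj
    rw [mem_range] at hj
    unfold ww
    rw [if_pos (by omega)]
  have h3 : ∀ k, ∑ j ∈ range (N + 1), bb k j r * bb k (N - j) r =
      ((N + 1).choose (2 * k + 1) : ℝ) * ((1 - r) ^ (2 * k) * r ^ (N - 2 * k)) := by
    intro k
    have h4 : ∀ j ∈ range (N + 1), bb k j r * bb k (N - j) r =
        ((j.choose k * (N - j).choose k : ℕ) : ℝ) * ((1 - r) ^ (2 * k) * r ^ (N - 2 * k)) := by
      intro j hj
      rw [mem_range] at hj
      rcases Nat.lt_or_ge j k with h | h
      · rw [bb_zero h, Nat.choose_eq_zero_of_lt h]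
        simp
      rcases Nat.lt_or_ge (N - j) k with h' | h'
      · rw [bb_zero h', Nat.choose_eq_zero_of_lt h']
        simp
      unfold bb
      have e : r ^ (N - 2 * k) = r ^ (j - k) * r ^ (N - j - k) := by
        rw [← pow_add]
        congr 1
        omega
      rw [e, two_mul, pow_add]
      push_cast
      ring
    rw [sum_congr rfl h4, ← sum_mul, ← Nat.cast_sum, choose_conv]
    congr 3
    ring
  have h5 : (1 - r) * ∑ j ∈ range (N + 1), ∑ k ∈ range (N + 1), bb k j r * bb k (N - j) r ≤ 1 := by
    rw [sum_comm, mul_sum]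
    calc ∑ k ∈ range (N + 1), (1 - r) * ∑ j ∈ range (N + 1), bb k j r * bb k (N - j) r =
          ∑ k ∈ range (N + 1), bb (2 * k + 1) (N + 1) r := by
          apply sum_congr rfl
          intro k _
          rw [h3]
          unfold bb
          have e : N + 1 - (2 * k + 1) = N - 2 * k := by omega
          rw [e]
          ring
      _ = ∑ m ∈ (range (N + 1)).image (fun k => 2 * k + 1), bb m (N + 1) r := by
          rw [sum_image]
          intro a _ b _ h
          simp only at h
          omega
      _ ≤ ∑ m ∈ range (2 * N + 2), bb m (N + 1) r := by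
          apply sum_le_sum_of_subset_of_nonneg
          · intro m hm
            rw [mem_image] at hm
            obtain ⟨k, hk, rfl⟩ := hm
            rw [mem_range] at hk ⊢
            omega
          · intro m _ _
            exact bb_nonneg _ _ hr hr1
      _ ≤ 1 := bb_row _ _ hr hr1
  refine h1.trans ?_
  rw [h2]
  set T := ∑ j ∈ range (N + 1), ∑ k ∈ range (N + 1), bb k j r * bb k (N - j) r with hT
  have hT0 : 0 ≤ T := sum_nonneg (fun j _ => sum_nonneg (fun k _ =>
    mul_nonneg (bb_nonneg _ _ hr hr1) (bb_nonneg _ _ hr hr1)))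
  nlinarith

/-- two disjoint sets of total size `N`: the probability of equally many survivors -/
theorem balance {n : ℕ} {S S' : Finset (Fin n)} (hd : Disjoint S S') (r : ℝ) {N : ℕ}
    (hN : S.card + S'.card = N) :
    ∑ D : Finset (Fin n), (if (S \ D).card = (S' \ D).card then wt r D else 0) =
      ww N r S.card := by
  unfold ww
  rw [if_pos (by omega)]
  have e : N - S.card = S'.card := by omega
  rw [e]
  simp_rw [← marg2 hd]
  rw [sum_comm]
  apply sum_congr rfl
  intro D _
  have hle : (S \ D).card ≤ N := (card_le_card sdiff_subset).trans (by omega)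
  by_cases h : (S \ D).card = (S' \ D).card
  · rw [if_pos h, sum_eq_single (S \ D).card]
    · rw [if_pos ⟨rfl, h.symm⟩]
    · intro k _ hk
      rw [if_neg (fun hh => hk hh.1.symm)]
    · intro hh
      exact absurd (mem_range.mpr (by omega)) hh
  · rw [if_neg h]
    symm
    apply sum_eq_zero
    intro k _
    rw [if_neg (fun hh => h (by rw [hh.1, hh.2]))]

end Pool.Agent.Helper889_Halv
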