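import Pool.Agent.Helper889_Halv.Geo
import Pool.Agent.Helper889_Halv.Kth

/-! Four classes of points, one of which lies on one side of any given line. -/

set_option autoImplicit false

namespace Pool.Agent.Helper889_Halv

open Finset Pool.Agent.Y344.KD Pool.Agent.H189R2.Iid

variable {n : ℕ}

theorem low_iff_E {P : Fin n → ℝ × ℝ} {q : Fin n × Fin n} (hq : (P q.2).1 < (P q.1).1)
    {l : Fin n} : l ∈ lowSet P q ↔ (P l).2 < E P q (P l).1 := by
  have hp : 0 < (P q.1).1 - (P q.2).1 := by linarith
  rw [mem_low hq, ori_eq _ hq]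
  unfold E
  constructor
  · intro h
    by_contra hc
    push Not at hc
    have := mul_nonneg hp.le (show 0 ≤ ((P l).1 * X2 (P q.1) (P q.2) + (P l).2) -
      Y2 (P q.1) (P q.2) by linarith)
    linarith
  · intro h
    exact mul_neg_of_pos_of_neg hp (by linarith)

theorem high_iff_E {P : Fin n → ℝ × ℝ} {q : Fin n × Fin n} (hq : (P q.2).1 < (P q.1).1)
    {l : Fin n} : l ∈ highSet P q ↔ E P q (P l).1 < (P l).2 := by
  have hp : 0 < (P q.1).1 - (P q.2).1 := by linarith
  rw [mem_high, ori_eq _ hq]
  unfold E
  constructor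
  · intro h
    by_contra hc
    push Not at hc
    have := mul_nonpos_of_nonneg_of_nonpos hp.le
      (show ((P l).1 * X2 (P q.1) (P q.2) + (P l).2) - Y2 (P q.1) (P q.2) ≤ 0 by linarith)
    linarith
  · intro h
    exact mul_pos hp (by linarith)

/-- at most two points on a line -/
theorem on_line {P : Fin n → ℝ × ℝ} (hP : GP P) (s c : ℝ) :
    (univ.filter (fun i => (P i).2 - s * (P i).1 = c)).card ≤ 2 := by
  by_contra hc
  push Not at hc
  rw [two_lt_card] at hc
  obtain ⟨i, hi, j, hj, k, hk, hij, hik, hjk⟩ := hc
  simp only [mem_filter, mem_univ, true_and] at hi hj hk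
  have key : ∀ i j : Fin n, (P i).2 - s * (P i).1 = c → (P j).2 - s * (P j).1 = c → i ≠ k → j ≠ k →
      (P j).1 < (P i).1 → False := by
    intro i j hi hj hik hjk h
    have hp : (P i).1 - (P j).1 ≠ 0 := by linarith
    have hX : X2 (P i) (P j) = -s := by
      unfold X2
      rw [div_eq_iff hp]
      linarith
    have hE : E P (i, j) (P k).1 = (P k).2 := by
      unfold E Y2
      simp only
      rw [hX]
      linarith
    rcases E_line hP (q := (i, j)) h hE with h' | h'
    · exact hik h'.symm
    · exact hjk h'.symm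
  rcases lt_trichotomy (P i).1 (P j).1 with h | h | h
  · exact key j i hj hi hjk hik h
  · exact hij (hP.1 i j h)
  · exact key i j hi hj hik hjk h

open Classical in
/-- **Four classes**: any set of `n ≥ 4 τ + 7` points contains four disjoint classes of at least
`τ` points such that every line through two points has one of them strictly on one side -/
theorem quad {P : Fin n → ℝ × ℝ} (hP : GP P) {τ : ℕ} (hn : 4 * τ + 7 ≤ n) :
    ∃ A : Fin 4 → Finset (Fin n), (∀ i j, i ≠ j → Disjoint (A i) (A j)) ∧
      (∀ i, τ ≤ (A i).card) ∧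
      ∀ q ∈ T P, ∃ i, A i ⊆ lowSet P q ∨ A i ⊆ highSet P q := by
  have hcu : (univ : Finset (Fin n)).card = n := by simp
  set k0 : ℕ := 2 * τ + 4 with hk0
  have hk1 : 1 ≤ k0 := by omega
  have hk2 : k0 ≤ (univ : Finset (Fin n)).card := by omega
  set x0 : ℝ := kth univ k0 hk1 hk2 (fun i => (P i).1) with hx0
  set A : Finset (Fin n) := univ.filter (fun i => (P i).1 < x0) with hA
  set B : Finset (Fin n) := univ.filter (fun i => x0 < (P i).1) with hB
  have hAB : ∀ i ∈ A, ∀ j ∈ B, (P i).1 < (P j).1 := by
    intro i hi j hj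
    rw [hA, mem_filter] at hi
    rw [hB, mem_filter] at hj
    exact hi.2.trans hj.2
  have heq1 : (univ.filter (fun i => (P i).1 = x0)).card ≤ 1 := by
    rw [card_le_one]
    intro a ha b hb
    simp only [mem_filter, mem_univ, true_and] at ha hb
    exact hP.1 a b (ha.trans hb.symm)
  have hAlt : A.card < k0 := kth_lt univ k0 hk1 hk2 (fun i => (P i).1)
  have hle : k0 ≤ (univ.filter (fun i => (P i).1 ≤ x0)).card :=
    kth_le univ k0 hk1 hk2 (fun i => (P i).1)
  have hle2 : (univ.filter (fun i => (P i).1 ≤ x0)) ⊆ A ∪ univ.filter (fun i => (P i).1 = x0) := by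
    intro i hi
    simp only [mem_filter, mem_univ, true_and, mem_union, hA] at hi ⊢
    exact lt_or_eq_of_le hi
  have hA2 : 2 * τ + 3 ≤ A.card := by
    have h1 := card_le_card hle2
    have h2 := card_union_le A (univ.filter (fun i => (P i).1 = x0))
    omega
  have hB2 : 2 * τ + 3 ≤ B.card := by
    have h1 : (univ : Finset (Fin n)) ⊆ (A ∪ univ.filter (fun i => (P i).1 = x0)) ∪ B := by
      intro i _
      simp only [mem_filter, mem_univ, true_and, mem_union, hA, hB]
      rcases lt_trichotomy (P i).1 x0 with h | h | h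
      · exact Or.inl (Or.inl h)
      · exact Or.inl (Or.inr h)
      · exact Or.inr h
    have h2 := card_le_card h1
    have h3 := card_union_le (A ∪ univ.filter (fun i => (P i).1 = x0)) B
    have h4 := card_union_le A (univ.filter (fun i => (P i).1 = x0))
    omega
  obtain ⟨s, hs⟩ := ham (fun i => (P i).1) (fun i => (P i).2) hAB (τ + 2) (τ + 2) (by omega)
    (by omega) (by omega) (by omega)
  set c : ℝ := kth A (τ + 2) (by omega) (by omega) (fun i => (P i).2 - s * (P i).1) with hc
  have hAcount := kth_le A (τ + 2) (by omega) (by omega) (fun i => (P i).2 - s * (P i).1)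
  have hAcount' := kth_lt A (τ + 2) (by omega) (by omega) (fun i => (P i).2 - s * (P i).1)
  have hBcount := kth_le B (τ + 2) (by omega) (by omega) (fun i => (P i).2 - s * (P i).1)
  have hBcount' := kth_lt B (τ + 2) (by omega) (by omega) (fun i => (P i).2 - s * (P i).1)
  rw [← hs] at hBcount hBcount'
  rw [← hc] at hAcount hAcount'
  have hline := on_line hP s c
  -- the counts of the quadrants
  have cnt : ∀ S : Finset (Fin n), 2 * τ + 3 ≤ S.card →
      τ + 2 ≤ (S.filter (fun i => (P i).2 - s * (P i).1 ≤ c)).card →
      (S.filter (fun i => (P i).2 - s * (P i).1 < c)).card < τ + 2 →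
      τ ≤ (S.filter (fun i => (P i).2 - s * (P i).1 < c)).card ∧
      τ ≤ (S.filter (fun i => c < (P i).2 - s * (P i).1)).card := by
    intro S hS h1 h2
    have hZ : (S.filter (fun i => (P i).2 - s * (P i).1 = c)).card ≤ 2 :=
      (card_le_card (filter_subset_filter _ (subset_univ S))).trans hline
    have g1 : S.filter (fun i => (P i).2 - s * (P i).1 ≤ c) ⊆
        S.filter (fun i => (P i).2 - s * (P i).1 < c) ∪
        S.filter (fun i => (P i).2 - s * (P i).1 = c) := by
      intro i hi
      simp only [mem_filter, mem_union] at hi ⊢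
      rcases lt_or_eq_of_le hi.2 with h | h
      · exact Or.inl ⟨hi.1, h⟩
      · exact Or.inr ⟨hi.1, h⟩
    have g2 : S ⊆ (S.filter (fun i => (P i).2 - s * (P i).1 < c) ∪
        S.filter (fun i => (P i).2 - s * (P i).1 = c)) ∪
        S.filter (fun i => c < (P i).2 - s * (P i).1) := by
      intro i hi
      simp only [mem_filter, mem_union]
      rcases lt_trichotomy ((P i).2 - s * (P i).1) c with h | h | h
      · exact Or.inl (Or.inl ⟨hi, h⟩)
      · exact Or.inl (Or.inr ⟨hi, h⟩)
      · exact Or.inr ⟨hi, h⟩
    have g3 := card_le_card g1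
    have g4 := card_le_card g2
    have g5 := card_union_le (S.filter (fun i => (P i).2 - s * (P i).1 < c))
        (S.filter (fun i => (P i).2 - s * (P i).1 = c))
    have g6 := card_union_le (S.filter (fun i => (P i).2 - s * (P i).1 < c) ∪
        S.filter (fun i => (P i).2 - s * (P i).1 = c))
        (S.filter (fun i => c < (P i).2 - s * (P i).1))
    constructor <;> omega
  obtain ⟨a1, a2⟩ := cnt A hA2 hAcount hAcount'
  obtain ⟨b1, b2⟩ := cnt B hB2 hBcount hBcount'
  have dAB : Disjoint A B := by
    rw [disjoint_left]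
    intro i hi hj
    exact lt_irrefl _ (hAB i hi i hj)
  have dlg : ∀ S S' : Finset (Fin n), Disjoint (S.filter (fun i => (P i).2 - s * (P i).1 < c))
      (S'.filter (fun i => c < (P i).2 - s * (P i).1)) := by
    intro S S'
    rw [disjoint_left]
    intro i hi hj
    simp only [mem_filter] at hi hj
    linarith [hi.2, hj.2]
  refine ⟨![A.filter (fun i => (P i).2 - s * (P i).1 < c),
    A.filter (fun i => c < (P i).2 - s * (P i).1),
    B.filter (fun i => (P i).2 - s * (P i).1 < c),
    B.filter (fun i => c < (P i).2 - s * (P i).1)], ?_, ?_, ?_⟩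
  · have hAB' : ∀ p p' : Fin n → Prop, Disjoint (A.filter p) (B.filter p') := fun p p' =>
      disjoint_of_subset_left (filter_subset _ _) (disjoint_of_subset_right (filter_subset _ _) dAB)
    intro i j hij
    fin_cases i <;> fin_cases j
    · exact absurd rfl hij
    · exact dlg A A
    · exact hAB' _ _
    · exact hAB' _ _
    · exact (dlg A A).symm
    · exact absurd rfl hij
    · exact hAB' _ _
    · exact hAB' _ _
    · exact (hAB' _ _).symm
    · exact (hAB' _ _).symm
    · exact absurd rfl hij
    · exact dlg B B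
    · exact (hAB' _ _).symm
    · exact (hAB' _ _).symm
    · exact (dlg B B).symm
    · exact absurd rfl hij
  · intro i
    fin_cases i
    · exact a1
    · exact a2
    · exact b1
    · exact b2
  · intro q hq
    rw [mem_T] at hq
    have hE : ∀ z, E P q z = E P q x0 + (z - x0) * (- X2 (P q.1) (P q.2)) := by
      intro z
      unfold E; ring
    set u : ℝ := - X2 (P q.1) (P q.2) with hu
    rcases le_total (s * x0 + c) (E P q x0) with h | h
    · rcases le_total s u with h' | h'
      · refine ⟨2, Or.inl ?_⟩
        intro i hi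
        change i ∈ B.filter (fun i => (P i).2 - s * (P i).1 < c) at hi
        rw [mem_filter, hB, mem_filter] at hi
        rw [low_iff_E hq, hE]
        have : 0 ≤ ((P i).1 - x0) * (u - s) := mul_nonneg (by linarith [hi.1.2]) (by linarith)
        nlinarith [hi.2]
      · refine ⟨0, Or.inl ?_⟩
        intro i hi
        change i ∈ A.filter (fun i => (P i).2 - s * (P i).1 < c) at hi
        rw [mem_filter, hA, mem_filter] at hi
        rw [low_iff_E hq, hE]
        have : 0 ≤ (x0 - (P i).1) * (s - u) := mul_nonneg (by linarith [hi.1.2]) (by linarith)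
        nlinarith [hi.2]
    · rcases le_total s u with h' | h'
      · refine ⟨1, Or.inr ?_⟩
        intro i hi
        change i ∈ A.filter (fun i => c < (P i).2 - s * (P i).1) at hi
        rw [mem_filter, hA, mem_filter] at hi
        rw [high_iff_E hq, hE]
        have : 0 ≤ (x0 - (P i).1) * (u - s) := mul_nonneg (by linarith [hi.1.2]) (by linarith)
        nlinarith [hi.2]
      · refine ⟨3, Or.inr ?_⟩
        intro i hi
        change i ∈ B.filter (fun i => c < (P i).2 - s * (P i).1) at hi
        rw [mem_filter, hB, mem_filter] at hi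
        rw [high_iff_E hq, hE]
        have : 0 ≤ ((P i).1 - x0) * (s - u) := mul_nonneg (by linarith [hi.1.2]) (by linarith)
        nlinarith [hi.2]

end Pool.Agent.Helper889_Halv
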