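import Pool.Agent.Helper889_Halv.Geo
import Pool.Agent.Helper889_Halv.Prob2

/-! The expected number of halving lines of a random subset. -/

set_option autoImplicit false

namespace Pool.Agent.Helper889_Halv

open Finset Pool.Agent.Y344.KD Pool.Agent.H189R2.Iid KLev.Halving

variable {n : ℕ}

open Classical in
theorem exp_BP {P : Fin n → ℝ × ℝ} (hP : GP P) (r : ℝ) (h0 : 0 ≤ r) (h1 : r ≤ 1) :
    ∑ D : Finset (Fin n), wt r D * ((BP P D).card : ℝ) ≤
      ∑ q ∈ T P, ww (n - 2) r (lev P q) := by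
  have e1 : ∀ q ∈ T P, ww (n - 2) r (lev P q) =
      ∑ D : Finset (Fin n), (if (lowSet P q \ D).card = (highSet P q \ D).card
        then wt r D else 0) := by
    intro q hq
    have h := low_high_card hP (mem_T.mp hq)
    rw [lev_eq]
    exact (balance (low_high_disjoint (mem_T.mp hq)) r (by omega)).symm
  rw [sum_congr rfl e1, sum_comm]
  apply sum_le_sum
  intro D _
  have e2 : ∑ q ∈ T P, (if (lowSet P q \ D).card = (highSet P q \ D).card then wt r D else 0) =
      wt r D * (((T P).filter (fun q => (lowSet P q \ D).card =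
        (highSet P q \ D).card)).card : ℝ) := by
    rw [← sum_filter, sum_const, nsmul_eq_mul, mul_comm]
  rw [e2]
  apply mul_le_mul_of_nonneg_left _ (wt_nonneg h0 h1 D)
  have : (BP P D).card ≤ ((T P).filter (fun q => (lowSet P q \ D).card =
        (highSet P q \ D).card)).card := by
    unfold BP
    apply card_le_card
    intro q hq
    rw [mem_filter] at hq ⊢
    exact ⟨hq.1, hq.2.2⟩
  exact_mod_cast this

theorem rand_bound {P : Fin n → ℝ × ℝ} (hP : GP P) (hn : 3 ≤ n) {r : ℝ} (h0 : 0 < r)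
    (h1 : r ≤ 1 / 2) :
    ∑ D : Finset (Fin n), wt r D * ((BP P D).card : ℝ) ≤
      250 * (n : ℝ) ^ (7 / 6 : ℝ) / r ^ (1 / 6 : ℝ) := by
  have hn0 : (0 : ℝ) < n := by
    have : 0 < n := by omega
    exact_mod_cast this
  have hn3 : (3 : ℝ) ≤ n := by exact_mod_cast hn
  refine (exp_BP hP r h0.le (by linarith)).trans ?_
  have hcast : ((n - 2 : ℕ) : ℝ) = n - 2 := by
    rw [Nat.cast_sub (by omega)]
    norm_num
  set M : ℝ := 4 / Real.sqrt (r * ((n - 2 : ℕ) : ℝ) / 2) with hM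
  have hpos : 0 < r * ((n - 2 : ℕ) : ℝ) / 2 := by
    rw [hcast]
    have : 0 < (n : ℝ) - 2 := by linarith
    positivity
  have hM0 : 0 < M := by
    have := Real.sqrt_pos.mpr hpos
    positivity
  have h := sum_below hP (w := ww (n - 2) r) (M := M) (J := n + 1) (by omega) hM0
    (fun j _ => ww_nonneg _ _ h0.le (by linarith))
    (fun j _ => ww_sup h0 h1 (by omega)) (ww_sum _ _ h0.le h1)
  rw [EW_all P le_rfl] at h
  refine h.trans ?_
  have hM1 : M ≤ 10 / (Real.sqrt r * Real.sqrt n) := by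
    rw [hM, ← Real.sqrt_mul h0.le]
    have e : (10 : ℝ) / Real.sqrt (r * n) = 4 / Real.sqrt (r * n * (4 / 25)) := by
      rw [show (4 / 25 : ℝ) = (2 / 5) ^ 2 by norm_num, Real.sqrt_mul (by positivity) ((2 / 5) ^ 2),
        Real.sqrt_sq (by norm_num)]
      have : Real.sqrt (r * n) ≠ 0 := (Real.sqrt_pos.mpr (by positivity)).ne'
      field_simp
      norm_num
    rw [e]
    apply div_le_div_of_nonneg_left (by norm_num) (Real.sqrt_pos.mpr (by positivity))
    apply Real.sqrt_le_sqrt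
    rw [hcast]
    nlinarith
  have hs : 0 < Real.sqrt r := Real.sqrt_pos.mpr h0
  have hsn : 0 < Real.sqrt n := Real.sqrt_pos.mpr hn0
  have key : ((n + 1 : ℕ) : ℝ) ^ (1 / 3 : ℝ) * M ^ (1 / 3 : ℝ) ≤
      2.75 * ((n : ℝ) ^ (1 / 6 : ℝ) / r ^ (1 / 6 : ℝ)) := by
    rw [← Real.mul_rpow (by positivity) hM0.le]
    have h2 : ((n + 1 : ℕ) : ℝ) * M ≤ 20 * (Real.sqrt n / Real.sqrt r) := by
      have h3 : ((n + 1 : ℕ) : ℝ) ≤ 2 * n := by
        push_cast
        linarith
      calc ((n + 1 : ℕ) : ℝ) * M ≤ (2 * n) * (10 / (Real.sqrt r * Real.sqrt n)) := by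
            apply mul_le_mul h3 hM1 hM0.le (by positivity)
        _ = 20 * ((Real.sqrt n * Real.sqrt n) / (Real.sqrt r * Real.sqrt n)) := by
            rw [Real.mul_self_sqrt hn0.le]; ring
        _ = 20 * (Real.sqrt n / Real.sqrt r) := by
            congr 1
            field_simp
    have h4 : (20 : ℝ) ^ (1 / 3 : ℝ) ≤ 2.75 := by
      rw [show (1 / 3 : ℝ) = (3 : ℝ)⁻¹ by norm_num, Real.rpow_inv_le_iff_of_pos (by norm_num)
        (by norm_num) (by norm_num)]
      norm_num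
    calc (((n + 1 : ℕ) : ℝ) * M) ^ (1 / 3 : ℝ) ≤
          (20 * (Real.sqrt n / Real.sqrt r)) ^ (1 / 3 : ℝ) :=
          Real.rpow_le_rpow (by positivity) h2 (by norm_num)
      _ = 20 ^ (1 / 3 : ℝ) * ((n : ℝ) ^ (1 / 6 : ℝ) / r ^ (1 / 6 : ℝ)) := by
          rw [Real.mul_rpow (by norm_num) (by positivity), Real.div_rpow hsn.le hs.le,
            Real.sqrt_eq_rpow, Real.sqrt_eq_rpow, ← Real.rpow_mul hn0.le, ← Real.rpow_mul h0.le]
          norm_num
      _ ≤ _ := by
          apply mul_le_mul_of_nonneg_right h4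
          positivity
  have e3 : (n : ℝ) * (n : ℝ) ^ (1 / 6 : ℝ) = (n : ℝ) ^ (7 / 6 : ℝ) := by
    nth_rewrite 1 [← Real.rpow_one (n : ℝ)]
    rw [← Real.rpow_add hn0]
    norm_num
  calc 90 * (n : ℝ) * (((n + 1 : ℕ) : ℝ) ^ (1 / 3 : ℝ) * M ^ (1 / 3 : ℝ)) ≤
        90 * (n : ℝ) * (2.75 * ((n : ℝ) ^ (1 / 6 : ℝ) / r ^ (1 / 6 : ℝ))) := by gcongr
    _ = 247.5 * ((n : ℝ) * (n : ℝ) ^ (1 / 6 : ℝ)) / r ^ (1 / 6 : ℝ) := by ring
    _ = 247.5 * (n : ℝ) ^ (7 / 6 : ℝ) / r ^ (1 / 6 : ℝ) := by rw [e3]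
    _ ≤ _ := by
        apply div_le_div_of_nonneg_right _ (by positivity)
        have : 0 ≤ (n : ℝ) ^ (7 / 6 : ℝ) := by positivity
        linarith

open Classical in
theorem random_aux {P : Finset (ℝ × ℝ)} {P0 P1 : Fin n → ℝ × ℝ} (hinj : Function.Injective P0)
    (him : univ.image P0 = P) (hGP : GP P1)
    (hsgn : ∀ i j k, i ≠ j → i ≠ k → j ≠ k →
        0 < ori (P0 i) (P0 j) (P0 k) * ori (P1 i) (P1 j) (P1 k)) {r : ℝ} (h0 : 0 < r)
    (h1 : r ≤ 1 / 2) :
    ∑ R ∈ P.powerset, (1 - r) ^ R.card * r ^ (n - R.card) *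
      (({L | IsBisector R L}.ncard : ℕ) : ℝ) ≤
      250 * (n : ℝ) ^ (7 / 6 : ℝ) / r ^ (1 / 6 : ℝ) := by
  have hsum : ∀ F : Finset (ℝ × ℝ) → ℝ,
      ∑ R ∈ P.powerset, F R = ∑ D : Finset (Fin n), F (Dᶜ.image P0) := by
    intro F
    symm
    apply sum_nbij (fun D : Finset (Fin n) => Dᶜ.image P0)
    · intro D _
      rw [mem_powerset, ← him]
      exact image_subset_image (subset_univ _)
    · intro D _ D' _ h
      exact compl_injective (image_injective hinj h)
    · intro R hR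
      rw [mem_coe, mem_powerset] at hR
      refine ⟨univ.filter (fun i => P0 i ∉ R), mem_coe.mpr (mem_univ _), ?_⟩
      simp only
      ext p
      simp only [mem_image, mem_compl, mem_filter, mem_univ, true_and, not_not]
      constructor
      · rintro ⟨i, hi, rfl⟩
        exact hi
      · intro hp
        have hpP := hR hp
        rw [← him, mem_image] at hpP
        obtain ⟨i, -, rfl⟩ := hpP
        exact ⟨i, hp, rfl⟩
    · intro D _
      rfl
  rw [hsum]
  have hcard : ∀ D : Finset (Fin n), (Dᶜ.image P0).card = n - D.card := by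
    intro D
    rw [card_image_of_injective _ hinj, card_compl, Fintype.card_fin]
  have hDn : ∀ D : Finset (Fin n), D.card ≤ n := fun D => by
    simpa using card_le_card (subset_univ D)
  have hw : ∀ D : Finset (Fin n), (1 - r) ^ (Dᶜ.image P0).card * r ^ (n - (Dᶜ.image P0).card) =
      wt r D := by
    intro D
    unfold wt
    rw [hcard]
    have : n - (n - D.card) = D.card := by
      have := hDn D
      omega
    rw [this, mul_comm]
  simp only [hw]
  have hwn : ∀ D : Finset (Fin n), 0 ≤ wt r D := fun D => wt_nonneg h0.le (by linarith) D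
  rcases Nat.lt_or_ge n 3 with h | h
  · have hle : ∀ D : Finset (Fin n),
        wt r D * (({L | IsBisector (Dᶜ.image P0) L}.ncard : ℕ) : ℝ) ≤ wt r D * (2 * n) := by
      intro D
      apply mul_le_mul_of_nonneg_left _ (hwn D)
      have h2 := bisectors_ncard_le (Dᶜ.image P0)
      rw [hcard] at h2
      have h3 : (n - D.card) * (n - D.card) ≤ 2 * n := by
        calc (n - D.card) * (n - D.card) ≤ n * n := Nat.mul_le_mul (Nat.sub_le _ _) (Nat.sub_le _ _)
          _ ≤ 2 * n := Nat.mul_le_mul_right _ (by omega)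
      exact_mod_cast h2.trans h3
    refine (sum_le_sum (fun D _ => hle D)).trans ?_
    rw [← sum_mul, sum_wt, one_mul]
    rcases Nat.eq_zero_or_pos n with h4 | h4
    · rw [h4]
      norm_num
    · have h5 : (1 : ℝ) ≤ n := by exact_mod_cast h4
      have h6 : (n : ℝ) ≤ (n : ℝ) ^ (7 / 6 : ℝ) := by
        nth_rewrite 1 [← Real.rpow_one (n : ℝ)]
        exact Real.rpow_le_rpow_of_exponent_le h5 (by norm_num)
      have h7 : r ^ (1 / 6 : ℝ) ≤ 1 := Real.rpow_le_one h0.le (by linarith) (by norm_num)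
      have h8 : 0 < r ^ (1 / 6 : ℝ) := Real.rpow_pos_of_pos h0 _
      rw [le_div_iff₀ h8]
      nlinarith
  · refine le_trans (sum_le_sum (fun D _ => ?_)) (rand_bound hGP h h0 h1)
    apply mul_le_mul_of_nonneg_left _ (hwn D)
    exact_mod_cast bis_le hinj hGP hsgn D

/-- **Random subsets.** -/
theorem random_subsets (P : Finset (ℝ × ℝ)) (hP : GeneralPosition P) {r : ℝ} (h0 : 0 < r)
    (h1 : r ≤ 1 / 2) :
    ∑ R ∈ P.powerset, (1 - r) ^ R.card * r ^ (P.card - R.card) *
      (({L | IsBisector R L}.ncard : ℕ) : ℝ) ≤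
      250 * (P.card : ℝ) ^ (7 / 6 : ℝ) / r ^ (1 / 6 : ℝ) := by
  classical
  obtain ⟨P0, P1, hinj, him, hGP, hsgn⟩ := exists_model P hP
  exact random_aux hinj him hGP hsgn h0 h1

end Pool.Agent.Helper889_Halv
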