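import Pool.Agent.Helper889_Halv.Rand

/-! The expected number of halving lines of a random subset, for every density. -/

set_option autoImplicit false

namespace Pool.Agent.Helper889_Halv

open Finset Polynomial Pool.Agent.Y344.KD Pool.Agent.H189R2.Iid KLev.Halving

/-- the survival of a set `Q` and the numbers of survivors in two other sets are independent -/
theorem marg3 {n : ℕ} {S S' Q : Finset (Fin n)} (hd : Disjoint S S') (hQ : Disjoint Q S)
    (hQ' : Disjoint Q S') (k k' : ℕ) (r : ℝ) :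
    ∑ D : Finset (Fin n), (if (Disjoint Q D ∧ (S \ D).card = k ∧ (S' \ D).card = k')
      then wt r D else 0) = (1 - r) ^ Q.card * (bb k S.card r * bb k' S'.card r) := by
  have h1 := Fintype.prod_add (fun l : Fin n => (if l ∈ Q then 0 else C (C r) : ℝ[X][X]))
    (fun l => C (C (1 - r)) * (if l ∈ S then C X else if l ∈ S' then X else 1))
  have h2 : ∏ l : Fin n, ((if l ∈ Q then 0 else C (C r) : ℝ[X][X]) +
      C (C (1 - r)) * (if l ∈ S then C X else if l ∈ S' then X else 1)) =
      C (C ((1 - r) ^ Q.card)) *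
      (C ((C (1 - r) * X + C r) ^ S.card) * ((C (1 - r) * X + C r) ^ S'.card : ℝ[X]).map C) := by
    have e : ∀ l : Fin n, ((if l ∈ Q then 0 else C (C r) : ℝ[X][X]) +
        C (C (1 - r)) * (if l ∈ S then C X else if l ∈ S' then X else 1)) =
        (if l ∈ Q then C (C (1 - r)) else 1) * ((if l ∈ S then C (C (1 - r) * X + C r) else 1) *
          (if l ∈ S' then (C (C (1 - r)) * X + C (C r)) else 1)) := by
      intro l
      by_cases hq : l ∈ Q
      · have h : l ∉ S := fun h => disjoint_left.mp hQ hq h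
        have h' : l ∉ S' := fun h => disjoint_left.mp hQ' hq h
        rw [if_pos hq, if_pos hq, if_neg h, if_neg h, if_neg h', if_neg h']
        ring
      rw [if_neg hq, if_neg hq, one_mul]
      by_cases h : l ∈ S
      · have h' : l ∉ S' := fun h' => disjoint_left.mp hd h h'
        rw [if_pos h, if_pos h, if_neg h', mul_one, C_add, C_mul]
        ring
      · rw [if_neg h, if_neg h, one_mul]
        by_cases h' : l ∈ S'
        · rw [if_pos h', if_pos h']
          ring
        · rw [if_neg h', if_neg h', mul_one, ← C_add, ← C_add]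
          norm_num
    rw [prod_congr rfl (fun l _ => e l), prod_mul_distrib, prod_mul_distrib, prod_ite, prod_ite,
      prod_ite]
    simp only [prod_const, one_pow, mul_one]
    have f1 : (univ.filter (fun l => l ∈ S)) = S := by ext l; simp
    have f2 : (univ.filter (fun l => l ∈ S')) = S' := by ext l; simp
    have f3 : (univ.filter (fun l => l ∈ Q)) = Q := by ext l; simp
    rw [f1, f2, f3, C_pow, C_pow, C_pow, Polynomial.map_pow]
    congr 3
    simp
  have h3 : ∀ D : Finset (Fin n), (∏ l ∈ D, (if l ∈ Q then 0 else C (C r) : ℝ[X][X])) *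
      ∏ l ∈ Dᶜ, (C (C (1 - r)) * (if l ∈ S then C X else if l ∈ S' then X else 1)) =
      if Disjoint Q D then C (C (wt r D) * X ^ (S \ D).card) * X ^ (S' \ D).card else 0 := by
    intro D
    by_cases hQD : Disjoint Q D
    swap
    · rw [if_neg hQD]
      rw [not_disjoint_iff] at hQD
      obtain ⟨l, hl, hl'⟩ := hQD
      rw [prod_eq_zero hl' (by rw [if_pos hl]), zero_mul]
    rw [if_pos hQD]
    have e0 : ∀ l ∈ D, (if l ∈ Q then 0 else C (C r) : ℝ[X][X]) = C (C r) := by
      intro l hl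
      rw [if_neg (fun h => disjoint_left.mp hQD h hl)]
    rw [prod_congr rfl e0]
    have e1 : ∀ l : Fin n, (C (C (1 - r)) * (if l ∈ S then C X else if l ∈ S' then X else 1)
        : ℝ[X][X]) = C (C (1 - r)) * ((if l ∈ S then C X else 1) * (if l ∈ S' then X else 1)) := by
      intro l
      by_cases h : l ∈ S
      · have h' : l ∉ S' := fun h' => disjoint_left.mp hd h h'
        rw [if_pos h, if_pos h, if_neg h', mul_one]
      · rw [if_neg h, if_neg h, one_mul]
    rw [prod_congr rfl (fun l _ => e1 l), prod_mul_distrib, prod_mul_distrib, prod_ite, prod_ite]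
    simp only [prod_const, one_pow, mul_one]
    have e2 : Dᶜ.filter (fun l => l ∈ S) = S \ D := by
      ext l
      simp only [mem_filter, mem_compl, mem_sdiff]
      tauto
    have e3 : Dᶜ.filter (fun l => l ∈ S') = S' \ D := by
      ext l
      simp only [mem_filter, mem_compl, mem_sdiff]
      tauto
    rw [e2, e3, card_compl, Fintype.card_fin]
    unfold wt
    rw [C_mul, C_mul, C_mul, C_pow, C_pow, C_pow, C_pow, C_pow]
    ring
  rw [h2] at h1
  simp only [h3] at h1
  have h4 := congrArg (fun p : ℝ[X][X] => (p.coeff k').coeff k) h1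
  have h5 : ∀ D : Finset (Fin n), ((if Disjoint Q D then
      C (C (wt r D) * X ^ (S \ D).card) * X ^ (S' \ D).card else 0 :
      ℝ[X][X]).coeff k') = if Disjoint Q D then (if k' = (S' \ D).card then
        (C (wt r D) * X ^ (S \ D).card) else 0) else 0 := by
    intro D
    split_ifs with h h'
    · rw [coeff_C_mul_X_pow, if_pos h']
    · rw [coeff_C_mul_X_pow, if_neg h']
    · rfl
  simp only [finsetSum_coeff, h5] at h4
  rw [coeff_C_mul, coeff_C_mul, coeff_C_mul, coeff_map, coeff_mul_C, coeff_lin_pow,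
    coeff_lin_pow] at h4
  rw [h4]
  apply sum_congr rfl
  intro D _
  by_cases a0 : Disjoint Q D
  swap
  · rw [if_neg (fun h => a0 h.1), if_neg a0, coeff_zero]
  rw [if_pos a0]
  by_cases a1 : (S' \ D).card = k'
  · by_cases a2 : (S \ D).card = k
    · rw [if_pos ⟨a0, a2, a1⟩, if_pos a1.symm, coeff_C_mul_X_pow, if_pos a2.symm]
    · rw [if_neg (fun h => a2 h.2.1), if_pos a1.symm, coeff_C_mul_X_pow,
        if_neg (fun h => a2 h.symm)]
  · rw [if_neg (fun h => a1 h.2.2), if_neg (fun h => a1 h.symm), coeff_zero]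

theorem balance3 {n : ℕ} {S S' Q : Finset (Fin n)} (hd : Disjoint S S') (hQ : Disjoint Q S)
    (hQ' : Disjoint Q S') (r : ℝ) {N : ℕ} (hN : S.card + S'.card = N) :
    ∑ D : Finset (Fin n), (if (Disjoint Q D ∧ (S \ D).card = (S' \ D).card) then wt r D else 0) =
      (1 - r) ^ Q.card * ww N r S.card := by
  unfold ww
  rw [if_pos (by omega)]
  have e : N - S.card = S'.card := by omega
  rw [e, mul_sum]
  simp_rw [← marg3 hd hQ hQ']
  rw [sum_comm]
  apply sum_congr rfl
  intro D _
  have hle : (S \ D).card ≤ N := (card_le_card sdiff_subset).trans (by omega)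
  by_cases h : Disjoint Q D ∧ (S \ D).card = (S' \ D).card
  · rw [if_pos h, sum_eq_single (S \ D).card]
    · rw [if_pos ⟨h.1, rfl, h.2.symm⟩]
    · intro k _ hk
      rw [if_neg (fun hh => hk hh.2.1.symm)]
    · intro hh
      exact absurd (mem_range.mpr (by omega)) hh
  · rw [if_neg h]
    symm
    apply sum_eq_zero
    intro k _
    rw [if_neg (fun hh => h ⟨hh.1, by rw [hh.2.1, hh.2.2]⟩)]

theorem bb_symm {k j : ℕ} (h : k ≤ j) (r : ℝ) : bb k j r = bb (j - k) j (1 - r) := by
  unfold bb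
  rw [Nat.choose_symm h, Nat.sub_sub_self h]
  ring

theorem bb_sup2 {k j : ℕ} {r : ℝ} (h0 : 0 < r) (h1 : r < 1) (hj : 1 ≤ j) :
    bb k j r ≤ 4 / Real.sqrt (r * (1 - r) * j) := by
  have hj0 : (0 : ℝ) < j := by exact_mod_cast hj
  have hr1 : 0 < 1 - r := by linarith
  rcases le_total r (1 / 2) with h | h
  · refine (bb_sup h0 h hj).trans ?_
    apply div_le_div_of_nonneg_left (by norm_num) (Real.sqrt_pos.mpr (by positivity))
    apply Real.sqrt_le_sqrt
    nlinarith [mul_pos h0 hj0]
  · rcases Nat.lt_or_ge j k with h' | h'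
    · rw [bb_zero h']
      positivity
    · rw [bb_symm h']
      refine (bb_sup hr1 (by linarith) hj).trans ?_
      apply div_le_div_of_nonneg_left (by norm_num) (Real.sqrt_pos.mpr (by positivity))
      apply Real.sqrt_le_sqrt
      nlinarith [mul_pos hr1 hj0]

theorem ww_sup2 {N j : ℕ} {r : ℝ} (hr : 0 < r) (hr1' : r < 1) (hN : 1 ≤ N) :
    ww N r j ≤ 4 / Real.sqrt (r * (1 - r) * N / 2) := by
  have hr1 : r ≤ 1 := hr1'.le
  have hr1'' : 0 < 1 - r := by linarith
  have hNr : (0 : ℝ) < N := by exact_mod_cast hN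
  unfold ww
  split_ifs with hj
  swap
  · positivity
  have key : ∀ i : ℕ, N ≤ 2 * i → ∀ k, bb k i r ≤ 4 / Real.sqrt (r * (1 - r) * N / 2) := by
    intro i hi k
    refine (bb_sup2 hr hr1' (by omega)).trans ?_
    have hi' : (N : ℝ) ≤ 2 * i := by exact_mod_cast hi
    apply div_le_div_of_nonneg_left (by norm_num) (Real.sqrt_pos.mpr (by positivity))
    apply Real.sqrt_le_sqrt
    nlinarith [mul_pos hr hr1'']
  rcases Nat.lt_or_ge (2 * j) N with h | h
  · calc ∑ k ∈ range (N + 1), bb k j r * bb k (N - j) r ≤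
          ∑ k ∈ range (N + 1), bb k j r * (4 / Real.sqrt (r * (1 - r) * N / 2)) := by
          apply sum_le_sum
          intro k _
          exact mul_le_mul_of_nonneg_left (key (N - j) (by omega) k) (bb_nonneg _ _ hr.le hr1)
      _ = (∑ k ∈ range (N + 1), bb k j r) * (4 / Real.sqrt (r * (1 - r) * N / 2)) := by rw [sum_mul]
      _ ≤ 1 * (4 / Real.sqrt (r * (1 - r) * N / 2)) :=
          mul_le_mul_of_nonneg_right (bb_row _ _ hr.le hr1) (by positivity)
      _ = _ := one_mul _
  · calc ∑ k ∈ range (N + 1), bb k j r * bb k (N - j) r ≤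
          ∑ k ∈ range (N + 1), (4 / Real.sqrt (r * (1 - r) * N / 2)) * bb k (N - j) r := by
          apply sum_le_sum
          intro k _
          exact mul_le_mul_of_nonneg_right (key j h k) (bb_nonneg _ _ hr.le hr1)
      _ = (4 / Real.sqrt (r * (1 - r) * N / 2)) * ∑ k ∈ range (N + 1), bb k (N - j) r := by
          rw [mul_sum]
      _ ≤ (4 / Real.sqrt (r * (1 - r) * N / 2)) * 1 :=
          mul_le_mul_of_nonneg_left (bb_row _ _ hr.le hr1) (by positivity)
      _ = _ := mul_one _

theorem ww_sum2 (N J : ℕ) {r : ℝ} (hr : 0 ≤ r) (hr1 : r ≤ 1) :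
    (1 - r) * ∑ j ∈ range J, ww N r j ≤ 1 := by
  have hs : 0 ≤ 1 - r := by linarith
  have h1 : ∑ j ∈ range J, ww N r j ≤ ∑ j ∈ range (N + 1 + J), ww N r j :=
    sum_le_sum_of_subset_of_nonneg (range_subset_range.mpr (by omega))
      (fun j _ _ => ww_nonneg N j hr hr1)
  have h2 : ∑ j ∈ range (N + 1 + J), ww N r j =
      ∑ j ∈ range (N + 1), ∑ k ∈ range (N + 1), bb k j r * bb k (N - j) r := by
    rw [sum_range_add]
    have : ∑ i ∈ range J, ww N r (N + 1 + i) = 0 := by
      apply sum_eq_zero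
      intro i _
      unfold ww
      rw [if_neg (by omega)]
    rw [this, add_zero]
    apply sum_congr rfl
    intro j hj
    rw [mem_range] at hj
    unfold ww
    rw [if_pos (by omega)]
  have h3 : ∀ k, ∑ j ∈ range (N + 1), bb k j r * bb k (N - j) r =
      ((N + 1).choose (2 * k + 1) : ℝ) * ((1 - r) ^ (2 * k) * r ^ (N - 2 * k)) := by
    intro k
    have h4 : ∀ j ∈ range (N + 1), bb k j r * bb k (N - j) r =
        ((j.choose k * (N - j).choose k : ℕ) : ℝ) * ((1 - r) ^ (2 * k) * r ^ (N - 2 * k)) := by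
      intro j hj
      rw [mem_range] at hj
      rcases Nat.lt_or_ge j k with h | h
      · rw [bb_zero h, Nat.choose_eq_zero_of_lt h]
        simp
      rcases Nat.lt_or_ge (N - j) k with h' | h'
      · rw [bb_zero h', Nat.choose_eq_zero_of_lt h']
        simp
      unfold bb
      have e : r ^ (N - 2 * k) = r ^ (j - k) * r ^ (N - j - k) := by
        rw [← pow_add]
        congr 1
        omega
      rw [e, two_mul, pow_add]
      push_cast
      ring
    rw [sum_congr rfl h4, ← sum_mul, ← Nat.cast_sum, choose_conv]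
    congr 3
    ring
  have h5 : (1 - r) * ∑ j ∈ range (N + 1), ∑ k ∈ range (N + 1), bb k j r * bb k (N - j) r ≤ 1 := by
    rw [sum_comm, mul_sum]
    calc ∑ k ∈ range (N + 1), (1 - r) * ∑ j ∈ range (N + 1), bb k j r * bb k (N - j) r =
          ∑ k ∈ range (N + 1), bb (2 * k + 1) (N + 1) r := by
          apply sum_congr rfl
          intro k _
          rw [h3]
          unfold bb
          have e : N + 1 - (2 * k + 1) = N - 2 * k := by omega
          rw [e]
          ring
      _ = ∑ m ∈ (range (N + 1)).image (fun k => 2 * k + 1), bb m (N + 1) r := by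
          rw [sum_image]
          intro a _ b _ h
          simp only at h
          omega
      _ ≤ ∑ m ∈ range (2 * N + 2), bb m (N + 1) r := by
          apply sum_le_sum_of_subset_of_nonneg
          · intro m hm
            rw [mem_image] at hm
            obtain ⟨k, hk, rfl⟩ := hm
            rw [mem_range] at hk ⊢
            omega
          · intro m _ _
            exact bb_nonneg _ _ hr hr1
      _ ≤ 1 := bb_row _ _ hr hr1
  refine le_trans (mul_le_mul_of_nonneg_left h1 hs) ?_
  rw [h2]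
  exact h5


open Classical in
theorem exp_BP2 {n : ℕ} {P : Fin n → ℝ × ℝ} (hP : GP P) (r : ℝ) :
    ∑ D : Finset (Fin n), wt r D * ((BP P D).card : ℝ) =
      (1 - r) ^ 2 * ∑ q ∈ T P, ww (n - 2) r (lev P q) := by
  have e1 : ∀ q ∈ T P, (1 - r) ^ 2 * ww (n - 2) r (lev P q) =
      ∑ D : Finset (Fin n), (if ((q.1 ∉ D ∧ q.2 ∉ D) ∧
        (lowSet P q \ D).card = (highSet P q \ D).card) then wt r D else 0) := by
    intro q hq
    have hlt := mem_T.mp hq
    have h := low_high_card hP hlt
    have hne : q.1 ≠ q.2 := by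
      intro h
      rw [h] at hlt
      exact lt_irrefl _ hlt
    have hQ : Disjoint ({q.1, q.2} : Finset (Fin n)) (lowSet P q) := by
      rw [disjoint_left]
      intro l hl hl'
      rw [mem_insert, mem_singleton] at hl
      rw [mem_low hlt] at hl'
      rcases hl with rfl | rfl
      · rw [ori_left] at hl'; exact lt_irrefl _ hl'
      · rw [ori_right] at hl'; exact lt_irrefl _ hl'
    have hQ' : Disjoint ({q.1, q.2} : Finset (Fin n)) (highSet P q) := by
      rw [disjoint_left]
      intro l hl hl'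
      rw [mem_insert, mem_singleton] at hl
      rw [mem_high] at hl'
      rcases hl with rfl | rfl
      · rw [ori_left] at hl'; exact lt_irrefl _ hl'
      · rw [ori_right] at hl'; exact lt_irrefl _ hl'
    have hb := balance3 (low_high_disjoint hlt) hQ hQ' r (N := n - 2) (by omega)
    rw [card_pair hne] at hb
    rw [lev_eq, ← hb]
    apply sum_congr rfl
    intro D _
    have hiff : (Disjoint ({q.1, q.2} : Finset (Fin n)) D ∧ (lowSet P q \ D).card =
        (highSet P q \ D).card) ↔ ((q.1 ∉ D ∧ q.2 ∉ D) ∧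
        (lowSet P q \ D).card = (highSet P q \ D).card) := by
      rw [disjoint_insert_left, disjoint_singleton_left]
    simp only [hiff]
  rw [mul_sum, sum_congr rfl e1, sum_comm]
  apply sum_congr rfl
  intro D _
  unfold BP
  rw [← sum_filter, sum_const, nsmul_eq_mul, mul_comm]

theorem rand_bound2 {n : ℕ} {P : Fin n → ℝ × ℝ} (hP : GP P) (hn : 3 ≤ n) {r : ℝ} (h0 : 0 < r)
    (h1 : r < 1) :
    ∑ D : Finset (Fin n), wt r D * ((BP P D).card : ℝ) ≤
      250 * ((1 - r) * n) ^ (7 / 6 : ℝ) / r ^ (1 / 6 : ℝ) := by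
  have hn0 : (0 : ℝ) < n := by
    have : 0 < n := by omega
    exact_mod_cast this
  have hn3 : (3 : ℝ) ≤ n := by exact_mod_cast hn
  have hp : 0 < 1 - r := by linarith
  rw [exp_BP2 hP r]
  have hcast : ((n - 2 : ℕ) : ℝ) = n - 2 := by
    rw [Nat.cast_sub (by omega)]
    norm_num
  set M : ℝ := (1 - r) * (4 / Real.sqrt (r * (1 - r) * ((n - 2 : ℕ) : ℝ) / 2)) with hM
  have hpos : 0 < r * (1 - r) * ((n - 2 : ℕ) : ℝ) / 2 := by
    rw [hcast]
    have : 0 < (n : ℝ) - 2 := by linarith
    positivity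
  have hM0 : 0 < M := by
    have := Real.sqrt_pos.mpr hpos
    positivity
  have h := sum_below hP (w := fun j => (1 - r) * ww (n - 2) r j) (M := M) (J := n + 1)
    (by omega) hM0
    (fun j _ => mul_nonneg hp.le (ww_nonneg _ _ h0.le h1.le))
    (fun j _ => mul_le_mul_of_nonneg_left (ww_sup2 h0 h1 (by omega)) hp.le) (by
      rw [← mul_sum]
      linarith [ww_sum2 (n - 2) (n + 1) h0.le h1.le])
  rw [EW_all P le_rfl, ← mul_sum] at h
  have hs : 0 < Real.sqrt r := Real.sqrt_pos.mpr h0
  have hpn : 0 < (1 - r) * n := by positivity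
  have hsn : 0 < Real.sqrt ((1 - r) * n) := Real.sqrt_pos.mpr hpn
  have hM1 : M ≤ (1 - r) * (10 / (Real.sqrt r * Real.sqrt ((1 - r) * n))) := by
    rw [hM, ← Real.sqrt_mul h0.le]
    apply mul_le_mul_of_nonneg_left _ hp.le
    have e : (10 : ℝ) / Real.sqrt (r * ((1 - r) * n)) =
        4 / Real.sqrt (r * ((1 - r) * n) * (4 / 25)) := by
      rw [show (4 / 25 : ℝ) = (2 / 5) ^ 2 by norm_num, Real.sqrt_mul (by positivity) ((2 / 5) ^ 2),
        Real.sqrt_sq (by norm_num)]
      have : Real.sqrt (r * ((1 - r) * n)) ≠ 0 := (Real.sqrt_pos.mpr (by positivity)).ne'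
      field_simp
      norm_num
    rw [e]
    apply div_le_div_of_nonneg_left (by norm_num) (Real.sqrt_pos.mpr (by positivity))
    apply Real.sqrt_le_sqrt
    rw [hcast]
    have : 0 < r * (1 - r) := by positivity
    nlinarith
  have key : ((n + 1 : ℕ) : ℝ) ^ (1 / 3 : ℝ) * M ^ (1 / 3 : ℝ) ≤
      2.75 * (((1 - r) * n) ^ (1 / 6 : ℝ) / r ^ (1 / 6 : ℝ)) := by
    rw [← Real.mul_rpow (by positivity) hM0.le]
    have h2 : ((n + 1 : ℕ) : ℝ) * M ≤ 20 * (Real.sqrt ((1 - r) * n) / Real.sqrt r) := by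
      have h3 : ((n + 1 : ℕ) : ℝ) ≤ 2 * n := by
        push_cast
        linarith
      calc ((n + 1 : ℕ) : ℝ) * M ≤
            (2 * n) * ((1 - r) * (10 / (Real.sqrt r * Real.sqrt ((1 - r) * n)))) := by
            apply mul_le_mul h3 hM1 hM0.le (by positivity)
        _ = 20 * (((1 - r) * n) / (Real.sqrt r * Real.sqrt ((1 - r) * n))) := by ring
        _ = 20 * ((Real.sqrt ((1 - r) * n) * Real.sqrt ((1 - r) * n)) /
              (Real.sqrt r * Real.sqrt ((1 - r) * n))) := by
            rw [Real.mul_self_sqrt hpn.le]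
        _ = 20 * (Real.sqrt ((1 - r) * n) / Real.sqrt r) := by
            congr 1
            field_simp
    have h4 : (20 : ℝ) ^ (1 / 3 : ℝ) ≤ 2.75 := by
      rw [show (1 / 3 : ℝ) = (3 : ℝ)⁻¹ by norm_num, Real.rpow_inv_le_iff_of_pos (by norm_num)
        (by norm_num) (by norm_num)]
      norm_num
    calc (((n + 1 : ℕ) : ℝ) * M) ^ (1 / 3 : ℝ) ≤
          (20 * (Real.sqrt ((1 - r) * n) / Real.sqrt r)) ^ (1 / 3 : ℝ) :=
          Real.rpow_le_rpow (by positivity) h2 (by norm_num)
      _ = 20 ^ (1 / 3 : ℝ) * (((1 - r) * n) ^ (1 / 6 : ℝ) / r ^ (1 / 6 : ℝ)) := by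
          rw [Real.mul_rpow (by norm_num) (by positivity), Real.div_rpow hsn.le hs.le,
            Real.sqrt_eq_rpow, Real.sqrt_eq_rpow, ← Real.rpow_mul hpn.le, ← Real.rpow_mul h0.le]
          norm_num
      _ ≤ _ := by
          apply mul_le_mul_of_nonneg_right h4
          positivity
  have e3 : ((1 - r) * n) * ((1 - r) * n) ^ (1 / 6 : ℝ) = ((1 - r) * n) ^ (7 / 6 : ℝ) := by
    nth_rewrite 1 [← Real.rpow_one ((1 - r) * n)]
    rw [← Real.rpow_add hpn]
    norm_num
  calc (1 - r) ^ 2 * ∑ q ∈ T P, ww (n - 2) r (lev P q) =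
        (1 - r) * ((1 - r) * ∑ q ∈ T P, ww (n - 2) r (lev P q)) := by ring
    _ ≤ (1 - r) * (90 * n * (((n + 1 : ℕ) : ℝ) ^ (1 / 3 : ℝ) * M ^ (1 / 3 : ℝ))) :=
        mul_le_mul_of_nonneg_left h hp.le
    _ ≤ (1 - r) * (90 * n * (2.75 * (((1 - r) * n) ^ (1 / 6 : ℝ) / r ^ (1 / 6 : ℝ)))) := by
        apply mul_le_mul_of_nonneg_left _ hp.le
        apply mul_le_mul_of_nonneg_left key (by positivity)
    _ = 247.5 * (((1 - r) * n) * ((1 - r) * n) ^ (1 / 6 : ℝ)) / r ^ (1 / 6 : ℝ) := by ring
    _ = 247.5 * ((1 - r) * n) ^ (7 / 6 : ℝ) / r ^ (1 / 6 : ℝ) := by rw [e3]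
    _ ≤ _ := by
        apply div_le_div_of_nonneg_right _ (by positivity)
        have : 0 ≤ ((1 - r) * n) ^ (7 / 6 : ℝ) := by positivity
        linarith

theorem rand_bound3 {n : ℕ} {P : Fin n → ℝ × ℝ} (hP : GP P) {r : ℝ} (h0 : 0 < r)
    (h1 : r < 1) :
    ∑ D : Finset (Fin n), wt r D * ((BP P D).card : ℝ) ≤
      250 * ((1 - r) * n) ^ (7 / 6 : ℝ) / r ^ (1 / 6 : ℝ) := by
  rcases Nat.lt_or_ge n 3 with h | h
  swap
  · exact rand_bound2 hP h h0 h1
  have hp : 0 < 1 - r := by linarith
  rw [exp_BP2 hP r]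
  have hT := T_card P
  have h8 : 0 < r ^ (1 / 6 : ℝ) := Real.rpow_pos_of_pos h0 _
  rcases Nat.lt_or_ge n 2 with h' | h'
  · have : (T P).card = 0 := by
      have : n ^ 2 ≤ 1 := by
        have : n ≤ 1 := by omega
        calc n ^ 2 ≤ 1 ^ 2 := Nat.pow_le_pow_left this 2
          _ = 1 := by norm_num
      omega
    rw [card_eq_zero] at this
    rw [this, sum_empty, mul_zero]
    positivity
  · have hn2 : n = 2 := by omega
    have hc : ((T P).card : ℝ) ≤ 2 := by
      have : (T P).card ≤ 2 := by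
        have : n ^ 2 = 4 := by
          have := congrArg (fun z : ℕ => z ^ 2) hn2
          simpa using this
        omega
      exact_mod_cast this
    have hs : ∑ q ∈ T P, ww (n - 2) r (lev P q) ≤ 2 := by
      calc ∑ q ∈ T P, ww (n - 2) r (lev P q) ≤ ∑ _q ∈ T P, (1 : ℝ) :=
            sum_le_sum (fun q _ => ww_le_one _ _ h0.le h1.le)
        _ = (T P).card := by simp
        _ ≤ 2 := hc
    have h6 : (1 - r) ^ 2 ≤ ((1 - r) * n) ^ (7 / 6 : ℝ) := by
      have hn2' : (n : ℝ) = 2 := by exact_mod_cast hn2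
      calc (1 - r) ^ 2 = (1 - r) ^ (2 : ℝ) := by norm_num
        _ ≤ (1 - r) ^ (7 / 6 : ℝ) :=
            Real.rpow_le_rpow_of_exponent_ge hp (by linarith) (by norm_num)
        _ ≤ _ := by
            apply Real.rpow_le_rpow hp.le _ (by norm_num)
            rw [hn2']
            linarith
    have h7 : r ^ (1 / 6 : ℝ) ≤ 1 := Real.rpow_le_one h0.le (by linarith) (by norm_num)
    rw [le_div_iff₀ h8]
    have h9 : 0 ≤ (1 - r) ^ 2 := by positivity
    have h10 : (1 - r) ^ 2 * ∑ q ∈ T P, ww (n - 2) r (lev P q) ≤ (1 - r) ^ 2 * 2 :=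
      mul_le_mul_of_nonneg_left hs h9
    have h11 : 0 ≤ (1 - r) ^ 2 * ∑ q ∈ T P, ww (n - 2) r (lev P q) :=
      mul_nonneg h9 (sum_nonneg (fun q _ => ww_nonneg _ _ h0.le h1.le))
    calc _ ≤ (1 - r) ^ 2 * ∑ q ∈ T P, ww (n - 2) r (lev P q) := mul_le_of_le_one_right h11 h7
      _ ≤ _ := by linarith

open Classical in
theorem random_aux2 {n : ℕ} {P : Finset (ℝ × ℝ)} {P0 P1 : Fin n → ℝ × ℝ}
    (hinj : Function.Injective P0)
    (him : univ.image P0 = P) (hGP : GP P1)
    (hsgn : ∀ i j k, i ≠ j → i ≠ k → j ≠ k →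
        0 < ori (P0 i) (P0 j) (P0 k) * ori (P1 i) (P1 j) (P1 k)) {r : ℝ} (h0 : 0 < r)
    (h1 : r < 1) :
    ∑ R ∈ P.powerset, (1 - r) ^ R.card * r ^ (n - R.card) *
      (({L | IsBisector R L}.ncard : ℕ) : ℝ) ≤
      250 * ((1 - r) * n) ^ (7 / 6 : ℝ) / r ^ (1 / 6 : ℝ) := by
  have hsum : ∀ F : Finset (ℝ × ℝ) → ℝ,
      ∑ R ∈ P.powerset, F R = ∑ D : Finset (Fin n), F (Dᶜ.image P0) := by
    intro F
    symm
    apply sum_nbij (fun D : Finset (Fin n) => Dᶜ.image P0)
    · intro D _
      rw [mem_powerset, ← him]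
      exact image_subset_image (subset_univ _)
    · intro D _ D' _ h
      exact compl_injective (image_injective hinj h)
    · intro R hR
      rw [mem_coe, mem_powerset] at hR
      refine ⟨univ.filter (fun i => P0 i ∉ R), mem_coe.mpr (mem_univ _), ?_⟩
      simp only
      ext p
      simp only [mem_image, mem_compl, mem_filter, mem_univ, true_and, not_not]
      constructor
      · rintro ⟨i, hi, rfl⟩
        exact hi
      · intro hp
        have hpP := hR hp
        rw [← him, mem_image] at hpP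
        obtain ⟨i, -, rfl⟩ := hpP
        exact ⟨i, hp, rfl⟩
    · intro D _
      rfl
  rw [hsum]
  have hcard : ∀ D : Finset (Fin n), (Dᶜ.image P0).card = n - D.card := by
    intro D
    rw [card_image_of_injective _ hinj, card_compl, Fintype.card_fin]
  have hDn : ∀ D : Finset (Fin n), D.card ≤ n := fun D => by
    simpa using card_le_card (subset_univ D)
  have hw : ∀ D : Finset (Fin n), (1 - r) ^ (Dᶜ.image P0).card * r ^ (n - (Dᶜ.image P0).card) =
      wt r D := by
    intro D
    unfold wt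
    rw [hcard]
    have : n - (n - D.card) = D.card := by
      have := hDn D
      omega
    rw [this, mul_comm]
  simp only [hw]
  have hwn : ∀ D : Finset (Fin n), 0 ≤ wt r D := fun D => wt_nonneg h0.le (by linarith) D
  refine le_trans (sum_le_sum (fun D _ => ?_)) (rand_bound3 hGP h0 h1)
  apply mul_le_mul_of_nonneg_left _ (hwn D)
  exact_mod_cast bis_le hinj hGP hsgn D

/-- **Random subsets.** -/
theorem random_subsets2 (P : Finset (ℝ × ℝ)) (hP : GeneralPosition P) {r : ℝ} (h0 : 0 < r)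
    (h1 : r < 1) :
    ∑ R ∈ P.powerset, (1 - r) ^ R.card * r ^ (P.card - R.card) *
      (({L | IsBisector R L}.ncard : ℕ) : ℝ) ≤
      250 * ((1 - r) * P.card) ^ (7 / 6 : ℝ) / r ^ (1 / 6 : ℝ) := by
  classical
  obtain ⟨P0, P1, hinj, him, hGP, hsgn⟩ := exists_model P hP
  exact random_aux2 hinj him hGP hsgn h0 h1

end Pool.Agent.Helper889_Halv
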