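import Pool.Agent.Helper889_Halv.Comb
import Pool.Agent.Helper889_Halv.Rand

/-! Careful deletions, for finite sets of points. -/

set_option autoImplicit false

namespace Pool.Agent.Helper889_Halv

open Finset Pool.Agent.Y344.KD Pool.Agent.H189R2.Iid KLev.Halving

variable {n : ℕ}

open Classical in
theorem careful_aux {P : Finset (ℝ × ℝ)} {P0 P1 : Fin n → ℝ × ℝ} (hinj : Function.Injective P0)
    (him : univ.image P0 = P) (hGP : GP P1)
    (hsgn : ∀ i j k, i ≠ j → i ≠ k → j ≠ k →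
        0 < ori (P0 i) (P0 j) (P0 k) * ori (P1 i) (P1 j) (P1 k)) (hev : Even n)
    {m : ℕ} (hm1 : 1 ≤ m) (hmn : m ≤ n) :
    ∃ R ⊆ P, Even R.card ∧ Even (P \ R).card ∧ (P \ R).card ≤ m ∧ m ≤ 4 * (P \ R).card + 32 ∧
      (({L | IsBisector R L}.ncard : ℕ) : ℝ) ≤
        800 * (n : ℝ) ^ (4 / 3 : ℝ) / (m : ℝ) ^ (1 / 3 : ℝ) ∧
      {L | IsBisector (P \ R) L}.ncard ≤ 34 * m := by
  have hm0 : (0 : ℝ) < m := by exact_mod_cast hm1
  have hn0 : (1 : ℝ) ≤ n := by exact_mod_cast hm1.trans hmn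
  have hmp : 0 < (m : ℝ) ^ (1 / 3 : ℝ) := Real.rpow_pos_of_pos hm0 _
  have hPc : P.card = n := by
    rw [← him, card_image_of_injective _ hinj, card_univ, Fintype.card_fin]
  have e1 : (n : ℝ) * (n : ℝ) ^ (1 / 3 : ℝ) = (n : ℝ) ^ (4 / 3 : ℝ) := by
    nth_rewrite 1 [← Real.rpow_one (n : ℝ)]
    rw [← Real.rpow_add (by linarith)]
    norm_num
  rcases Nat.lt_or_ge n 14 with h | h
  · refine ⟨P, Subset.rfl, ?_, ?_, ?_, ?_, ?_, ?_⟩
    · rw [hPc]; exact hev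
    · rw [sdiff_self]; simp
    · rw [sdiff_self]; simp
    · omega
    · have h1 := bisectors_ncard_le P
      rw [hPc] at h1
      have h2 : n * n ≤ 14 * n := Nat.mul_le_mul_right _ (by omega)
      have h3 : (({L | IsBisector P L}.ncard : ℕ) : ℝ) ≤ 14 * n := by
        exact_mod_cast h1.trans h2
      rw [le_div_iff₀ hmp, ← e1]
      have h4 : (m : ℝ) ^ (1 / 3 : ℝ) ≤ (n : ℝ) ^ (1 / 3 : ℝ) :=
        Real.rpow_le_rpow hm0.le (by exact_mod_cast hmn) (by norm_num)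
      calc (({L | IsBisector P L}.ncard : ℕ) : ℝ) * (m : ℝ) ^ (1 / 3 : ℝ) ≤
            (14 * n) * (n : ℝ) ^ (1 / 3 : ℝ) := by gcongr
        _ ≤ 800 * (n * (n : ℝ) ^ (1 / 3 : ℝ)) := by
            have : 0 ≤ (n : ℝ) * (n : ℝ) ^ (1 / 3 : ℝ) := by positivity
            nlinarith
    · have h1 := bisectors_ncard_le (P \ P)
      rw [sdiff_self] at h1 ⊢
      simp only [bot_eq_empty, card_empty, mul_zero, nonpos_iff_eq_zero] at h1 ⊢
      rw [h1]
      omega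
  -- the main case
  set u : ℕ := min (m / 16) ((n - 7) / 16) with hu
  have hu1 : 16 * u ≤ m := by omega
  have hu2 : 16 * u + 7 ≤ n := by omega
  have hu3 : m ≤ 32 * (u + 1) := by omega
  obtain ⟨D, h0, h1, h2, h3, h4⟩ := careful hGP hu2
  have hsub : Dᶜ.image P0 ⊆ P := by
    rw [← him]
    exact image_subset_image (subset_univ _)
  have hPR : P \ Dᶜ.image P0 = D.image P0 := by
    ext p
    rw [mem_sdiff, ← him]
    simp only [mem_image, mem_univ, true_and, mem_compl, not_exists, not_and]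
    constructor
    · rintro ⟨⟨i, rfl⟩, h⟩
      refine ⟨i, ?_, rfl⟩
      by_contra hi
      exact h i hi rfl
    · rintro ⟨i, hi, rfl⟩
      refine ⟨⟨i, rfl⟩, fun j hj hji => ?_⟩
      rw [hinj hji] at hj
      exact hj hi
  have hDn : D.card ≤ n := by simpa using card_le_card (subset_univ D)
  refine ⟨Dᶜ.image P0, hsub, ?_, ?_, ?_, ?_, ?_, ?_⟩
  · rw [card_image_of_injective _ hinj, card_compl, Fintype.card_fin, Nat.even_sub hDn]
    exact ⟨fun _ => h2, fun _ => hev⟩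
  · rw [hPR, card_image_of_injective _ hinj]
    exact h2
  · rw [hPR, card_image_of_injective _ hinj]
    omega
  · rw [hPR, card_image_of_injective _ hinj]
    omega
  · have h5 : (({L | IsBisector (Dᶜ.image P0) L}.ncard : ℕ) : ℝ) ≤ ((BP P1 D).card : ℝ) := by
      exact_mod_cast bis_le hinj hGP hsgn D
    refine h5.trans ?_
    rw [le_div_iff₀ hmp]
    have h6 : (m : ℝ) ^ (1 / 3 : ℝ) ≤ 3.2 * ((u : ℝ) + 1) ^ (1 / 3 : ℝ) := by
      have h7 : (m : ℝ) ≤ 32 * ((u : ℝ) + 1) := by exact_mod_cast hu3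
      calc (m : ℝ) ^ (1 / 3 : ℝ) ≤ (32 * ((u : ℝ) + 1)) ^ (1 / 3 : ℝ) :=
            Real.rpow_le_rpow hm0.le h7 (by norm_num)
        _ = 32 ^ (1 / 3 : ℝ) * ((u : ℝ) + 1) ^ (1 / 3 : ℝ) := by
            rw [Real.mul_rpow (by norm_num) (by positivity)]
        _ ≤ _ := by
            apply mul_le_mul_of_nonneg_right _ (by positivity)
            rw [show (1 / 3 : ℝ) = (3 : ℝ)⁻¹ by norm_num, Real.rpow_inv_le_iff_of_pos (by norm_num)
              (by norm_num) (by norm_num)]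
            norm_num
    calc ((BP P1 D).card : ℝ) * (m : ℝ) ^ (1 / 3 : ℝ) ≤
          ((BP P1 D).card : ℝ) * (3.2 * ((u : ℝ) + 1) ^ (1 / 3 : ℝ)) := by gcongr
      _ = 3.2 * (((BP P1 D).card : ℝ) * ((u : ℝ) + 1) ^ (1 / 3 : ℝ)) := by ring
      _ ≤ 3.2 * (240 * (n : ℝ) ^ (4 / 3 : ℝ)) := by gcongr
      _ ≤ 800 * (n : ℝ) ^ (4 / 3 : ℝ) := by
          have : 0 ≤ (n : ℝ) ^ (4 / 3 : ℝ) := by positivity
          nlinarith
  · rw [hPR]
    have h5 := bis_le hinj hGP hsgn Dᶜ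
    rw [compl_compl] at h5
    refine h5.trans (h4.trans ?_)
    omega

/-- **Careful deletions.** -/
theorem careful_sets (P : Finset (ℝ × ℝ)) (hP : GeneralPosition P) (hev : Even P.card)
    {m : ℕ} (hm1 : 1 ≤ m) (hmn : m ≤ P.card) :
    ∃ R ⊆ P, Even R.card ∧ Even (P \ R).card ∧ (P \ R).card ≤ m ∧ m ≤ 4 * (P \ R).card + 32 ∧
      (({L | IsBisector R L}.ncard : ℕ) : ℝ) ≤
        800 * (P.card : ℝ) ^ (4 / 3 : ℝ) / (m : ℝ) ^ (1 / 3 : ℝ) ∧
      {L | IsBisector (P \ R) L}.ncard ≤ 34 * m := by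
  classical
  obtain ⟨P0, P1, hinj, him, hGP, hsgn⟩ := exists_model P hP
  have := careful_aux hinj him hGP hsgn hev hm1 hmn
  convert this

end Pool.Agent.Helper889_Halv
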