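import Pool.Agent.Helper889_Halv.Exact
import Pool.Agent.Helper889_Halv.Sets

/-! Subsets of every size with few halving lines. -/

set_option autoImplicit false

namespace Pool.Agent.Helper889_Halv

open Finset Pool.Agent.Y344.KD Pool.Agent.H189R2.Iid KLev.Halving

open Classical in
theorem exact_aux {n : ℕ} {P : Finset (ℝ × ℝ)} {P0 P1 : Fin n → ℝ × ℝ}
    (hinj : Function.Injective P0) (him : univ.image P0 = P) (hGP : GP P1)
    (hsgn : ∀ i j k, i ≠ j → i ≠ k → j ≠ k →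
        0 < ori (P0 i) (P0 j) (P0 k) * ori (P1 i) (P1 j) (P1 k))
    {m : ℕ} (hn : 5000 ≤ n) (hm : 16 * m ≤ n) :
    ∃ R ⊆ P, R.card = n - m ∧
      (({L | IsBisector R L}.ncard : ℕ) : ℝ) * ((m : ℝ) + 1) ^ (1 / 3 : ℝ) ≤
        73728 * (n : ℝ) ^ (4 / 3 : ℝ) := by
  obtain ⟨D, h0, h1⟩ := exact_careful hGP hn hm
  refine ⟨Dᶜ.image P0, ?_, ?_, ?_⟩
  · rw [← him]
    exact image_subset_image (subset_univ _)
  · rw [card_image_of_injective _ hinj, card_compl, Fintype.card_fin, h0]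
  · have h5 : (({L | IsBisector (Dᶜ.image P0) L}.ncard : ℕ) : ℝ) ≤ ((BP P1 D).card : ℝ) := by
      exact_mod_cast bis_le hinj hGP hsgn D
    refine le_trans ?_ h1
    gcongr

theorem exact_near (P : Finset (ℝ × ℝ)) (hP : GeneralPosition P) {m : ℕ} (hn : 5000 ≤ P.card)
    (hm : 16 * m ≤ P.card) :
    ∃ R ⊆ P, R.card = P.card - m ∧
      (({L | IsBisector R L}.ncard : ℕ) : ℝ) * ((m : ℝ) + 1) ^ (1 / 3 : ℝ) ≤
        73728 * (P.card : ℝ) ^ (4 / 3 : ℝ) := by
  obtain ⟨P0, P1, hinj, him, hGP, hsgn⟩ := exists_model P hP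
  apply exact_aux hinj _ hGP hsgn hn hm
  convert him

theorem gp_mono {P Q : Finset (ℝ × ℝ)} (hP : GeneralPosition P) (h : Q ⊆ P) :
    GeneralPosition Q :=
  fun a b c hab p hp q hq r hr => hP a b c hab p (h hp) q (h hq) r (h hr)

/-- **Subsets of every size.** -/
theorem exact_sets (P : Finset (ℝ × ℝ)) (hP : GeneralPosition P) {s : ℕ} (hs : s ≤ P.card) :
    ∃ R ⊆ P, R.card = s ∧ (({L | IsBisector R L}.ncard : ℕ) : ℝ) ≤
      200000 * s * ((P.card : ℝ) / (P.card - s + 1)) ^ (1 / 3 : ℝ) := by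
  rcases Nat.eq_zero_or_pos s with h0 | h0
  · subst h0
    refine ⟨∅, empty_subset _, card_empty, ?_⟩
    have h1 := bisectors_ncard_le ∅
    rw [card_empty, mul_zero] at h1
    have h2 : {L | IsBisector ∅ L}.ncard = 0 := by omega
    rw [h2]
    simp
  have hs1 : (1 : ℝ) ≤ s := by exact_mod_cast h0
  have hsn : (s : ℝ) ≤ P.card := by exact_mod_cast hs
  have hden : (0 : ℝ) < (P.card : ℝ) - s + 1 := by linarith
  have hge : (1 : ℝ) ≤ ((P.card : ℝ) / (P.card - s + 1)) ^ (1 / 3 : ℝ) := by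
    apply Real.one_le_rpow _ (by norm_num)
    rw [le_div_iff₀ hden]
    linarith
  rcases Nat.lt_or_ge s 5000 with h | h
  · obtain ⟨R, hR, hRc⟩ := exists_subset_card_eq hs
    refine ⟨R, hR, hRc, ?_⟩
    have h1 := bisectors_ncard_le R
    rw [hRc] at h1
    have h2 : s * s ≤ 5000 * s := Nat.mul_le_mul_right _ h.le
    have h3 : (({L | IsBisector R L}.ncard : ℕ) : ℝ) ≤ 5000 * s := by
      exact_mod_cast h1.trans h2
    calc (({L | IsBisector R L}.ncard : ℕ) : ℝ) ≤ 5000 * s := h3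
      _ ≤ 200000 * s * 1 := by linarith
      _ ≤ _ := mul_le_mul_of_nonneg_left hge (by positivity)
  rcases Nat.lt_or_ge P.card (16 * (P.card - s)) with h' | h'
  · -- choose a subset of size `s + s / 15`
    set m := s / 15 with hm
    have hm1 : s + m ≤ P.card := by omega
    obtain ⟨Q, hQ, hQc⟩ := exists_subset_card_eq hm1
    obtain ⟨R, hR, hRc, hb⟩ := exact_near Q (gp_mono hP hQ) (m := m) (by omega) (by omega)
    refine ⟨R, hR.trans hQ, by omega, ?_⟩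
    rw [hQc] at hb
    have hm0 : (0 : ℝ) < (m : ℝ) + 1 := by positivity
    have hmp : 0 < ((m : ℝ) + 1) ^ (1 / 3 : ℝ) := Real.rpow_pos_of_pos hm0 _
    have hq0 : (0 : ℝ) < ((s + m : ℕ) : ℝ) := by
      have : 0 < s + m := by omega
      exact_mod_cast this
    have e1 : ((s + m : ℕ) : ℝ) * ((s + m : ℕ) : ℝ) ^ (1 / 3 : ℝ) =
        ((s + m : ℕ) : ℝ) ^ (4 / 3 : ℝ) := by
      nth_rewrite 1 [← Real.rpow_one (((s + m : ℕ) : ℝ))]
      rw [← Real.rpow_add hq0]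
      norm_num
    have e2 : ((s + m : ℕ) : ℝ) ^ (1 / 3 : ℝ) ≤ 2.52 * ((m : ℝ) + 1) ^ (1 / 3 : ℝ) := by
      have h7 : ((s + m : ℕ) : ℝ) ≤ 16 * ((m : ℝ) + 1) := by
        have : s + m ≤ 16 * (m + 1) := by omega
        exact_mod_cast this
      calc ((s + m : ℕ) : ℝ) ^ (1 / 3 : ℝ) ≤ (16 * ((m : ℝ) + 1)) ^ (1 / 3 : ℝ) :=
            Real.rpow_le_rpow hq0.le h7 (by norm_num)
        _ = 16 ^ (1 / 3 : ℝ) * ((m : ℝ) + 1) ^ (1 / 3 : ℝ) := by
            rw [Real.mul_rpow (by norm_num) hm0.le]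
        _ ≤ _ := by
            apply mul_le_mul_of_nonneg_right _ hmp.le
            rw [show (1 / 3 : ℝ) = (3 : ℝ)⁻¹ by norm_num, Real.rpow_inv_le_iff_of_pos (by norm_num)
              (by norm_num) (by norm_num)]
            norm_num
    have h8 : (15 : ℝ) * ((s + m : ℕ) : ℝ) ≤ 16 * s := by
      have : 15 * (s + m) ≤ 16 * s := by omega
      exact_mod_cast this
    have h9 : (({L | IsBisector R L}.ncard : ℕ) : ℝ) * ((m : ℝ) + 1) ^ (1 / 3 : ℝ) ≤
        (200000 * s) * ((m : ℝ) + 1) ^ (1 / 3 : ℝ) := by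
      refine hb.trans ?_
      rw [← e1]
      calc 73728 * (((s + m : ℕ) : ℝ) * ((s + m : ℕ) : ℝ) ^ (1 / 3 : ℝ)) ≤
            73728 * (((s + m : ℕ) : ℝ) * (2.52 * ((m : ℝ) + 1) ^ (1 / 3 : ℝ))) := by gcongr
        _ = (73728 * 2.52 * ((s + m : ℕ) : ℝ)) * ((m : ℝ) + 1) ^ (1 / 3 : ℝ) := by ring
        _ ≤ _ := by
            apply mul_le_mul_of_nonneg_right _ hmp.le
            linarith
    have h10 := le_of_mul_le_mul_right h9 hmp
    calc (({L | IsBisector R L}.ncard : ℕ) : ℝ) ≤ 200000 * s * 1 := by linarith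
      _ ≤ _ := mul_le_mul_of_nonneg_left hge (by positivity)
  · obtain ⟨R, hR, hRc, hb⟩ := exact_near P hP (m := P.card - s) (by omega) h'
    refine ⟨R, hR, by omega, ?_⟩
    have hcast : ((P.card - s : ℕ) : ℝ) = P.card - s := by
      rw [Nat.cast_sub hs]
    rw [hcast] at hb
    have hdp : 0 < ((P.card : ℝ) - s + 1) ^ (1 / 3 : ℝ) := Real.rpow_pos_of_pos hden _
    have hn0 : (0 : ℝ) < P.card := by linarith
    have e1 : (P.card : ℝ) * (P.card : ℝ) ^ (1 / 3 : ℝ) = (P.card : ℝ) ^ (4 / 3 : ℝ) := by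
      nth_rewrite 1 [← Real.rpow_one (P.card : ℝ)]
      rw [← Real.rpow_add hn0]
      norm_num
    rw [Real.div_rpow hn0.le hden.le, ← mul_div_assoc, le_div_iff₀ hdp]
    refine hb.trans ?_
    rw [← e1]
    have h8 : (15 : ℝ) * P.card ≤ 16 * s := by
      have : 15 * P.card ≤ 16 * s := by omega
      exact_mod_cast this
    calc 73728 * ((P.card : ℝ) * (P.card : ℝ) ^ (1 / 3 : ℝ)) =
          (73728 * P.card) * (P.card : ℝ) ^ (1 / 3 : ℝ) := by ring
      _ ≤ 200000 * s * (P.card : ℝ) ^ (1 / 3 : ℝ) := by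
          apply mul_le_mul_of_nonneg_right _ (by positivity)
          linarith

end Pool.Agent.Helper889_Halv
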