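import Pool.Agent.Helper889_Halv.Split
import Pool.Agent.Helper889_Halv.Sets2

/-! Splitting a set into parts of prescribed sizes with few halving lines. -/

set_option autoImplicit false

namespace Pool.Agent.Helper889_Halv

open Finset Pool.Agent.Y344.KD Pool.Agent.H189R2.Iid KLev.Halving

theorem split_num {n m : ℕ} {P : Fin n → ℝ × ℝ} (hP : GP P) (hn : 200000 ≤ n) (hm0 : 1000 ≤ m)
    (hm : 2 * m ≤ n) :
    ∃ D : Finset (Fin n), D.card = m ∧
      ((BP P D).card : ℝ) * ((m : ℝ) + 1) ^ (1 / 3 : ℝ) ≤ 2500000 * (n : ℝ) ^ (4 / 3 : ℝ) ∧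
      (BP P Dᶜ).card ≤ 5000000 * m := by
  obtain ⟨D, h1, h3, h4⟩ := split_avg hP hn hm0 hm
  refine ⟨D, h1, ?_, ?_⟩
  · have hw := window hP (Wn n m) (K := n - 1) (by
      intro k hk
      unfold Wn at hk
      rw [mem_filter, mem_range] at hk
      omega)
    have hn1 : (((n - 1 : ℕ) : ℝ) + 1) = n := by
      have : n - 1 + 1 = n := by omega
      exact_mod_cast this
    rw [hn1] at hw
    have hn0 : (1 : ℝ) ≤ n := by
      have : 1 ≤ n := by omega
      exact_mod_cast this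
    have hu : (0 : ℝ) < (m : ℝ) + 1 := by positivity
    have hu1 : (1 : ℝ) ≤ (m : ℝ) + 1 := by
      have : (0 : ℝ) ≤ m := Nat.cast_nonneg m
      linarith
    have hcard : ((Wn n m).card : ℝ) ≤ (m : ℝ) + 1 := by
      exact_mod_cast Wn_card n m
    have e1 : (n : ℝ) * (n : ℝ) ^ (1 / 3 : ℝ) = (n : ℝ) ^ (4 / 3 : ℝ) := by
      nth_rewrite 1 [← Real.rpow_one (n : ℝ)]
      rw [← Real.rpow_add (by linarith)]
      norm_num
    have hw2 : ((EW P (Wn n m)).card : ℝ) ≤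
        18 * ((n : ℝ) ^ (4 / 3 : ℝ) * ((m : ℝ) + 1) ^ (2 / 3 : ℝ)) := by
      refine hw.trans ?_
      have : ((Wn n m).card : ℝ) ^ (2 / 3 : ℝ) ≤ ((m : ℝ) + 1) ^ (2 / 3 : ℝ) :=
        Real.rpow_le_rpow (Nat.cast_nonneg _) hcard (by norm_num)
      calc 18 * (n : ℝ) * ((n : ℝ) ^ (1 / 3 : ℝ) * ((Wn n m).card : ℝ) ^ (2 / 3 : ℝ)) ≤
            18 * (n : ℝ) * ((n : ℝ) ^ (1 / 3 : ℝ) * ((m : ℝ) + 1) ^ (2 / 3 : ℝ)) := by gcongr
        _ = 18 * (((n : ℝ) * (n : ℝ) ^ (1 / 3 : ℝ)) * ((m : ℝ) + 1) ^ (2 / 3 : ℝ)) := by ring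
        _ = _ := by rw [e1]
    have h3' : ((BP P D).card : ℝ) * (((m / 65536 : ℕ) : ℝ) + 1) ≤
        2 * (((EW P (Wn n m)).card : ℝ) + 1) := by
      exact_mod_cast h3
    have hq : (m : ℝ) + 1 ≤ 65536 * (((m / 65536 : ℕ) : ℝ) + 1) := by
      have : m + 1 ≤ 65536 * (m / 65536 + 1) := by omega
      exact_mod_cast this
    have e2 : ((m : ℝ) + 1) ^ (1 / 3 : ℝ) * ((m : ℝ) + 1) ^ (2 / 3 : ℝ) = (m : ℝ) + 1 := by
      rw [← Real.rpow_add hu]
      norm_num
    have hpos : (1 : ℝ) ≤ ((m : ℝ) + 1) ^ (2 / 3 : ℝ) := Real.one_le_rpow hu1 (by norm_num)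
    have hpos2 : (1 : ℝ) ≤ (n : ℝ) ^ (4 / 3 : ℝ) := Real.one_le_rpow hn0 (by norm_num)
    have h7 : (1 : ℝ) ≤ (n : ℝ) ^ (4 / 3 : ℝ) * ((m : ℝ) + 1) ^ (2 / 3 : ℝ) :=
      one_le_mul_of_one_le_of_one_le hpos2 hpos
    have h5 : ((BP P D).card : ℝ) * ((m : ℝ) + 1) ^ (1 / 3 : ℝ) * ((m : ℝ) + 1) ^ (2 / 3 : ℝ) ≤
        2500000 * (n : ℝ) ^ (4 / 3 : ℝ) * ((m : ℝ) + 1) ^ (2 / 3 : ℝ) := by
      rw [mul_assoc, e2]
      calc ((BP P D).card : ℝ) * ((m : ℝ) + 1) ≤
            ((BP P D).card : ℝ) * (65536 * (((m / 65536 : ℕ) : ℝ) + 1)) := by gcongr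
        _ = 65536 * (((BP P D).card : ℝ) * (((m / 65536 : ℕ) : ℝ) + 1)) := by ring
        _ ≤ 65536 * (2 * (18 * ((n : ℝ) ^ (4 / 3 : ℝ) * ((m : ℝ) + 1) ^ (2 / 3 : ℝ)) + 1)) := by
            linarith
        _ ≤ 2500000 * ((n : ℝ) ^ (4 / 3 : ℝ) * ((m : ℝ) + 1) ^ (2 / 3 : ℝ)) := by linarith
        _ = _ := by ring
    exact le_of_mul_le_mul_right h5 (by linarith)
  · have hq : m + 1 ≤ 65536 * (m / 65536 + 1) := by omega
    have h5 : (BP P Dᶜ).card * (m + 1) ≤ 65536 * (2 * ((6 * m) ^ 2 + 1)) := by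
      calc (BP P Dᶜ).card * (m + 1) ≤ (BP P Dᶜ).card * (65536 * (m / 65536 + 1)) :=
            Nat.mul_le_mul_left _ hq
        _ = 65536 * ((BP P Dᶜ).card * (m / 65536 + 1)) := by ring
        _ ≤ _ := Nat.mul_le_mul_left _ h4
    by_contra hc
    push Not at hc
    have h6 : (5000000 * m + 1) * (m + 1) ≤ (BP P Dᶜ).card * (m + 1) :=
      Nat.mul_le_mul_right _ hc
    nlinarith

open Classical in
theorem split_aux {n : ℕ} {P : Finset (ℝ × ℝ)} {P0 P1 : Fin n → ℝ × ℝ}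
    (hinj : Function.Injective P0) (him : univ.image P0 = P) (hGP : GP P1)
    (hsgn : ∀ i j k, i ≠ j → i ≠ k → j ≠ k →
        0 < ori (P0 i) (P0 j) (P0 k) * ori (P1 i) (P1 j) (P1 k))
    {m : ℕ} (hn : 200000 ≤ n) (hm0 : 1000 ≤ m) (hm : 2 * m ≤ n) :
    ∃ R ⊆ P, R.card = n - m ∧
      (({L | IsBisector R L}.ncard : ℕ) : ℝ) * ((m : ℝ) + 1) ^ (1 / 3 : ℝ) ≤
        2500000 * (n : ℝ) ^ (4 / 3 : ℝ) ∧
      {L | IsBisector (P \ R) L}.ncard ≤ 5000000 * m := by
  obtain ⟨D, h0, h1, h2⟩ := split_num hGP hn hm0 hm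
  have hPR : P \ Dᶜ.image P0 = D.image P0 := by
    ext p
    rw [mem_sdiff, ← him]
    simp only [mem_image, mem_univ, true_and, mem_compl, not_exists, not_and]
    constructor
    · rintro ⟨⟨i, rfl⟩, h⟩
      refine ⟨i, ?_, rfl⟩
      by_contra hi
      exact h i hi rfl
    · rintro ⟨i, hi, rfl⟩
      refine ⟨⟨i, rfl⟩, fun j hj hji => ?_⟩
      rw [hinj hji] at hj
      exact hj hi
  refine ⟨Dᶜ.image P0, ?_, ?_, ?_, ?_⟩
  · rw [← him]
    exact image_subset_image (subset_univ _)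
  · rw [card_image_of_injective _ hinj, card_compl, Fintype.card_fin, h0]
  · have h5 : (({L | IsBisector (Dᶜ.image P0) L}.ncard : ℕ) : ℝ) ≤ ((BP P1 D).card : ℝ) := by
      exact_mod_cast bis_le hinj hGP hsgn D
    refine le_trans ?_ h1
    gcongr
  · rw [hPR]
    have h5 := bis_le hinj hGP hsgn Dᶜ
    rw [compl_compl] at h5
    exact h5.trans h2

open Classical in
/-- the split with the smaller part `P \ R` -/
theorem split_near (P : Finset (ℝ × ℝ)) (hP : GeneralPosition P) {m : ℕ} (hm : 2 * m ≤ P.card) :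
    ∃ R ⊆ P, R.card = P.card - m ∧
      (({L | IsBisector R L}.ncard : ℕ) : ℝ) * ((m : ℝ) + 1) ^ (1 / 3 : ℝ) ≤
        2500000 * (P.card : ℝ) ^ (4 / 3 : ℝ) ∧
      {L | IsBisector (P \ R) L}.ncard ≤ 5000000 * m := by
  have hdiff : ∀ R ⊆ P, R.card = P.card - m → {L | IsBisector (P \ R) L}.ncard ≤ m * m := by
    intro R hR hRc
    have h1 := bisectors_ncard_le (P \ R)
    have h2 : (P \ R).card = m := by
      rw [card_sdiff_of_subset hR, hRc]
      omega
    rw [h2] at h1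
    exact h1
  rcases Nat.lt_or_ge P.card 200000 with h | h
  · obtain ⟨R, hR, hRc⟩ := exists_subset_card_eq (Nat.sub_le P.card m)
    refine ⟨R, hR, hRc, ?_, ?_⟩
    · rcases Nat.eq_zero_or_pos P.card with h0 | h0
      · have h1 := bisectors_ncard_le R
        have h2 : R.card = 0 := by omega
        rw [h2, mul_zero] at h1
        have h3 : {L | IsBisector R L}.ncard = 0 := Nat.le_zero.mp h1
        rw [h3, Nat.cast_zero, zero_mul]
        exact mul_nonneg (by norm_num) (Real.rpow_nonneg (Nat.cast_nonneg _) _)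
      · have hn1 : (1 : ℝ) ≤ P.card := by exact_mod_cast h0
        have hmn : ((m : ℝ) + 1) ≤ 2 * P.card := by
          have : m + 1 ≤ 2 * P.card := by omega
          exact_mod_cast this
        have e1 : (P.card : ℝ) * (P.card : ℝ) ^ (1 / 3 : ℝ) = (P.card : ℝ) ^ (4 / 3 : ℝ) := by
          nth_rewrite 1 [← Real.rpow_one (P.card : ℝ)]
          rw [← Real.rpow_add (by linarith)]
          norm_num
        have h1 := bisectors_ncard_le R
        have h2 : {L | IsBisector R L}.ncard ≤ 200000 * P.card := by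
          refine h1.trans ?_
          rw [hRc]
          exact Nat.mul_le_mul (by omega) (by omega)
        have h3 : (({L | IsBisector R L}.ncard : ℕ) : ℝ) ≤ 200000 * P.card := by
          exact_mod_cast h2
        have h4 : ((m : ℝ) + 1) ^ (1 / 3 : ℝ) ≤ 2 * (P.card : ℝ) ^ (1 / 3 : ℝ) := by
          calc ((m : ℝ) + 1) ^ (1 / 3 : ℝ) ≤ (2 * (P.card : ℝ)) ^ (1 / 3 : ℝ) :=
                Real.rpow_le_rpow (by positivity) hmn (by norm_num)
            _ = 2 ^ (1 / 3 : ℝ) * (P.card : ℝ) ^ (1 / 3 : ℝ) :=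
                Real.mul_rpow (by norm_num) (by linarith)
            _ ≤ _ := by
                apply mul_le_mul_of_nonneg_right _ (by positivity)
                calc (2 : ℝ) ^ (1 / 3 : ℝ) ≤ 2 ^ (1 : ℝ) :=
                      Real.rpow_le_rpow_of_exponent_le (by norm_num) (by norm_num)
                  _ = 2 := by norm_num
        calc (({L | IsBisector R L}.ncard : ℕ) : ℝ) * ((m : ℝ) + 1) ^ (1 / 3 : ℝ) ≤
              (200000 * P.card) * (2 * (P.card : ℝ) ^ (1 / 3 : ℝ)) := by gcongr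
          _ = 400000 * (P.card * (P.card : ℝ) ^ (1 / 3 : ℝ)) := by ring
          _ ≤ _ := by
              rw [e1]
              have : 0 ≤ (P.card : ℝ) ^ (4 / 3 : ℝ) := by positivity
              linarith
    · refine (hdiff R hR hRc).trans (Nat.mul_le_mul_right _ (by omega))
  rcases Nat.lt_or_ge m 1000 with h' | h'
  · obtain ⟨R, hR, hRc, hb⟩ := exact_near P hP (m := m) (by omega) (by omega)
    refine ⟨R, hR, hRc, ?_, ?_⟩
    · refine hb.trans ?_
      have : 0 ≤ (P.card : ℝ) ^ (4 / 3 : ℝ) := by positivity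
      linarith
    · refine (hdiff R hR hRc).trans (Nat.mul_le_mul_right _ (by omega))
  · obtain ⟨P0, P1, hinj, him, hGP, hsgn⟩ := exists_model P hP
    apply split_aux hinj _ hGP hsgn h h' hm
    convert him

open Classical in
/-- **Splits.** -/
theorem splits (P : Finset (ℝ × ℝ)) (hP : GeneralPosition P) {s : ℕ} (hs : s ≤ P.card) :
    ∃ R ⊆ P, R.card = s ∧
      (({L | IsBisector R L}.ncard : ℕ) : ℝ) ≤
        5000000 * s * ((P.card : ℝ) / (P.card - s + 1)) ^ (1 / 3 : ℝ) ∧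
      (({L | IsBisector (P \ R) L}.ncard : ℕ) : ℝ) ≤
        5000000 * (P.card - s) * ((P.card : ℝ) / (s + 1)) ^ (1 / 3 : ℝ) := by
  have hsn : (s : ℝ) ≤ P.card := by exact_mod_cast hs
  -- the large part
  have big : ∀ (R : Finset (ℝ × ℝ)) (m : ℕ), 2 * m ≤ P.card →
      (({L | IsBisector R L}.ncard : ℕ) : ℝ) * ((m : ℝ) + 1) ^ (1 / 3 : ℝ) ≤
        2500000 * (P.card : ℝ) ^ (4 / 3 : ℝ) →
      (({L | IsBisector R L}.ncard : ℕ) : ℝ) ≤
        5000000 * ((P.card : ℝ) - m) * ((P.card : ℝ) / (m + 1)) ^ (1 / 3 : ℝ) := by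
    intro R m hm h
    have hm' : (2 : ℝ) * m ≤ P.card := by exact_mod_cast hm
    have hmp : 0 < ((m : ℝ) + 1) ^ (1 / 3 : ℝ) := Real.rpow_pos_of_pos (by positivity) _
    rw [Real.div_rpow (by positivity) (by positivity), ← mul_div_assoc, le_div_iff₀ hmp]
    refine h.trans ?_
    rcases Nat.eq_zero_or_pos P.card with h0 | h0
    · rw [h0]
      have : m = 0 := by omega
      rw [this]
      norm_num
    · have hn0 : (0 : ℝ) < P.card := by exact_mod_cast h0
      have e1 : (P.card : ℝ) * (P.card : ℝ) ^ (1 / 3 : ℝ) = (P.card : ℝ) ^ (4 / 3 : ℝ) := by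
        nth_rewrite 1 [← Real.rpow_one (P.card : ℝ)]
        rw [← Real.rpow_add hn0]
        norm_num
      rw [← e1, ← mul_assoc]
      apply mul_le_mul_of_nonneg_right _ (by positivity)
      linarith
  -- the small part
  have small : ∀ (R : Finset (ℝ × ℝ)) (m : ℕ), m ≤ P.card →
      {L | IsBisector R L}.ncard ≤ 5000000 * m →
      (({L | IsBisector R L}.ncard : ℕ) : ℝ) ≤
        5000000 * (m : ℝ) * ((P.card : ℝ) / ((P.card : ℝ) - m + 1)) ^ (1 / 3 : ℝ) := by
    intro R m hm h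
    have h1 : (({L | IsBisector R L}.ncard : ℕ) : ℝ) ≤ 5000000 * m := by exact_mod_cast h
    rcases Nat.eq_zero_or_pos m with h0 | h0
    · rw [h0] at h1 ⊢
      push_cast at h1 ⊢
      linarith
    have hm1 : (1 : ℝ) ≤ m := by exact_mod_cast h0
    have hmn : (m : ℝ) ≤ P.card := by exact_mod_cast hm
    have hge : (1 : ℝ) ≤ ((P.card : ℝ) / ((P.card : ℝ) - m + 1)) ^ (1 / 3 : ℝ) := by
      apply Real.one_le_rpow _ (by norm_num)
      rw [le_div_iff₀ (by linarith)]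
      linarith
    calc _ ≤ 5000000 * (m : ℝ) * 1 := by linarith
      _ ≤ _ := mul_le_mul_of_nonneg_left hge (by positivity)
  rcases Nat.lt_or_ge P.card (2 * s) with h | h
  · -- `R` is the larger part
    obtain ⟨R, hR, hRc, h1, h2⟩ := split_near P hP (m := P.card - s) (by omega)
    refine ⟨R, hR, by omega, ?_, ?_⟩
    · have h3 := big R (P.card - s) (by omega) h1
      have hc : ((P.card - s : ℕ) : ℝ) = P.card - s := by rw [Nat.cast_sub hs]
      rw [hc] at h3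
      have e : (P.card : ℝ) - (P.card - s) = s := by ring
      rw [e] at h3
      exact h3
    · have h3 := small (P \ R) (P.card - s) (by omega) h2
      have hc : ((P.card - s : ℕ) : ℝ) = P.card - s := by rw [Nat.cast_sub hs]
      rw [hc] at h3
      have e : (P.card : ℝ) - (P.card - s) + 1 = s + 1 := by ring
      rw [e] at h3
      exact h3
  · -- `R` is the smaller part
    obtain ⟨R, hR, hRc, h1, h2⟩ := split_near P hP (m := s) h
    refine ⟨P \ R, sdiff_subset, ?_, ?_, ?_⟩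
    · rw [card_sdiff_of_subset hR, hRc]
      omega
    · exact small (P \ R) s hs h2
    · rw [Finset.sdiff_sdiff_eq_self hR]
      exact big R s h h1

end Pool.Agent.Helper889_Halv
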