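import Pool.Agent.Helper889_Halv.Cells2
import Pool.Agent.Helper889_Halv.Exact

/-! Splitting a set into two parts of prescribed sizes. -/

set_option autoImplicit false

namespace Pool.Agent.Helper889_Halv

open Finset Pool.Agent.Y344.KD Pool.Agent.H189R2.Iid

variable {n : ℕ}

open Classical in
theorem split_avg {P : Fin n → ℝ × ℝ} (hP : GP P) {m : ℕ} (hn : 200000 ≤ n) (hm0 : 1000 ≤ m)
    (hm : 2 * m ≤ n) :
    ∃ D : Finset (Fin n), D.card = m ∧
      (BP P D).card * (m / 65536 + 1) ≤ 2 * ((EW P (Wn n m)).card + 1) ∧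
      (BP P Dᶜ).card * (m / 65536 + 1) ≤ 2 * ((6 * m) ^ 2 + 1) := by
  obtain ⟨t1, ht1⟩ : ∃ t1, t1 = (n - 7) / 4 := ⟨_, rfl⟩
  obtain ⟨t2, ht2⟩ : ∃ t2, t2 = (t1 - 7) / 4 := ⟨_, rfl⟩
  obtain ⟨τ, hτ⟩ : ∃ τ, τ = (t2 - 7) / 4 := ⟨_, rfl⟩
  obtain ⟨C, hdis, hcard, hq⟩ := cells2 hP (by omega) ht1 ht2 hτ
  obtain ⟨σ, hσ⟩ : ∃ σ, σ = m / 65536 := ⟨_, rfl⟩
  rw [← hσ]
  obtain ⟨T', hT'⟩ : ∃ T', T' = m / 64 + 63 + 64 * σ := ⟨_, rfl⟩
  have hTτ : T' ≤ τ := by omega
  have hexU : ∀ c : K3, ∃ S : Finset (Fin n), S ⊆ C c ∧ S.card = T' := fun c =>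
    exists_subset_card_eq (by rw [hcard]; exact hTτ)
  choose Uc hUsub hUcard using hexU
  have hex : ∀ (c : K3) (t : ℕ), ∃ S : Finset (Fin n), S ⊆ Uc c ∧ S.card = min t T' := by
    intro c t
    exact exists_subset_card_eq (by rw [hUcard]; exact min_le_right _ _)
  choose Dc hsubU hcd using hex
  have hsub : ∀ c t, Dc c t ⊆ C c := fun c t => (hsubU c t).trans (hUsub c)
  have hK : (univ : Finset K3).card = 64 := by
    simp [K3]
  obtain ⟨b, hb⟩ : ∃ b : K3 → ℕ, b = fun c => m / 64 + if c = (0, 0, 0) then m % 64 else 0 :=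
    ⟨_, rfl⟩
  have hbs : ∑ c, b c = m := by
    rw [hb]
    simp only
    rw [sum_add_distrib, sum_const, hK, smul_eq_mul, sum_ite_eq' univ, if_pos (mem_univ _)]
    omega
  have hble : ∀ c, m / 64 ≤ b c ∧ b c ≤ m / 64 + 63 := by
    intro c
    rw [hb]
    simp only
    split_ifs <;> omega
  have hsσ : ∀ (f : K3 → Fin (σ + 1)), ∑ d, (f d : ℕ) ≤ 64 * σ := by
    intro f
    calc ∑ d, (f d : ℕ) ≤ ∑ _d : K3, σ := sum_le_sum (fun d _ => by have := (f d).2; omega)
      _ = 64 * σ := by rw [sum_const, hK, smul_eq_mul]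
  obtain ⟨t, ht0⟩ : ∃ t : (K3 × K3 → Fin (σ + 1)) → K3 → ℕ,
      t = fun s c => b c + ∑ d, (s (c, d) : ℕ) - ∑ d, (s (d, c) : ℕ) := ⟨_, rfl⟩
  have ht : ∀ s c, t s c + ∑ d, (s (d, c) : ℕ) = b c + ∑ d, (s (c, d) : ℕ) := by
    intro s c
    rw [ht0]
    simp only
    have h1 := hsσ (fun d => s (d, c))
    have h2 := (hble c).1
    omega
  have htle : ∀ s c, t s c ≤ T' := by
    intro s c
    have h1 := ht s c
    have h2 := hsσ (fun d => s (c, d))
    have h3 := (hble c).2
    omega
  have htge : ∀ s c, m / 64 - 64 * σ ≤ t s c := by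
    intro s c
    have h1 := ht s c
    have h2 := hsσ (fun d => s (d, c))
    have h3 := (hble c).1
    omega
  have hts : ∀ s, ∑ c, t s c = m := by
    intro s
    have h1 : ∑ c, (t s c + ∑ d, (s (d, c) : ℕ)) = ∑ c, (b c + ∑ d, (s (c, d) : ℕ)) :=
      sum_congr rfl (fun c _ => ht s c)
    rw [sum_add_distrib, sum_add_distrib, hbs, sum_comm] at h1
    omega
  obtain ⟨D, hD⟩ : ∃ D : (K3 × K3 → Fin (σ + 1)) → Finset (Fin n),
      D = fun s => univ.biUnion (fun c => Dc c (t s c)) := ⟨_, rfl⟩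
  obtain ⟨U, hU⟩ : ∃ U : Finset (Fin n), U = univ.biUnion Uc := ⟨_, rfl⟩
  have hDU : ∀ s, D s ⊆ U := by
    intro s
    rw [hD, hU]
    exact biUnion_mono (fun c _ => hsubU c _)
  have hUc : U.card ≤ 6 * m := by
    rw [hU]
    refine card_biUnion_le.trans ?_
    rw [sum_congr rfl (fun c _ => hUcard c), sum_const, hK, smul_eq_mul]
    omega
  have hdj : ∀ s : K3 × K3 → Fin (σ + 1), ∀ i j, i ≠ j →
      Disjoint (Dc i (t s i)) (Dc j (t s j)) :=
    fun s i j hij => disjoint_of_subset_left (hsub i _)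
      (disjoint_of_subset_right (hsub j _) (hdis i j hij))
  have hcd' : ∀ s c, (Dc c (t s c)).card = t s c := by
    intro s c
    rw [hcd, min_eq_left (htle s c)]
  have hDc : ∀ s, (D s).card = m := by
    intro s
    rw [hD]
    simp only
    rw [card_biUnion (fun i _ j _ hij => hdj s i j hij), sum_congr rfl (fun c _ => hcd' s c), hts]
  have hintD : ∀ (S : Finset (Fin n)) s, (S ∩ D s).card = ∑ c, (S ∩ Dc c (t s c)).card := by
    intro S s
    rw [hD]
    simp only
    rw [inter_biUnion, card_biUnion]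
    intro i _ j _ hij
    exact disjoint_of_subset_left inter_subset_right
      (disjoint_of_subset_right inter_subset_right (hdj s i j hij))
  have hint : ∀ (S : Finset (Fin n)) s,
      (S \ D s).card + ∑ c, (S ∩ Dc c (t s c)).card = S.card := by
    intro S s
    rw [← hintD]
    exact card_sdiff_add_card_inter S (D s)
  have hcompl : ∀ (S : Finset (Fin n)) s, S \ (D s)ᶜ = S ∩ D s := by
    intro S s
    ext l
    simp
  have hcomp : ∀ (S : Finset (Fin n)) s, (S \ (D s)ᶜ).card + (S \ D s).card = S.card := by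
    intro S s
    have h1 := card_sdiff_add_card_inter S (D s)
    rw [hcompl]
    omega
  have hCD : ∀ s c, (C c ∩ D s).card = t s c := by
    intro s c
    rw [hintD, sum_eq_single c]
    · rw [inter_eq_right.mpr (hsub c _), hcd']
    · intro d _ hdc
      rw [card_eq_zero, ← disjoint_iff_inter_eq_empty]
      exact disjoint_of_subset_right (hsub d _) (hdis c d hdc.symm)
    · intro h
      exact absurd (mem_univ _) h
  have hCR : ∀ s c, τ - T' ≤ (C c ∩ (D s)ᶜ).card := by
    intro s c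
    have h1 := card_sdiff_add_card_inter (C c) (D s)
    rw [hCD, hcard, sdiff_eq_inter_compl] at h1
    have h2 := htle s c
    omega
  -- a balanced pair has a cell on each side
  have hcell : ∀ q ∈ T P, ∀ s, ((lowSet P q \ D s).card = (highSet P q \ D s).card ∨
      (lowSet P q \ (D s)ᶜ).card = (highSet P q \ (D s)ᶜ).card) →
      ∃ a c, C a ⊆ lowSet P q ∧ C c ⊆ highSet P q := by
    intro q hqT s hbal
    have hdlh := low_high_disjoint (mem_T.mp hqT)
    have key : ∀ (W : Finset (Fin n)) (α : ℕ), (∀ c, α ≤ (C c ∩ W).card) →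
        (lowSet P q ∩ W).card = (highSet P q ∩ W).card → W.card < 2 * (37 * α) →
        ∃ a c, C a ⊆ lowSet P q ∧ C c ⊆ highSet P q := by
      intro W α hα hb hlt
      have hsum : (lowSet P q ∩ W).card + (highSet P q ∩ W).card ≤ W.card := by
        rw [← card_union_of_disjoint (disjoint_of_subset_left inter_subset_left
          (disjoint_of_subset_right inter_subset_left hdlh))]
        exact card_le_card (union_subset inter_subset_right inter_subset_right)
      obtain ⟨h1, h2⟩ := hq q hqT W α hα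
      rcases h1 with ⟨a, ha⟩ | h1
      · rcases h2 with ⟨c, hc⟩ | h2
        · exact ⟨a, c, ha, hc⟩
        · omega
      · omega
    rcases hbal with h | h
    · apply key (D s)ᶜ (τ - T') (hCR s)
      · rw [← sdiff_eq_inter_compl, ← sdiff_eq_inter_compl]
        exact h
      · rw [card_compl, Fintype.card_fin, hDc]
        omega
    · apply key (D s) (m / 64 - 64 * σ)
      · intro c
        rw [hCD]
        exact htge s c
      · rw [← hcompl, ← hcompl]
        exact h
      · rw [hDc]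
        omega
  have hdet : ∀ q ∈ T P, ∀ a c, C a ⊆ lowSet P q → C c ⊆ highSet P q →
      ∀ s s' : K3 × K3 → Fin (σ + 1),
      (∀ z, z ≠ (a, c) → s z = s' z) → (((lowSet P q \ D s).card = (highSet P q \ D s).card ∧
        (lowSet P q \ D s').card = (highSet P q \ D s').card) ∨
        ((lowSet P q \ (D s)ᶜ).card = (highSet P q \ (D s)ᶜ).card ∧
        (lowSet P q \ (D s')ᶜ).card = (highSet P q \ (D s')ᶜ).card)) → s = s' := by
    intro q hqT a c ha hc s s' heq hbal
    have hqlt := mem_T.mp hqT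
    have hac : a ≠ c := by
      rintro rfl
      have h1 : (C a).Nonempty := by
        rw [← card_pos, hcard]
        omega
      obtain ⟨x, hx⟩ := h1
      exact disjoint_left.mp (low_high_disjoint hqlt) (ha hx) (hc hx)
    have hne1 : ∀ d, ((d, a) : K3 × K3) ≠ (a, c) := by
      intro d h
      exact hac (Prod.mk.inj h).2
    have hne2 : ∀ d, ((c, d) : K3 × K3) ≠ (a, c) := by
      intro d h
      exact hac (Prod.mk.inj h).1.symm
    have A0 : ∑ d, (s (d, a) : ℕ) = ∑ d, (s' (d, a) : ℕ) :=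
      sum_congr rfl (fun d _ => by rw [heq _ (hne1 d)])
    have B1 : ∑ d, (s (c, d) : ℕ) = ∑ d, (s' (c, d) : ℕ) :=
      sum_congr rfl (fun d _ => by rw [heq _ (hne2 d)])
    have A1 := add_sum_erase univ (fun d => (s (a, d) : ℕ)) (mem_univ c)
    have A1' := add_sum_erase univ (fun d => (s' (a, d) : ℕ)) (mem_univ c)
    have A2 : ∑ d ∈ univ.erase c, (s (a, d) : ℕ) = ∑ d ∈ univ.erase c, (s' (a, d) : ℕ) := by
      apply sum_congr rfl
      intro d hd
      rw [heq _ (fun h => (mem_erase.mp hd).1 (Prod.mk.inj h).2)]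
    have B0 := add_sum_erase univ (fun d => (s (d, c) : ℕ)) (mem_univ a)
    have B0' := add_sum_erase univ (fun d => (s' (d, c) : ℕ)) (mem_univ a)
    have B2 : ∑ d ∈ univ.erase a, (s (d, c) : ℕ) = ∑ d ∈ univ.erase a, (s' (d, c) : ℕ) := by
      apply sum_congr rfl
      intro d hd
      rw [heq _ (fun h => (mem_erase.mp hd).1 (Prod.mk.inj h).1)]
    have ta := ht s a
    have ta' := ht s' a
    have tc := ht s c
    have tc' := ht s' c
    have hoth : ∀ e, e ≠ a → e ≠ c → t s e = t s' e := by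
      intro e hea hec
      have e1 := ht s e
      have e2 := ht s' e
      have e3 : ∑ d, (s (d, e) : ℕ) = ∑ d, (s' (d, e) : ℕ) :=
        sum_congr rfl (fun d _ => by rw [heq _ (fun h => hec (Prod.mk.inj h).2)])
      have e4 : ∑ d, (s (e, d) : ℕ) = ∑ d, (s' (e, d) : ℕ) :=
        sum_congr rfl (fun d _ => by rw [heq _ (fun h => hea (Prod.mk.inj h).1)])
      omega
    have z1 : ∀ s, (lowSet P q ∩ Dc a (t s a)).card = t s a := by
      intro s
      rw [inter_eq_right.mpr ((hsub a _).trans ha), hcd']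
    have z2 : ∀ s, (highSet P q ∩ Dc c (t s c)).card = t s c := by
      intro s
      rw [inter_eq_right.mpr ((hsub c _).trans hc), hcd']
    have z3 : ∀ s, (lowSet P q ∩ Dc c (t s c)).card = 0 := by
      intro s
      rw [card_eq_zero, ← disjoint_iff_inter_eq_empty]
      exact disjoint_of_subset_right ((hsub c _).trans hc) (low_high_disjoint hqlt)
    have z4 : ∀ s, (highSet P q ∩ Dc a (t s a)).card = 0 := by
      intro s
      rw [card_eq_zero, ← disjoint_iff_inter_eq_empty]
      exact (disjoint_of_subset_left ((hsub a _).trans ha) (low_high_disjoint hqlt)).symm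
    have L1 := hint (lowSet P q) s
    have L2 := hint (lowSet P q) s'
    have H1 := hint (highSet P q) s
    have H2 := hint (highSet P q) s'
    have L3 := hcomp (lowSet P q) s
    have L4 := hcomp (lowSet P q) s'
    have H3 := hcomp (highSet P q) s
    have H4 := hcomp (highSet P q) s'
    rw [← add_sum_erase univ (fun e => (lowSet P q ∩ Dc e (t s e)).card) (mem_univ a), z1] at L1
    rw [← add_sum_erase univ (fun e => (lowSet P q ∩ Dc e (t s' e)).card) (mem_univ a), z1] at L2
    rw [← add_sum_erase univ (fun e => (highSet P q ∩ Dc e (t s e)).card) (mem_univ c), z2] at H1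
    rw [← add_sum_erase univ (fun e => (highSet P q ∩ Dc e (t s' e)).card) (mem_univ c), z2] at H2
    have X : ∑ e ∈ univ.erase a, (lowSet P q ∩ Dc e (t s e)).card =
        ∑ e ∈ univ.erase a, (lowSet P q ∩ Dc e (t s' e)).card := by
      apply sum_congr rfl
      intro e he
      by_cases hec : e = c
      · subst hec
        rw [z3, z3]
      · rw [hoth e (mem_erase.mp he).1 hec]
    have Y : ∑ e ∈ univ.erase c, (highSet P q ∩ Dc e (t s e)).card =
        ∑ e ∈ univ.erase c, (highSet P q ∩ Dc e (t s' e)).card := by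
      apply sum_congr rfl
      intro e he
      by_cases hea : e = a
      · subst hea
        rw [z4, z4]
      · rw [hoth e hea (mem_erase.mp he).1]
    have hy : (s (a, c) : ℕ) = s' (a, c) := by
      omega
    funext z
    by_cases hz : z = (a, c)
    · rw [hz]
      exact Fin.ext hy
    · exact heq z hz
  -- the number of balanced parameters
  obtain ⟨N, hN⟩ : ∃ N, N = (univ : Finset (K3 × K3 → Fin (σ + 1))).card := ⟨_, rfl⟩
  have hNpos : 0 < N := by
    rw [hN, card_pos]
    exact univ_nonempty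
  have hcount : ∀ q ∈ T P,
      (univ.filter (fun s => (q.1 ∉ D s ∧ q.2 ∉ D s) ∧
      (lowSet P q \ D s).card = (highSet P q \ D s).card)).card * (σ + 1) ≤ N := by
    intro q hqT
    by_cases hex : ∃ s, (lowSet P q \ D s).card = (highSet P q \ D s).card
    · obtain ⟨s0, hs0⟩ := hex
      obtain ⟨a, c, ha, hc⟩ := hcell q hqT s0 (Or.inl hs0)
      rw [hN]
      exact count_det (p := fun s => (q.1 ∉ D s ∧ q.2 ∉ D s) ∧
        (lowSet P q \ D s).card = (highSet P q \ D s).card) (a, c)
        (fun s s' hoff h h' => hdet q hqT a c ha hc s s' hoff (Or.inl ⟨h.2, h'.2⟩))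
    · push Not at hex
      rw [filter_false_of_mem (fun s _ h => hex s h.2), card_empty, zero_mul]
      exact Nat.zero_le _
  have hcount' : ∀ q ∈ T P,
      (univ.filter (fun s => (q.1 ∉ (D s)ᶜ ∧ q.2 ∉ (D s)ᶜ) ∧
      (lowSet P q \ (D s)ᶜ).card = (highSet P q \ (D s)ᶜ).card)).card * (σ + 1) ≤ N := by
    intro q hqT
    by_cases hex : ∃ s, (lowSet P q \ (D s)ᶜ).card = (highSet P q \ (D s)ᶜ).card
    · obtain ⟨s0, hs0⟩ := hex
      obtain ⟨a, c, ha, hc⟩ := hcell q hqT s0 (Or.inr hs0)
      rw [hN]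
      exact count_det (p := fun s => (q.1 ∉ (D s)ᶜ ∧ q.2 ∉ (D s)ᶜ) ∧
        (lowSet P q \ (D s)ᶜ).card = (highSet P q \ (D s)ᶜ).card) (a, c)
        (fun s s' hoff h h' => hdet q hqT a c ha hc s s' hoff (Or.inr ⟨h.2, h'.2⟩))
    · push Not at hex
      rw [filter_false_of_mem (fun s _ h => hex s h.2), card_empty, zero_mul]
      exact Nat.zero_le _
  have hfar : ∀ q ∈ T P, q ∉ EW P (Wn n m) →
      (univ.filter (fun s => (q.1 ∉ D s ∧ q.2 ∉ D s) ∧
        (lowSet P q \ D s).card = (highSet P q \ D s).card)).card = 0 := by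
    intro q hqT hqE
    rw [card_eq_zero, filter_eq_empty_iff]
    rintro s _ ⟨-, hbal⟩
    apply hqE
    unfold EW
    rw [mem_filter]
    refine ⟨hqT, ?_⟩
    have h1 := low_high_card hP (mem_T.mp hqT)
    have h2 := card_sdiff_add_card_inter (lowSet P q) (D s)
    have h3 := card_sdiff_add_card_inter (highSet P q) (D s)
    have h4 := card_le_card (inter_subset_right (s₁ := lowSet P q) (s₂ := D s))
    have h5 := card_le_card (inter_subset_right (s₁ := highSet P q) (s₂ := D s))
    have h6 := hDc s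
    rw [lev_eq]
    unfold Wn
    rw [mem_filter, mem_range]
    omega
  have hfar' : ∀ q ∈ T P, q ∉ U ×ˢ U →
      (univ.filter (fun s => (q.1 ∉ (D s)ᶜ ∧ q.2 ∉ (D s)ᶜ) ∧
        (lowSet P q \ (D s)ᶜ).card = (highSet P q \ (D s)ᶜ).card)).card = 0 := by
    intro q hqT hqE
    rw [card_eq_zero, filter_eq_empty_iff]
    rintro s _ ⟨⟨h1, h2⟩, -⟩
    apply hqE
    rw [mem_compl, not_not] at h1 h2
    rw [mem_product]
    exact ⟨hDU s h1, hDU s h2⟩
  have htot : (∑ s, (BP P (D s)).card) * (σ + 1) ≤ (EW P (Wn n m)).card * N := by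
    have e1 : ∀ s, (BP P (D s)).card =
        ∑ q ∈ T P, if ((q.1 ∉ D s ∧ q.2 ∉ D s) ∧
          (lowSet P q \ D s).card = (highSet P q \ D s).card) then 1 else 0 := by
      intro s
      unfold BP
      rw [card_filter]
    simp only [e1]
    rw [sum_comm, sum_mul]
    have e2 : ∀ q ∈ T P, (∑ s, if ((q.1 ∉ D s ∧ q.2 ∉ D s) ∧
          (lowSet P q \ D s).card = (highSet P q \ D s).card) then 1 else 0) * (σ + 1)
        ≤ if q ∈ EW P (Wn n m) then N else 0 := by
      intro q hqT
      rw [← card_filter]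
      split_ifs with h
      · exact hcount q hqT
      · rw [hfar q hqT h, zero_mul]
    refine (sum_le_sum e2).trans ?_
    rw [← sum_filter, sum_const, smul_eq_mul]
    apply Nat.mul_le_mul_right
    apply card_le_card
    intro q hq'
    exact (mem_filter.mp hq').2
  have htot' : (∑ s, (BP P (D s)ᶜ).card) * (σ + 1) ≤ (6 * m) ^ 2 * N := by
    have e1 : ∀ s, (BP P (D s)ᶜ).card =
        ∑ q ∈ T P, if ((q.1 ∉ (D s)ᶜ ∧ q.2 ∉ (D s)ᶜ) ∧
          (lowSet P q \ (D s)ᶜ).card = (highSet P q \ (D s)ᶜ).card) then 1 else 0 := by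
      intro s
      unfold BP
      rw [card_filter]
    simp only [e1]
    rw [sum_comm, sum_mul]
    have e2 : ∀ q ∈ T P, (∑ s, if ((q.1 ∉ (D s)ᶜ ∧ q.2 ∉ (D s)ᶜ) ∧
          (lowSet P q \ (D s)ᶜ).card = (highSet P q \ (D s)ᶜ).card) then 1 else 0) * (σ + 1)
        ≤ if q ∈ U ×ˢ U then N else 0 := by
      intro q hqT
      rw [← card_filter]
      split_ifs with h
      · exact hcount' q hqT
      · rw [hfar' q hqT h, zero_mul]
    refine (sum_le_sum e2).trans ?_
    rw [← sum_filter, sum_const, smul_eq_mul]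
    apply Nat.mul_le_mul_right
    calc ((T P).filter (fun q => q ∈ U ×ˢ U)).card ≤ (U ×ˢ U).card := by
          apply card_le_card
          intro q hq'
          exact (mem_filter.mp hq').2
      _ ≤ (6 * m) ^ 2 := by
          rw [card_product, sq]
          exact Nat.mul_le_mul hUc hUc
  obtain ⟨x, hx⟩ : ∃ x, x = (EW P (Wn n m)).card + 1 := ⟨_, rfl⟩
  obtain ⟨y, hy⟩ : ∃ y, y = (6 * m) ^ 2 + 1 := ⟨_, rfl⟩
  have hex2 : ∃ s, ((BP P (D s)).card * y + (BP P (D s)ᶜ).card * x) * (σ + 1) ≤ 2 * (x * y) := by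
    by_contra hc
    push Not at hc
    have hc' : ∀ s, 2 * (x * y) + 1 ≤
        ((BP P (D s)).card * y + (BP P (D s)ᶜ).card * x) * (σ + 1) := fun s => hc s
    have h2 := sum_le_sum (s := (univ : Finset (K3 × K3 → Fin (σ + 1)))) (fun s _ => hc' s)
    rw [sum_const, ← sum_mul, smul_eq_mul, ← hN, sum_add_distrib, ← sum_mul, ← sum_mul] at h2
    have h3 : (∑ s, (BP P (D s)).card) * y * (σ + 1) ≤ x * N * y := by
      calc (∑ s, (BP P (D s)).card) * y * (σ + 1) =
            ((∑ s, (BP P (D s)).card) * (σ + 1)) * y := by ring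
        _ ≤ (x * N) * y := Nat.mul_le_mul_right _ (htot.trans (Nat.mul_le_mul_right _ (by omega)))
    have h4 : (∑ s, (BP P (D s)ᶜ).card) * x * (σ + 1) ≤ y * N * x := by
      calc (∑ s, (BP P (D s)ᶜ).card) * x * (σ + 1) =
            ((∑ s, (BP P (D s)ᶜ).card) * (σ + 1)) * x := by ring
        _ ≤ (y * N) * x := Nat.mul_le_mul_right _ (htot'.trans (Nat.mul_le_mul_right _ (by omega)))
    have h5 : N * (2 * (x * y) + 1) ≤ N * (2 * (x * y)) := by
      calc N * (2 * (x * y) + 1) ≤ _ := h2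
        _ = (∑ s, (BP P (D s)).card) * y * (σ + 1) +
            (∑ s, (BP P (D s)ᶜ).card) * x * (σ + 1) := by ring
        _ ≤ x * N * y + y * N * x := Nat.add_le_add h3 h4
        _ = _ := by ring
    have h7 : N * (2 * (x * y)) < N * (2 * (x * y) + 1) := by
      apply Nat.mul_lt_mul_of_pos_left _ hNpos
      omega
    omega
  obtain ⟨s, hs⟩ := hex2
  have hx0 : 0 < x := by omega
  have hy0 : 0 < y := by omega
  refine ⟨D s, hDc s, ?_, ?_⟩
  · rw [← hx]
    have h1 : ((BP P (D s)).card * (σ + 1)) * y ≤ (2 * x) * y := by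
      calc ((BP P (D s)).card * (σ + 1)) * y ≤
            ((BP P (D s)).card * y + (BP P (D s)ᶜ).card * x) * (σ + 1) := by
            rw [add_mul]
            refine le_trans (le_of_eq ?_) (Nat.le_add_right _ _)
            ring
        _ ≤ 2 * (x * y) := hs
        _ = _ := by ring
    exact Nat.le_of_mul_le_mul_right h1 hy0
  · rw [← hy]
    have h1 : ((BP P (D s)ᶜ).card * (σ + 1)) * x ≤ (2 * y) * x := by
      calc ((BP P (D s)ᶜ).card * (σ + 1)) * x ≤
            ((BP P (D s)).card * y + (BP P (D s)ᶜ).card * x) * (σ + 1) := by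
            rw [add_mul]
            refine le_trans (le_of_eq ?_) (Nat.le_add_left _ _)
            ring
        _ ≤ 2 * (x * y) := hs
        _ = _ := by ring
    exact Nat.le_of_mul_le_mul_right h1 hx0

end Pool.Agent.Helper889_Halv
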